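import Mathlib

/-!
# Discrete valuation rings with finite residue field: sizes, submodules of `A × N`
-/

open scoped BigOperators

namespace Pool.Agent.MP_f418a9_al.NF

section general

variable {R : Type*} [CommRing R] {M M' : Type*} [AddCommGroup M] [AddCommGroup M'] [Module R M]
  [Module R M']

lemma card_quot_of_surj (f : M →ₗ[R] M') (hf : Function.Surjective f) {K : Submodule R M}
    (hK : LinearMap.ker f = K) : Nat.card (M ⧸ K) = Nat.card M' := by
  subst hK
  exact Nat.card_congr (f.quotKerEquivOfSurjective hf).toEquiv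

end general

variable {A : Type*} [CommRing A] [IsDomain A] [IsDiscreteValuationRing A]

/-- the size of the residue field -/
noncomputable def rc (A : Type*) [CommRing A] [IsDomain A] [IsDiscreteValuationRing A] : ℕ :=
  Nat.card (IsLocalRing.ResidueField A)

lemma rc_pos [Finite (IsLocalRing.ResidueField A)] : 0 < rc A := Nat.card_pos

lemma one_lt_rc [Finite (IsLocalRing.ResidueField A)] : 1 < rc A := Finite.one_lt_card

variable {ϖ : A}

lemma max_pow_eq (hϖ : Irreducible ϖ) (a : ℕ) :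
    IsLocalRing.maximalIdeal A ^ a = Ideal.span {ϖ ^ a} := by
  rw [hϖ.maximalIdeal_eq, Ideal.span_singleton_pow]

lemma card_quot_pow (hϖ : Irreducible ϖ) (a : ℕ) :
    Nat.card (A ⧸ Ideal.span {ϖ ^ a}) = rc A ^ a := by
  rw [← max_pow_eq hϖ]
  have h := cardQuot_pow_of_prime (S := A) (P := IsLocalRing.maximalIdeal A)
    (IsDiscreteValuationRing.not_a_field A) (i := a)
  exact h

lemma pow_ne_zero' (hϖ : Irreducible ϖ) (a : ℕ) : ϖ ^ a ≠ 0 := pow_ne_zero _ hϖ.ne_zero

lemma pow_dvd_pow' (hϖ : Irreducible ϖ) {a b : ℕ} : ϖ ^ a ∣ ϖ ^ b ↔ a ≤ b :=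
  pow_dvd_pow_iff hϖ.ne_zero hϖ.not_isUnit

lemma ideal_eq_span (hϖ : Irreducible ϖ) {I : Ideal A} (hI : I ≠ ⊥) :
    ∃ a : ℕ, I = Ideal.span {ϖ ^ a} :=
  IsDiscreteValuationRing.ideal_eq_span_pow_irreducible hI hϖ

variable {N : Type*} [AddCommGroup N] [Module A N]

/-- The submodule `{(c ϖ^a, c x + m) : c ∈ A, m ∈ M}` of `A × N`. -/
def extMod (ϖ : A) (a : ℕ) (M : Submodule A N) (x : N) : Submodule A (A × N) where
  carrier := {z | ∃ c : A, z.1 = c * ϖ ^ a ∧ z.2 - c • x ∈ M}
  add_mem' := by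
    rintro z w ⟨c, h1, h2⟩ ⟨d, h3, h4⟩
    refine ⟨c + d, ?_, ?_⟩
    · rw [Prod.fst_add, h1, h3]; ring
    · have : (z + w).2 - (c + d) • x = (z.2 - c • x) + (w.2 - d • x) := by
        rw [Prod.snd_add, add_smul]; abel
      rw [this]; exact M.add_mem h2 h4
  zero_mem' := ⟨0, by simp, by simp⟩
  smul_mem' := by
    rintro r z ⟨c, h1, h2⟩
    refine ⟨r * c, ?_, ?_⟩
    · rw [Prod.smul_fst, h1, smul_eq_mul]; ring
    · have : (r • z).2 - (r * c) • x = r • (z.2 - c • x) := by
        rw [Prod.smul_snd, smul_sub, mul_smul]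
      rw [this]; exact M.smul_mem r h2

lemma mem_extMod {a : ℕ} {M : Submodule A N} {x : N} {z : A × N} :
    z ∈ extMod ϖ a M x ↔ ∃ c : A, z.1 = c * ϖ ^ a ∧ z.2 - c • x ∈ M := Iff.rfl

lemma zero_mem_extMod (hϖ : Irreducible ϖ) {a : ℕ} {M : Submodule A N} {x u : N} :
    ((0 : A), u) ∈ extMod ϖ a M x ↔ u ∈ M := by
  rw [mem_extMod]
  constructor
  · rintro ⟨c, h1, h2⟩
    have hc : c = 0 := by
      rcases mul_eq_zero.mp h1.symm with h | h
      · exact h
      · exact absurd h (pow_ne_zero' hϖ a)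
    subst hc
    simpa using h2
  · intro h
    exact ⟨0, by simp, by simpa using h⟩

lemma self_mem_extMod {a : ℕ} {M : Submodule A N} {x : N} :
    (ϖ ^ a, x) ∈ extMod ϖ a M x := ⟨1, by simp, by simp⟩

theorem extMod_inj (hϖ : Irreducible ϖ) {a a' : ℕ} {M M' : Submodule A N} {x x' : N} :
    extMod ϖ a M x = extMod ϖ a' M' x' ↔ a = a' ∧ M = M' ∧ x - x' ∈ M := by
  constructor
  · intro h
    have hM : M = M' := by
      ext u
      rw [← zero_mem_extMod hϖ (a := a) (x := x), h, zero_mem_extMod hϖ]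
    subst hM
    have h1 : (ϖ ^ a, x) ∈ extMod ϖ a' M x' := h ▸ self_mem_extMod
    have h2 : (ϖ ^ a', x') ∈ extMod ϖ a M x := h ▸ self_mem_extMod
    obtain ⟨c, hc1, hc2⟩ := h1
    obtain ⟨d, hd1, hd2⟩ := h2
    have ha : a = a' := by
      apply le_antisymm
      · rw [← pow_dvd_pow' hϖ]
        exact ⟨d, by rw [mul_comm]; exact hd1⟩
      · rw [← pow_dvd_pow' hϖ]
        exact ⟨c, by rw [mul_comm]; exact hc1⟩
    subst ha
    refine ⟨rfl, rfl, ?_⟩
    have hc : c = 1 := by
      have : (c - 1) * ϖ ^ a = 0 := by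
        simp only at hc1
        rw [sub_mul, ← hc1, one_mul, sub_self]
      rcases mul_eq_zero.mp this with h | h
      · exact sub_eq_zero.mp h
      · exact absurd h (pow_ne_zero' hϖ a)
    subst hc
    simpa using hc2
  · rintro ⟨rfl, rfl, h⟩
    ext z
    rw [mem_extMod, mem_extMod]
    constructor
    · rintro ⟨c, h1, h2⟩
      refine ⟨c, h1, ?_⟩
      have : z.2 - c • x' = (z.2 - c • x) + c • (x - x') := by rw [smul_sub]; abel
      rw [this]
      exact M.add_mem h2 (M.smul_mem c h)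
    · rintro ⟨c, h1, h2⟩
      refine ⟨c, h1, ?_⟩
      have : z.2 - c • x = (z.2 - c • x') - c • (x - x') := by rw [smul_sub]; abel
      rw [this]
      exact M.sub_mem h2 (M.smul_mem c h)

/-- The index of `extMod ϖ a M x`. -/
theorem card_quot_extMod (hϖ : Irreducible ϖ) (a : ℕ) (M : Submodule A N) (x : N) :
    Nat.card ((A × N) ⧸ extMod ϖ a M x) = rc A ^ a * Nat.card (N ⧸ M) := by
  let g : (A × N) →ₗ[A] (A ⧸ Ideal.span {ϖ ^ a}) :=
    (Ideal.span {ϖ ^ a}).mkQ ∘ₗ LinearMap.fst A A N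
  have hg : Function.Surjective g :=
    (Submodule.mkQ_surjective _).comp LinearMap.fst_surjective
  have hle : extMod ϖ a M x ≤ LinearMap.ker g := by
    rintro z ⟨c, h1, -⟩
    rw [LinearMap.mem_ker]
    simp only [g, LinearMap.comp_apply, LinearMap.fst_apply, Submodule.mkQ_apply]
    rw [Submodule.Quotient.mk_eq_zero, h1]
    exact Ideal.mul_mem_left _ _ (Ideal.mem_span_singleton_self _)
  rw [← Submodule.card_quotient_mul_card_quotient (LinearMap.ker g) (extMod ϖ a M x) hle,
    card_quot_of_surj g hg rfl, card_quot_pow hϖ, mul_comm]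
  congr 1
  -- the image of `ker g` in the quotient is isomorphic to `N ⧸ M`
  let α : N →ₗ[A] ((A × N) ⧸ extMod ϖ a M x) :=
    (extMod ϖ a M x).mkQ ∘ₗ LinearMap.inr A A N
  have hα : LinearMap.ker α = M := by
    ext u
    rw [LinearMap.mem_ker]
    simp only [α, LinearMap.comp_apply, LinearMap.inr_apply, Submodule.mkQ_apply]
    rw [Submodule.Quotient.mk_eq_zero, zero_mem_extMod hϖ]
  have hr : LinearMap.range α = (LinearMap.ker g).map (extMod ϖ a M x).mkQ := by
    ext q
    rw [LinearMap.mem_range, Submodule.mem_map]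
    constructor
    · rintro ⟨u, rfl⟩
      refine ⟨(0, u), ?_, rfl⟩
      rw [LinearMap.mem_ker]
      simp [g]
    · rintro ⟨z, hz, rfl⟩
      rw [LinearMap.mem_ker] at hz
      simp only [g, LinearMap.comp_apply, LinearMap.fst_apply, Submodule.mkQ_apply] at hz
      rw [Submodule.Quotient.mk_eq_zero, Ideal.mem_span_singleton'] at hz
      obtain ⟨c, hc⟩ := hz
      refine ⟨z.2 - c • x, ?_⟩
      simp only [α, LinearMap.comp_apply, LinearMap.inr_apply, Submodule.mkQ_apply]
      rw [Submodule.Quotient.eq]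
      refine ⟨-c, ?_, ?_⟩
      · simp [← hc]
      · simp
  rw [← hr]
  rw [← Nat.card_congr α.quotKerEquivRange.toEquiv, hα]

/-- Every submodule of `A × N` of finite index is an `extMod`. -/
theorem exists_extMod (hϖ : Irreducible ϖ) (Λ : Submodule A (A × N)) [Finite ((A × N) ⧸ Λ)] :
    ∃ (a : ℕ) (M : Submodule A N) (x : N), Λ = extMod ϖ a M x ∧ Finite (N ⧸ M) := by
  let I : Ideal A := Λ.map (LinearMap.fst A A N)
  have hinf : Infinite A := by
    by_contra h
    rw [not_infinite_iff_finite] at h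
    exact IsDiscreteValuationRing.not_isField A (Finite.isField_of_domain A)
  have hI : I ≠ ⊥ := by
    intro h0
    -- otherwise `A` would inject in the finite quotient
    let f : A → ((A × N) ⧸ Λ) := fun r => Λ.mkQ (r, 0)
    have hf : Function.Injective f := by
      intro r s hrs
      simp only [f, Submodule.mkQ_apply] at hrs
      rw [Submodule.Quotient.eq] at hrs
      have : (r - s) ∈ I := ⟨_, hrs, by simp⟩
      rw [h0, Submodule.mem_bot] at this
      exact sub_eq_zero.mp this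
    have := Finite.of_injective f hf
    exact not_finite A
  have hspan : ∃ a : ℕ, I = Ideal.span {ϖ ^ a} := ideal_eq_span hϖ hI
  obtain ⟨a, ha⟩ := hspan
  have h1 : ϖ ^ a ∈ I := by rw [ha]; exact Ideal.mem_span_singleton_self _
  obtain ⟨z, hz, hz1⟩ := h1
  simp only [LinearMap.fst_apply] at hz1
  let M : Submodule A N := Λ.comap (LinearMap.inr A A N)
  refine ⟨a, M, z.2, ?_, ?_⟩
  · ext w
    rw [mem_extMod]
    constructor
    · intro hw
      have hwI : w.1 ∈ I := ⟨w, hw, rfl⟩
      rw [ha, Ideal.mem_span_singleton'] at hwI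
      obtain ⟨c, hc⟩ := hwI
      refine ⟨c, hc.symm, ?_⟩
      change LinearMap.inr A A N (w.2 - c • z.2) ∈ Λ
      have : LinearMap.inr A A N (w.2 - c • z.2) = w - c • z := by
        refine Prod.ext ?_ ?_
        · simp [← hc, hz1]
        · simp
      rw [this]
      exact Λ.sub_mem hw (Λ.smul_mem c hz)
    · rintro ⟨c, hc1, hc2⟩
      have h3 : LinearMap.inr A A N (w.2 - c • z.2) ∈ Λ := hc2
      have : w = LinearMap.inr A A N (w.2 - c • z.2) + c • z := by
        refine Prod.ext ?_ ?_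
        · simp [hc1, hz1]
        · simp
      rw [this]
      exact Λ.add_mem h3 (Λ.smul_mem c hz)
  · let α : N →ₗ[A] ((A × N) ⧸ Λ) := Λ.mkQ ∘ₗ LinearMap.inr A A N
    have hα : LinearMap.ker α = M := by
      rw [LinearMap.ker_comp, Submodule.ker_mkQ]
    rw [← hα]
    exact Finite.of_injective _ (α.quotKerEquivRange.injective)

end Pool.Agent.MP_f418a9_al.NF
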