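import Mathlib

/-!
# Cotype zeta functions of (not necessarily associative) `𝒪`-algebras

Definitions for MP_f418a9_al over an arbitrary number field `K` with ring of integers `𝒪 = 𝓞 K`.

An `𝒪`-algebra which is free of rank `d` as a module is the module `𝒪^d` with a bilinear
multiplication, given by its structure constants `c i j k` : `e_i * e_j = ∑ k, c i j k • e_k`.
-/

open scoped BigOperators NumberField
open IsDedekindDomain

namespace Pool.Agent.MP_f418a9_al.NF

variable {K : Type} [Field K] [NumberField K]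

/-- Structure constants of an `𝓞 K`-algebra of rank `d` (an `𝓞 K`-bilinear multiplication on
`(𝓞 K)^d`, not assumed associative): `e_i * e_j = ∑ k, c i j k • e_k`. -/
abbrev StructureConstants (K : Type) [Field K] [NumberField K] (d : ℕ) : Type :=
  Fin d → Fin d → Fin d → 𝓞 K

/-- The multiplication of the `𝓞 K`-algebra with structure constants `c`. -/
def mul {d : ℕ} (c : StructureConstants K d) (x y : Fin d → 𝓞 K) : Fin d → 𝓞 K :=
  fun k => ∑ i, ∑ j, c i j k * (x i * y j)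

/-- The `𝓞 K`-algebra with structure constants `c` is an `𝓞 K`-Lie algebra: the multiplication is
alternating and satisfies the Jacobi identity. -/
def IsLieAlg {d : ℕ} (c : StructureConstants K d) : Prop :=
  (∀ x : Fin d → 𝓞 K, mul c x x = 0) ∧
    ∀ x y z : Fin d → 𝓞 K, mul c x (mul c y z) + mul c y (mul c z x) + mul c z (mul c x y) = 0

/-- `q = |𝓞 K / 𝔭|` for a nonzero prime `𝔭` of `𝓞 K`. -/
noncomputable def resCard (v : HeightOneSpectrum (𝓞 K)) : ℕ := Nat.card (𝓞 K ⧸ v.asIdeal)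

/-- The completion `𝒪_𝔭` of `𝓞 K` at a nonzero prime `𝔭`. -/
abbrev Loc (v : HeightOneSpectrum (𝓞 K)) : Type := v.adicCompletionIntegers K

/-- The multiplication of `L(𝒪_𝔭) = L ⊗ 𝒪_𝔭 = 𝒪_𝔭^d`. -/
noncomputable def locMul (v : HeightOneSpectrum (𝓞 K)) {d : ℕ} (c : StructureConstants K d)
    (x y : Fin d → Loc v) : Fin d → Loc v :=
  fun k => ∑ i, ∑ j, algebraMap (𝓞 K) (Loc v) (c i j k) * (x i * y j)

/-- `Λ` is a two-sided ideal of `L(𝒪_𝔭)`. -/
def IsIdeal2 (v : HeightOneSpectrum (𝓞 K)) {d : ℕ} (c : StructureConstants K d)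
    (Λ : Submodule (Loc v) (Fin d → Loc v)) : Prop :=
  ∀ x ∈ Λ, ∀ y, locMul v c x y ∈ Λ ∧ locMul v c y x ∈ Λ

/-- `Λ` has cotype `(𝔭^{k_1}, …, 𝔭^{k_d})`: `k_1 ≥ … ≥ k_d` and
`𝒪_𝔭^d / Λ ≅ ⨁ 𝒪_𝔭 / 𝔭^{k_i}`; thus `α_i(Λ) = q ^ k_i`. -/
def HasCotype (v : HeightOneSpectrum (𝓞 K)) {d : ℕ} (Λ : Submodule (Loc v) (Fin d → Loc v))
    (k : Fin d → ℕ) : Prop :=
  Antitone k ∧ Nonempty (((Fin d → Loc v) ⧸ Λ) ≃ₗ[Loc v]
    (∀ i, Loc v ⧸ IsLocalRing.maximalIdeal (Loc v) ^ (k i)))

/-- The local factor at `𝔭` of the cotype zeta function of a family `S` of submodules of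
`𝒪_𝔭^d`, as a formal power series in `Y_1, …, Y_d` (`Y_i = q^{-s_i}`): the coefficient of `Y^k` is
the number of members of `S` of cotype `(𝔭^{k_1}, …, 𝔭^{k_d})`. -/
noncomputable def zetaCo (v : HeightOneSpectrum (𝓞 K)) {d : ℕ}
    (S : Submodule (Loc v) (Fin d → Loc v) → Prop) : MvPowerSeries (Fin d) ℤ :=
  fun k => ({Λ | S Λ ∧ HasCotype v Λ k}.ncard : ℤ)

/-- The local factor at `𝔭` of the zeta function of a family `S` of submodules of `𝒪_𝔭^d`, as a
formal power series in one variable `Y = q^{-s}`: the coefficient of `Y^n` is the number of members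
of `S` of index `q^n`. -/
noncomputable def zetaIdx (v : HeightOneSpectrum (𝓞 K)) {d : ℕ}
    (S : Submodule (Loc v) (Fin d → Loc v) → Prop) : PowerSeries ℤ :=
  PowerSeries.mk fun n =>
    ({Λ | S Λ ∧ Nat.card ((Fin d → Loc v) ⧸ Λ) = resCard v ^ n}.ncard : ℤ)

/-- Specialisation `X := q` of a polynomial in `X` and the variables `σ`. -/
noncomputable def evalX {σ : Type*} (q : ℕ) (F : MvPolynomial σ (Polynomial ℤ)) :
    MvPolynomial σ ℤ :=
  MvPolynomial.map (Polynomial.evalRingHom (q : ℤ)) F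

/-- `Z = (F / G)(q, Y)` for the rational function `F / G` in `X` and the variables `σ`
(in particular the denominator does not vanish identically at `X = q`). -/
def IsValueOf {σ : Type*} (Z : MvPowerSeries σ ℤ) (q : ℕ) (F G : MvPolynomial σ (Polynomial ℤ)) :
    Prop :=
  evalX q G ≠ 0 ∧ (evalX q G : MvPowerSeries σ ℤ) * Z = (evalX q F : MvPowerSeries σ ℤ)

/-- A family `Z_𝔭` of formal power series in the variables `σ` (one for each nonzero prime `𝔭`) is
uniform if there is a rational function `W = F / G ∈ ℚ(X, Y_σ)` with `Z_𝔭 = W(q, Y)` for all but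
finitely many nonzero primes `𝔭`. -/
def IsUniform {σ : Type*} (Z : HeightOneSpectrum (𝓞 K) → MvPowerSeries σ ℤ) : Prop :=
  ∃ F G : MvPolynomial σ (Polynomial ℤ),
    {v : HeightOneSpectrum (𝓞 K) | ¬ IsValueOf (Z v) (resCard v) F G}.Finite

/-- A family `Z_𝔭` is finitely uniform if there are finitely many rational functions
`W_i = F_i / G_i ∈ ℚ(X, Y_σ)` such that for every nonzero prime `𝔭`, `Z_𝔭 = W_i(q, Y)` for some
`i`. -/
def IsFinitelyUniform {σ : Type*} (Z : HeightOneSpectrum (𝓞 K) → MvPowerSeries σ ℤ) : Prop :=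
  ∃ (m : ℕ) (F G : Fin m → MvPolynomial σ (Polynomial ℤ)),
    ∀ v : HeightOneSpectrum (𝓞 K), ∃ i, IsValueOf (Z v) (resCard v) (F i) (G i)

end Pool.Agent.MP_f418a9_al.NF
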