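import Mathlib
import Pool.Agent.Work.MP_f418a9_al.NF.Defs
import Pool.Agent.Work.MP_f418a9_al.NF.DVR

/-!
# Interface: statements of the blocks of the proof (see `BLUEPRINT.md`)
-/

open scoped BigOperators NumberField
open IsDedekindDomain

namespace Pool.Agent.MP_f418a9_al.NF

/-- Block NT1: the character sum of the curve `Y^2 = X (X^2 + 6 X + 2)` over a field with `p^2`
elements is `2 p - T_p^2`. -/
def CharSumSq : Prop :=
  ∀ (p : ℕ) [Fact p.Prime], p ≠ 2 → p ≠ 7 → ∀ (k : Type) [Field k] [Fintype k] [DecidableEq k]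
    [CharP k p], Fintype.card k = p ^ 2 →
    ∑ x : k, quadraticChar k (x * (x ^ 2 + 6 * x + 2)) =
      2 * (p : ℤ) - (∑ x : ZMod p, quadraticChar (ZMod p) (x * (x ^ 2 + 6 * x + 2))) ^ 2

/-- Block NT2: no finite family of rational functions `A_i / B_i` satisfies
`2 p - S_p^2 ∈ {A_i(p^2) / B_i(p^2)}` for all large primes `p ≡ 3 mod 4`, if `|S_p| < p`. -/
def NoFiniteFamily : Prop :=
  ∀ (m : ℕ) (A B : Fin m → Polynomial ℤ), (∀ i, B i ≠ 0) → ∀ (N : ℕ) (S : ℕ → ℤ),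
    (∀ p : ℕ, p.Prime → N < p → p % 4 = 3 → |S p| < (p : ℤ)) →
    (∀ p : ℕ, p.Prime → N < p → p % 4 = 3 →
      ∃ i, (B i).eval ((p : ℤ) ^ 2) * (2 * (p : ℤ) - S p ^ 2) = (A i).eval ((p : ℤ) ^ 2)) →
    False

/-- Block NT3: primes `p ≡ 3 mod 4` are inert in `ℚ(i)`. -/
def InertPrimes : Prop :=
  ∀ p : ℕ, p.Prime → p % 4 = 3 →
    ∃ v : HeightOneSpectrum (𝓞 (CyclotomicField 4 ℚ)), resCard v = p ^ 2

/-- Block NT4: the residue field of the completion `𝒪_𝔭` is `𝓞 K / 𝔭`. -/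
def ResidueCard : Prop :=
  ∀ (K : Type) [Field K] [NumberField K] (v : HeightOneSpectrum (𝓞 K)),
    Nat.card (IsLocalRing.ResidueField (Loc v)) = resCard v

/-- The `x^2`-coefficient of `x^8` modulo `x^3 - c₂ x^2 - c₁ x - c₀`. -/
def h6 {R : Type*} [CommRing R] (c₀ c₁ c₂ : R) : R :=
  c₂ ^ 6 + 5 * c₂ ^ 4 * c₁ + 6 * c₂ ^ 2 * c₁ ^ 2 + c₁ ^ 3 + 4 * c₂ ^ 3 * c₀ + 6 * c₂ * c₁ * c₀ +
    c₀ ^ 2

/-- Block HYP: the number of zeros of `h6` over a finite field of odd characteristic. -/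
def HypCount : Prop :=
  ∀ (k : Type) [Field k] [Fintype k] [DecidableEq k], ringChar k ≠ 2 →
    (Nat.card {c : k × k × k // h6 c.1 c.2.1 c.2.2 = 0} : ℤ) =
      (Fintype.card k : ℤ) ^ 2 + ((Fintype.card k : ℤ) - 1) *
        ∑ x : k, quadraticChar k (x * (x ^ 2 + 6 * x + 2))

/-- Block RAT: if a family is finitely uniform then every coefficient lies, for every large `q`, in
a finite set of values of rational functions of `q`. -/
def CoeffRational : Prop :=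
  ∀ (K : Type) [Field K] [NumberField K] (d : ℕ)
    (Z : HeightOneSpectrum (𝓞 K) → MvPowerSeries (Fin d) ℤ), IsFinitelyUniform Z →
    ∀ κ : Fin d →₀ ℕ, ∃ (m : ℕ) (A B : Fin m → Polynomial ℤ), (∀ i, B i ≠ 0) ∧
      ∀ v : HeightOneSpectrum (𝓞 K), (∃ i, (B i).eval (resCard v : ℤ) = 0) ∨
        ∃ i, (B i).eval (resCard v : ℤ) * MvPowerSeries.coeff κ (Z v) =
          (A i).eval (resCard v : ℤ)

end Pool.Agent.MP_f418a9_al.NF
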