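import Mathlib
import Pool.Agent.Work.MP_f418a9_al.NF.Interface

/-!
# Block HYP
-/

open scoped BigOperators

namespace Pool.Agent.MP_f418a9_al.NF

section

variable {k : Type} [Field k] [Fintype k] [DecidableEq k]

lemma qc_sq_mul (a b : k) (ha : a ≠ 0) : quadraticChar k (a ^ 2 * b) = quadraticChar k b := by
  rw [map_mul, quadraticChar_sq_one' ha, one_mul]

lemma sum_sq_eq (hk : ringChar k ≠ 2) (t E : k) :
    ∑ c : k, (if (c + t) ^ 2 = E then (1 : ℤ) else 0) = 1 + quadraticChar k E := by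
  have h1 : ∑ c : k, (if (c + t) ^ 2 = E then (1 : ℤ) else 0) =
      ∑ s : k, (if s ^ 2 = E then (1 : ℤ) else 0) :=
    Fintype.sum_equiv (Equiv.addRight t) _ _ (fun c => rfl)
  rw [h1, Finset.sum_boole]
  have h2 := quadraticChar_card_sqrts hk E
  rw [add_comm, ← h2]
  congr 2
  ext x
  simp

end

theorem hypCount : HypCount := by
  intro k _ _ _ hk
  have hchi := quadraticChar_sum_zero (F := k) hk
  set T : ℤ := ∑ x : k, quadraticChar k (x * (x ^ 2 + 6 * x + 2)) with hT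
  have h1 : (Nat.card {c : k × k × k // h6 c.1 c.2.1 c.2.2 = 0} : ℤ) =
      ∑ c₂ : k, ∑ c₁ : k, ∑ c₀ : k, (if h6 c₀ c₁ c₂ = 0 then (1 : ℤ) else 0) := by
    rw [Nat.card_eq_fintype_card, Fintype.card_subtype, Finset.card_filter]
    push_cast
    rw [Fintype.sum_prod_type, Finset.sum_comm, Fintype.sum_prod_type, Finset.sum_comm]
  have h2 : ∀ c₂ c₁ : k, ∑ c₀ : k, (if h6 c₀ c₁ c₂ = 0 then (1 : ℤ) else 0) =
      1 + quadraticChar k (3 * c₂ ^ 6 + 7 * c₂ ^ 4 * c₁ + 3 * c₂ ^ 2 * c₁ ^ 2 - c₁ ^ 3) := by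
    intro c₂ c₁
    rw [← sum_sq_eq hk (2 * c₂ ^ 3 + 3 * c₁ * c₂)]
    refine Finset.sum_congr rfl fun c₀ _ => ?_
    have e : h6 c₀ c₁ c₂ = 0 ↔ (c₀ + (2 * c₂ ^ 3 + 3 * c₁ * c₂)) ^ 2 =
        3 * c₂ ^ 6 + 7 * c₂ ^ 4 * c₁ + 3 * c₂ ^ 2 * c₁ ^ 2 - c₁ ^ 3 := by
      rw [← sub_eq_zero (a := (c₀ + (2 * c₂ ^ 3 + 3 * c₁ * c₂)) ^ 2)]
      have : h6 c₀ c₁ c₂ = (c₀ + (2 * c₂ ^ 3 + 3 * c₁ * c₂)) ^ 2 -
        (3 * c₂ ^ 6 + 7 * c₂ ^ 4 * c₁ + 3 * c₂ ^ 2 * c₁ ^ 2 - c₁ ^ 3) := by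
        unfold h6; ring
      rw [this]
    simp only [e]
  have h3 : ∀ c₂ : k, c₂ ≠ 0 → ∑ c₁ : k, quadraticChar k
      (3 * c₂ ^ 6 + 7 * c₂ ^ 4 * c₁ + 3 * c₂ ^ 2 * c₁ ^ 2 - c₁ ^ 3) = T := by
    intro c₂ hc
    rw [hT]
    symm
    have hc2 : c₂ ^ 2 ≠ 0 := pow_ne_zero _ hc
    refine Fintype.sum_equiv (((Equiv.neg k).trans (Equiv.addRight (-1))).trans
      (Equiv.mulRight₀ (c₂ ^ 2) hc2)) _ _ (fun x => ?_)
    show quadraticChar k (x * (x ^ 2 + 6 * x + 2)) = quadraticChar k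
      (3 * c₂ ^ 6 + 7 * c₂ ^ 4 * ((-x + -1) * c₂ ^ 2) + 3 * c₂ ^ 2 * ((-x + -1) * c₂ ^ 2) ^ 2 -
        ((-x + -1) * c₂ ^ 2) ^ 3)
    have e : 3 * c₂ ^ 6 + 7 * c₂ ^ 4 * ((-x + -1) * c₂ ^ 2) + 3 * c₂ ^ 2 * ((-x + -1) * c₂ ^ 2) ^ 2 -
        ((-x + -1) * c₂ ^ 2) ^ 3 = (c₂ ^ 3) ^ 2 * (x * (x ^ 2 + 6 * x + 2)) := by ring
    rw [e, qc_sq_mul _ _ (pow_ne_zero _ hc)]
  have h4 : ∑ c₁ : k, quadraticChar k
      (3 * (0 : k) ^ 6 + 7 * (0 : k) ^ 4 * c₁ + 3 * (0 : k) ^ 2 * c₁ ^ 2 - c₁ ^ 3) = 0 := by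
    rw [← hchi]
    refine Fintype.sum_equiv (Equiv.neg k) _ _ (fun x => ?_)
    show _ = quadraticChar k (-x)
    by_cases hx : x = 0
    · subst hx; simp
    · have e : 3 * (0 : k) ^ 6 + 7 * (0 : k) ^ 4 * x + 3 * (0 : k) ^ 2 * x ^ 2 - x ^ 3 =
        x ^ 2 * (-x) := by ring
      rw [e, qc_sq_mul _ _ hx]
  rw [h1]
  simp only [h2, Finset.sum_add_distrib]
  rw [Finset.sum_const, Finset.sum_const, Finset.card_univ]
  have h5 : ∑ c₂ : k, ∑ c₁ : k, quadraticChar k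
      (3 * c₂ ^ 6 + 7 * c₂ ^ 4 * c₁ + 3 * c₂ ^ 2 * c₁ ^ 2 - c₁ ^ 3) = (Fintype.card k - 1) * T := by
    rw [← Finset.add_sum_erase Finset.univ _ (Finset.mem_univ (0 : k)), h4, zero_add]
    rw [Finset.sum_congr rfl fun c₂ hc => h3 c₂ (Finset.ne_of_mem_erase hc), Finset.sum_const,
      Finset.card_erase_of_mem (Finset.mem_univ _), Finset.card_univ, nsmul_eq_mul,
      Nat.cast_sub (Fintype.card_pos)]
    push_cast
    ring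
  rw [h5]
  simp only [nsmul_eq_mul, mul_one]
  ring

end Pool.Agent.MP_f418a9_al.NF
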