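import Mathlib
import Pool.Agent.Work.MP_f418a9_al.NF.DVR

/-!
# Ideals of `A[x]/(x^n)` in coordinates: submodules of `A^n` stable under the shift
-/

open scoped BigOperators

namespace Pool.Agent.MP_f418a9_al.NF

variable {A : Type*} [CommRing A]

/-- multiplication by `x` on `A[x]/(x^n) = A^n` -/
def shift (n : ℕ) : (Fin n → A) →ₗ[A] (Fin n → A) where
  toFun x i := if (i : ℕ) = 0 then 0 else x ⟨i - 1, by omega⟩
  map_add' x y := by
    ext i
    by_cases h : (i : ℕ) = 0 <;> simp [h]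
  map_smul' r x := by
    ext i
    by_cases h : (i : ℕ) = 0 <;> simp [h]

lemma shift_apply {n : ℕ} (x : Fin n → A) (i : Fin n) :
    shift n x i = if (i : ℕ) = 0 then 0 else x ⟨i - 1, by omega⟩ := rfl

/-- `I` is an ideal of `A[x]/(x^n)` -/
def Stable {n : ℕ} (I : Submodule A (Fin n → A)) : Prop := ∀ x ∈ I, shift n x ∈ I

/-- the element `1` of `A[x]/(x^n)` -/
def one' (n : ℕ) : Fin n → A := fun i => if (i : ℕ) = 0 then 1 else 0

/-- `A × A^n = A^(n+1)` -/
def EE (A : Type*) [CommRing A] (n : ℕ) : (A × (Fin n → A)) ≃ₗ[A] (Fin (n + 1) → A) :=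
  Fin.consLinearEquiv A (fun _ => A)

lemma EE_zero {n : ℕ} (a : A) (h : Fin n → A) : EE A n (a, h) 0 = a := rfl

lemma EE_succ {n : ℕ} (a : A) (h : Fin n → A) (i : Fin n) : EE A n (a, h) i.succ = h i := by
  rfl

lemma shift_EE {n : ℕ} (a : A) (h : Fin n → A) :
    shift (n + 1) (EE A n (a, h)) = EE A n (0, a • one' n + shift n h) := by
  ext i
  refine Fin.cases ?_ (fun i => ?_) i
  · rw [EE_zero]; simp [shift_apply]
  · rw [EE_succ, shift_apply]
    have h1 : ((i.succ : Fin (n + 1)) : ℕ) ≠ 0 := by simp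
    rw [if_neg h1]
    rcases Nat.eq_zero_or_pos (i : ℕ) with h0 | h0
    · have : (⟨((i.succ : Fin (n + 1)) : ℕ) - 1, by omega⟩ : Fin (n + 1)) = 0 := by
        ext; simp [h0]
      rw [this, EE_zero]
      simp [one', shift_apply, h0]
    · have : (⟨((i.succ : Fin (n + 1)) : ℕ) - 1, by omega⟩ : Fin (n + 1)) =
          (⟨(i : ℕ) - 1, by omega⟩ : Fin n).succ := by
        ext; simp; omega
      rw [this, EE_succ]
      have h2 : (i : ℕ) ≠ 0 := by omega
      simp [one', shift_apply, h2]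

variable [IsDomain A] [IsDiscreteValuationRing A] {ϖ : A}

/-- the submodule of `A^(n+1)` with leading generator `ϖ^a + x` and `M` below -/
def extS (ϖ : A) {n : ℕ} (a : ℕ) (M : Submodule A (Fin n → A)) (x : Fin n → A) :
    Submodule A (Fin (n + 1) → A) :=
  (extMod ϖ a M x).map (EE A n : (A × (Fin n → A)) →ₗ[A] (Fin (n + 1) → A))

lemma mem_extS {n a : ℕ} {M : Submodule A (Fin n → A)} {x : Fin n → A} {z : A × (Fin n → A)} :
    EE A n z ∈ extS ϖ a M x ↔ z ∈ extMod ϖ a M x := by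
  unfold extS
  constructor
  · rintro ⟨w, hw, he⟩
    have := (EE A n).injective he
    exact this ▸ hw
  · intro h
    exact ⟨z, h, rfl⟩

lemma stable_extS (hϖ : Irreducible ϖ) {n a : ℕ} {M : Submodule A (Fin n → A)}
    {x : Fin n → A} :
    Stable (extS ϖ a M x) ↔ Stable M ∧ ϖ ^ a • one' n + shift n x ∈ M := by
  constructor
  · intro h
    constructor
    · intro m hm
      have h1 : EE A n (0, m) ∈ extS ϖ a M x := by
        rw [mem_extS, zero_mem_extMod hϖ]; exact hm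
      have h2 := h _ h1
      rw [shift_EE, mem_extS, zero_mem_extMod hϖ, zero_smul, zero_add] at h2
      exact h2
    · have h1 : EE A n (ϖ ^ a, x) ∈ extS ϖ a M x := by
        rw [mem_extS]; exact self_mem_extMod
      have h2 := h _ h1
      rw [shift_EE, mem_extS, zero_mem_extMod hϖ] at h2
      exact h2
  · rintro ⟨h1, h2⟩ y hy
    obtain ⟨⟨b, m⟩, rfl⟩ := (EE A n).surjective y
    rw [mem_extS] at hy
    obtain ⟨c, hc1, hc2⟩ := hy
    simp only at hc1 hc2
    rw [shift_EE, mem_extS, zero_mem_extMod hϖ, hc1]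
    have : (c * ϖ ^ a) • one' n + shift n m =
        c • (ϖ ^ a • one' n + shift n x) + shift n (m - c • x) := by
      rw [map_sub, map_smul, smul_add, smul_smul]
      abel
    rw [this]
    exact M.add_mem (M.smul_mem _ h2) (h1 _ hc2)

lemma card_extS (hϖ : Irreducible ϖ) {n a : ℕ} {M : Submodule A (Fin n → A)}
    {x : Fin n → A} :
    Nat.card ((Fin (n + 1) → A) ⧸ extS ϖ a M x) = rc A ^ a * Nat.card ((Fin n → A) ⧸ M) := by
  rw [← card_quot_extMod hϖ a M x]
  exact (Nat.card_congr (Submodule.Quotient.equiv (extMod ϖ a M x) (extS ϖ a M x) (EE A n)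
    rfl).toEquiv).symm

lemma extS_inj (hϖ : Irreducible ϖ) {n a a' : ℕ} {M M' : Submodule A (Fin n → A)}
    {x x' : Fin n → A} :
    extS ϖ a M x = extS ϖ a' M' x' ↔ a = a' ∧ M = M' ∧ x - x' ∈ M := by
  rw [← extMod_inj hϖ]
  unfold extS
  exact (Submodule.map_injective_of_injective (EE A n).injective).eq_iff

theorem exists_extS (hϖ : Irreducible ϖ) {n : ℕ} (Λ : Submodule A (Fin (n + 1) → A))
    [Finite ((Fin (n + 1) → A) ⧸ Λ)] :
    ∃ (a : ℕ) (M : Submodule A (Fin n → A)) (x : Fin n → A), Λ = extS ϖ a M x ∧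
      Finite ((Fin n → A) ⧸ M) := by
  let Λ' : Submodule A (A × (Fin n → A)) :=
    Λ.comap (EE A n : (A × (Fin n → A)) →ₗ[A] (Fin (n + 1) → A))
  have hmap : Λ'.map (EE A n : (A × (Fin n → A)) →ₗ[A] (Fin (n + 1) → A)) = Λ :=
    Submodule.map_comap_eq_of_surjective (EE A n).surjective _
  have : Finite ((A × (Fin n → A)) ⧸ Λ') :=
    Finite.of_equiv _ (Submodule.Quotient.equiv Λ' Λ (EE A n) hmap).toEquiv.symm
  obtain ⟨a, M, x, h1, h2⟩ := exists_extMod hϖ Λ'
  exact ⟨a, M, x, by rw [extS, ← h1, hmap], h2⟩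

/-! ### The number of extensions -/

section ker

variable {R Q : Type*} [CommRing R] [AddCommGroup Q] [Module R Q]

lemma card_ker_eq_coker [Finite Q] (f : Q →ₗ[R] Q) :
    Nat.card (LinearMap.ker f) = Nat.card (Q ⧸ LinearMap.range f) := by
  have h1 : Nat.card Q = Nat.card (LinearMap.ker f) * Nat.card (Q ⧸ LinearMap.ker f) :=
    Submodule.card_eq_card_quotient_mul_card (LinearMap.ker f)
  have h2 : Nat.card Q = Nat.card (LinearMap.range f) * Nat.card (Q ⧸ LinearMap.range f) :=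
    Submodule.card_eq_card_quotient_mul_card (LinearMap.range f)
  have h3 : Nat.card (Q ⧸ LinearMap.ker f) = Nat.card (LinearMap.range f) :=
    Nat.card_congr f.quotKerEquivRange.toEquiv
  rw [h3] at h1
  have h4 : 0 < Nat.card (LinearMap.range f) := Nat.card_pos
  rw [h1, mul_comm] at h2
  exact Nat.eq_of_mul_eq_mul_left h4 h2

lemma card_affine [Finite Q] (f : Q →ₗ[R] Q) (e : Q) (h : e ∈ LinearMap.range f) :
    Nat.card {y : Q // e + f y = 0} = Nat.card (Q ⧸ LinearMap.range f) := by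
  rw [← card_ker_eq_coker]
  obtain ⟨z, hz⟩ := h
  refine Nat.card_congr ⟨fun y => ⟨z + y.1, ?_⟩, fun y => ⟨y.1 - z, ?_⟩, ?_, ?_⟩
  · rw [LinearMap.mem_ker, map_add, hz]; exact y.2
  · rw [map_sub, hz, LinearMap.mem_ker.mp y.2]; abel
  · intro y; ext; simp
  · intro y; ext; simp

end ker

/-- the map induced by the shift on the quotient by an ideal -/
def shiftQ {n : ℕ} (M : Submodule A (Fin n → A)) (h : Stable M) :
    ((Fin n → A) ⧸ M) →ₗ[A] ((Fin n → A) ⧸ M) :=
  M.mapQ M (shift n) h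

/-- the possible classes of the lower part of the leading generator -/
abbrev Sol (ϖ : A) {n : ℕ} (a : ℕ) (M : Submodule A (Fin n → A)) : Type _ :=
  {y : (Fin n → A) ⧸ M // ∃ x, M.mkQ x = y ∧ ϖ ^ a • one' n + shift n x ∈ M}

lemma mem_range_shift {m : ℕ} {y : Fin (m + 1) → A} (hy : y 0 = 0) :
    ∃ z, shift (m + 1) z = y := by
  refine ⟨fun i => if h : (i : ℕ) + 1 < m + 1 then y ⟨i + 1, h⟩ else 0, ?_⟩
  ext i
  rw [shift_apply]
  by_cases h : (i : ℕ) = 0
  · rw [if_pos h]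
    have : i = 0 := by ext; simp [h]
    rw [this, hy]
  · rw [if_neg h]
    have h1 : (i : ℕ) - 1 + 1 < m + 1 := by omega
    simp only [h1, dif_pos]
    congr 1
    ext
    simp; omega

/-- the sum of an ideal with leading exponent `b` and `(x)` -/
lemma mem_sup_range (hϖ : Irreducible ϖ) {m b : ℕ} {M : Submodule A (Fin m → A)} {x : Fin m → A}
    (y : Fin (m + 1) → A) :
    y ∈ extS ϖ b M x ⊔ LinearMap.range (shift (m + 1) : (Fin (m + 1) → A) →ₗ[A] _) ↔
      ϖ ^ b ∣ y 0 := by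
  constructor
  · intro h
    obtain ⟨u, hu, w, ⟨w', rfl⟩, rfl⟩ := Submodule.mem_sup.mp h
    obtain ⟨⟨c, m'⟩, rfl⟩ := (EE A m).surjective u
    rw [mem_extS] at hu
    obtain ⟨d, hd, -⟩ := hu
    rw [Pi.add_apply, EE_zero]
    simp only at hd
    rw [hd]
    simp [shift_apply]
  · rintro ⟨c, hc⟩
    have h1 : EE A m (ϖ ^ b, x) ∈ extS ϖ b M x := by
      rw [mem_extS]; exact self_mem_extMod
    have h2 : (y - c • EE A m (ϖ ^ b, x)) 0 = 0 := by
      rw [Pi.sub_apply, Pi.smul_apply, EE_zero, hc, smul_eq_mul, mul_comm, sub_self]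
    obtain ⟨z, hz⟩ := mem_range_shift h2
    rw [Submodule.mem_sup]
    exact ⟨c • EE A m (ϖ ^ b, x), Submodule.smul_mem _ _ h1, _, ⟨z, hz⟩, by abel⟩

lemma card_quot_sup (hϖ : Irreducible ϖ) {m b : ℕ} {M : Submodule A (Fin m → A)} {x : Fin m → A} :
    Nat.card ((Fin (m + 1) → A) ⧸ (extS ϖ b M x ⊔
      LinearMap.range (shift (m + 1) : (Fin (m + 1) → A) →ₗ[A] _))) = rc A ^ b := by
  rw [← card_quot_pow hϖ b]
  let g : (Fin (m + 1) → A) →ₗ[A] (A ⧸ Ideal.span {ϖ ^ b}) :=
    (Ideal.span {ϖ ^ b}).mkQ ∘ₗ LinearMap.proj 0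
  have hg : Function.Surjective g :=
    (Submodule.mkQ_surjective _).comp (fun a => ⟨fun _ => a, rfl⟩)
  refine card_quot_of_surj g hg ?_
  ext y
  rw [mem_sup_range hϖ, LinearMap.mem_ker]
  simp only [g, LinearMap.comp_apply, LinearMap.proj_apply, Submodule.mkQ_apply]
  rw [Submodule.Quotient.mk_eq_zero, Ideal.mem_span_singleton]

theorem card_sol (hϖ : Irreducible ϖ) {m a b : ℕ} {M : Submodule A (Fin m → A)} {x : Fin m → A}
    (hst : Stable (extS ϖ b M x)) [Finite ((Fin (m + 1) → A) ⧸ extS ϖ b M x)] :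
    Nat.card (Sol ϖ a (extS ϖ b M x)) = if b ≤ a then rc A ^ b else 0 := by
  set I := extS ϖ b M x with hI
  let e : (Fin (m + 1) → A) ⧸ I := I.mkQ (ϖ ^ a • one' (m + 1))
  have hiff : ∀ y : (Fin (m + 1) → A) ⧸ I,
      (∃ x, I.mkQ x = y ∧ ϖ ^ a • one' (m + 1) + shift (m + 1) x ∈ I) ↔
        e + shiftQ I hst y = 0 := by
    intro y
    constructor
    · rintro ⟨z, rfl, hz⟩
      change I.mkQ _ + I.mkQ (shift (m + 1) z) = 0
      rw [← map_add, Submodule.mkQ_apply, Submodule.Quotient.mk_eq_zero]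
      exact hz
    · intro h
      obtain ⟨z, rfl⟩ := Submodule.mkQ_surjective I y
      refine ⟨z, rfl, ?_⟩
      change I.mkQ _ + I.mkQ (shift (m + 1) z) = 0 at h
      rw [← map_add, Submodule.mkQ_apply, Submodule.Quotient.mk_eq_zero] at h
      exact h
  have hcard : Nat.card (Sol ϖ a I) = Nat.card {y // e + shiftQ I hst y = 0} :=
    Nat.card_congr (Equiv.subtypeEquivRight hiff)
  rw [hcard]
  have hrange : ∀ z, I.mkQ z ∈ LinearMap.range (shiftQ I hst) ↔
      z ∈ I ⊔ LinearMap.range (shift (m + 1) : (Fin (m + 1) → A) →ₗ[A] _) := by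
    intro z
    constructor
    · rintro ⟨y, hy⟩
      obtain ⟨w, rfl⟩ := Submodule.mkQ_surjective I y
      change I.mkQ (shift (m + 1) w) = I.mkQ z at hy
      rw [Submodule.mkQ_apply, Submodule.mkQ_apply, Submodule.Quotient.eq] at hy
      rw [Submodule.mem_sup]
      exact ⟨-(shift (m + 1) w - z), I.neg_mem hy, shift (m + 1) w, ⟨w, rfl⟩, by abel⟩
    · intro hz
      obtain ⟨u, hu, _, ⟨w, rfl⟩, rfl⟩ := Submodule.mem_sup.mp hz
      refine ⟨I.mkQ w, ?_⟩
      change I.mkQ (shift (m + 1) w) = _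
      rw [map_add, Submodule.mkQ_apply _ u, (Submodule.Quotient.mk_eq_zero I).mpr hu, zero_add]
  by_cases hba : b ≤ a
  · rw [if_pos hba, card_affine]
    · rw [← card_quot_sup hϖ (M := M) (x := x) (b := b), ← hI]
      -- quotient of the quotient
      symm
      let g : (Fin (m + 1) → A) →ₗ[A] (((Fin (m + 1) → A) ⧸ I) ⧸ LinearMap.range (shiftQ I hst)) :=
        (LinearMap.range (shiftQ I hst)).mkQ ∘ₗ I.mkQ
      refine card_quot_of_surj g ((Submodule.mkQ_surjective _).comp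
        (Submodule.mkQ_surjective _)) ?_
      ext z
      rw [← hrange, LinearMap.mem_ker]
      simp only [g, LinearMap.comp_apply]
      rw [Submodule.mkQ_apply (LinearMap.range (shiftQ I hst)), Submodule.Quotient.mk_eq_zero]
    · rw [hrange, hI, mem_sup_range hϖ]
      simp only [Pi.smul_apply, one', smul_eq_mul]
      simpa using pow_dvd_pow ϖ hba
  · rw [if_neg hba]
    have : IsEmpty {y // e + shiftQ I hst y = 0} := by
      refine ⟨fun y => hba ?_⟩
      have h1 : e ∈ LinearMap.range (shiftQ I hst) := by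
        refine ⟨-y.1, ?_⟩
        rw [map_neg]
        exact (eq_neg_of_add_eq_zero_left y.2).symm
      rw [hrange, hI, mem_sup_range hϖ] at h1
      simp only [Pi.smul_apply, one', smul_eq_mul] at h1
      have h2 : ϖ ^ b ∣ ϖ ^ a := by simpa using h1
      exact (pow_dvd_pow' hϖ).mp h2
    exact Nat.card_of_isEmpty

end Pool.Agent.MP_f418a9_al.NF
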