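import Mathlib
import Pool.Agent.Work.MP_f418a9_al.NF.Shift

/-!
# The number of ideals of `A[x]/(x^n)` of given index
-/

open scoped BigOperators

noncomputable section

namespace Pool.Agent.MP_f418a9_al.NF

variable {A : Type*} [CommRing A] [IsDomain A] [IsDiscreteValuationRing A] {ϖ : A}

/-- the ideals of `A[x]/(x^n)` of index `q^k` -/
def IdlSet (A : Type*) [CommRing A] [IsDomain A] [IsDiscreteValuationRing A] (n k : ℕ) :
    Set (Submodule A (Fin n → A)) :=
  {I | Stable I ∧ Nat.card ((Fin n → A) ⧸ I) = rc A ^ k}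

/-- the ideals of `A[x]/(x^(n+1))` of index `q^k` with leading exponent `b` -/
def IdlLead (ϖ : A) (n b k : ℕ) : Set (Submodule A (Fin (n + 1) → A)) :=
  {I | Stable I ∧ Nat.card ((Fin (n + 1) → A) ⧸ I) = rc A ^ k ∧ ∃ M x, I = extS ϖ b M x}

variable [hfin : Finite (IsLocalRing.ResidueField A)]

lemma finite_quot_of_card {N : Type*} [AddCommGroup N] [Module A N] {M : Submodule A N} {k : ℕ}
    (h : Nat.card (N ⧸ M) = rc A ^ k) : Finite (N ⧸ M) := by
  apply Nat.finite_of_card_ne_zero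
  rw [h]
  exact pow_ne_zero _ (rc_pos (A := A)).ne'

lemma finite_of_mem {n k : ℕ} {I : Submodule A (Fin n → A)} (h : I ∈ IdlSet A n k) :
    Finite ((Fin n → A) ⧸ I) := finite_quot_of_card h.2

/-- the map from the pairs (lower ideal, class) to the ideals -/
def glue (ϖ : A) (n a k : ℕ) (y : Σ M : IdlSet A n (k - a), Sol ϖ a M.1) :
    Submodule A (Fin (n + 1) → A) :=
  extS ϖ a y.1.1 (Classical.choose y.2.2)

omit hfin in
lemma glue_mem (hϖ : Irreducible ϖ) {n a k : ℕ} (hak : a ≤ k)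
    (y : Σ M : IdlSet A n (k - a), Sol ϖ a M.1) : glue ϖ n a k y ∈ IdlLead ϖ n a k := by
  have h := Classical.choose_spec y.2.2
  refine ⟨?_, ?_, _, _, rfl⟩
  · rw [glue, stable_extS hϖ]
    exact ⟨y.1.2.1, h.2⟩
  · rw [glue, card_extS hϖ, y.1.2.2, ← pow_add]
    congr 1
    omega

omit hfin in
lemma glue_injective (hϖ : Irreducible ϖ) {n a k : ℕ} :
    Function.Injective (glue ϖ n a k) := by
  rintro ⟨⟨M, hM⟩, y⟩ ⟨⟨M', hM'⟩, y'⟩ h
  unfold glue at h
  rw [extS_inj hϖ] at h
  obtain ⟨-, h2, h3⟩ := h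
  simp only at h2
  subst h2
  have : y = y' := by
    apply Subtype.ext
    rw [← (Classical.choose_spec y.2).1, ← (Classical.choose_spec y'.2).1]
    rw [Submodule.mkQ_apply, Submodule.mkQ_apply, Submodule.Quotient.eq]
    exact h3
  rw [this]

lemma glue_surj (hϖ : Irreducible ϖ) {n a k : ℕ} {I : Submodule A (Fin (n + 1) → A)}
    (hI : I ∈ IdlLead ϖ n a k) : a ≤ k ∧ ∃ y, glue ϖ n a k y = I := by
  obtain ⟨h1, h2, M, x, rfl⟩ := hI
  rw [stable_extS hϖ] at h1
  rw [card_extS hϖ] at h2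
  have hq := one_lt_rc (A := A)
  have hpos : 0 < rc A := rc_pos
  have hak : a ≤ k := by
    by_contra hlt
    push Not at hlt
    have h3 : rc A ^ k < rc A ^ a := Nat.pow_lt_pow_right hq hlt
    have h4 : Nat.card ((Fin n → A) ⧸ M) ≠ 0 := by
      intro h0
      rw [h0, mul_zero] at h2
      exact (pow_pos hpos k).ne h2
    have h5 : rc A ^ a ≤ rc A ^ a * Nat.card ((Fin n → A) ⧸ M) :=
      Nat.le_mul_of_pos_right _ (Nat.pos_of_ne_zero h4)
    omega
  have hM : M ∈ IdlSet A n (k - a) := by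
    refine ⟨h1.1, ?_⟩
    have h3 : rc A ^ k = rc A ^ a * rc A ^ (k - a) := by rw [← pow_add]; congr 1; omega
    rw [h3] at h2
    exact Nat.eq_of_mul_eq_mul_left (pow_pos hpos a) h2
  refine ⟨hak, ⟨⟨M, hM⟩, ⟨M.mkQ x, x, rfl, h1.2⟩⟩, ?_⟩
  unfold glue
  rw [extS_inj hϖ]
  refine ⟨rfl, rfl, ?_⟩
  have h := (Classical.choose_spec
    (⟨M.mkQ x, x, rfl, h1.2⟩ : Sol ϖ a M).2).1
  exact (Submodule.Quotient.eq M).mp h

/-- ideals with leading exponent `a` correspond to pairs (lower ideal, class) -/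
def glueEquiv (hϖ : Irreducible ϖ) {n a k : ℕ} (hak : a ≤ k) :
    (Σ M : IdlSet A n (k - a), Sol ϖ a M.1) ≃ IdlLead ϖ n a k :=
  Equiv.ofBijective (fun y => ⟨glue ϖ n a k y, glue_mem hϖ hak y⟩)
    ⟨fun y y' h => glue_injective hϖ (congrArg Subtype.val h), fun I => by
      obtain ⟨-, y, hy⟩ := glue_surj hϖ I.2
      exact ⟨y, Subtype.ext hy⟩⟩

lemma idlLead_empty (hϖ : Irreducible ϖ) {n a k : ℕ} (hak : k < a) : IdlLead ϖ n a k = ∅ := by
  rw [Set.eq_empty_iff_forall_notMem]
  intro I hI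
  have := (glue_surj hϖ hI).1
  omega

lemma exists_lead (hϖ : Irreducible ϖ) {n k : ℕ} {I : Submodule A (Fin (n + 1) → A)}
    (hI : I ∈ IdlSet A (n + 1) k) : ∃ b, I ∈ IdlLead ϖ n b k := by
  have := finite_of_mem hI
  obtain ⟨a, M, x, h1, -⟩ := exists_extS hϖ I
  exact ⟨a, hI.1, hI.2, M, x, h1⟩

theorem finite_idlSet (hϖ : Irreducible ϖ) (n : ℕ) : ∀ k, (IdlSet A n k).Finite := by
  induction n with
  | zero =>
    intro k
    have : Subsingleton (Submodule A (Fin 0 → A)) := by
      refine ⟨fun S T => ?_⟩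
      ext x
      rw [Subsingleton.elim x 0]
      simp only [Submodule.zero_mem]
    exact Set.toFinite _
  | succ n ih =>
    intro k
    have hsub : IdlSet A (n + 1) k ⊆ ⋃ a ∈ Finset.range (k + 1), IdlLead ϖ n a k := by
      intro I hI
      obtain ⟨b, hb⟩ := exists_lead hϖ hI
      have := (glue_surj hϖ hb).1
      rw [Set.mem_iUnion₂]
      exact ⟨b, Finset.mem_range.mpr (by omega), hb⟩
    refine Set.Finite.subset ?_ hsub
    refine Set.Finite.biUnion (Finset.finite_toSet _) ?_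
    intro a ha
    have hak : a ≤ k := by
      have := Finset.mem_range.mp ha; omega
    have h1 : Finite (IdlSet A n (k - a)) := ih (k - a)
    have h2 : ∀ M : IdlSet A n (k - a), Finite (Sol ϖ a M.1) := by
      intro M
      have := finite_of_mem M.2
      infer_instance
    have h3 : Finite (Σ M : IdlSet A n (k - a), Sol ϖ a M.1) := inferInstance
    exact Finite.of_equiv _ (glueEquiv hϖ hak)

omit hfin in
lemma lead_unique (hϖ : Irreducible ϖ) {n b b' k : ℕ} {I : Submodule A (Fin (n + 1) → A)}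
    (h : I ∈ IdlLead ϖ n b k) (h' : I ∈ IdlLead ϖ n b' k) : b = b' := by
  obtain ⟨-, -, M, x, rfl⟩ := h
  obtain ⟨-, -, M', x', h'⟩ := h'
  exact ((extS_inj hϖ).mp h').1

/-- The recursion. -/
theorem card_idlLead_succ (hϖ : Irreducible ϖ) (m a k : ℕ) :
    Nat.card (IdlLead ϖ (m + 1) a k) = if a ≤ k then
      ∑ b ∈ Finset.range (a + 1), rc A ^ b * Nat.card (IdlLead ϖ m b (k - a)) else 0 := by
  classical
  by_cases hak : a ≤ k
  swap
  · rw [if_neg hak, idlLead_empty hϖ (by omega)]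
    simp
  rw [if_pos hak, ← Nat.card_congr (glueEquiv hϖ hak)]
  set j := k - a with hj
  have hfin1 : Finite (IdlSet A (m + 1) j) := finite_idlSet hϖ (m + 1) j
  have hfin2 : ∀ M : IdlSet A (m + 1) j, Finite (Sol ϖ a M.1) := by
    intro M
    have := finite_of_mem M.2
    infer_instance
  letI : Fintype (IdlSet A (m + 1) j) := Fintype.ofFinite _
  rw [Nat.card_sigma]
  choose le hle using fun M : IdlSet A (m + 1) j => exists_lead hϖ M.2
  have hsol : ∀ M : IdlSet A (m + 1) j, Nat.card (Sol ϖ a M.1) =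
      if le M ≤ a then rc A ^ (le M) else 0 := by
    intro M
    obtain ⟨h1, h2, M', x, h3⟩ := hle M
    have hf := finite_of_mem M.2
    rw [h3] at h1 hf ⊢
    exact card_sol hϖ h1
  rw [Finset.sum_congr rfl fun M _ => hsol M]
  have hmaps : ∀ M ∈ (Finset.univ : Finset (IdlSet A (m + 1) j)), le M ∈ Finset.range (j + 1) := by
    intro M _
    have := (glue_surj hϖ (hle M)).1
    exact Finset.mem_range.mpr (by omega)
  rw [← Finset.sum_fiberwise_of_maps_to hmaps]
  have hfib : ∀ b, Nat.card (IdlLead ϖ m b j) =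
      (Finset.univ.filter fun M : IdlSet A (m + 1) j => le M = b).card := by
    intro b
    rw [← Fintype.card_subtype, ← Nat.card_eq_fintype_card]
    refine Nat.card_congr ⟨fun I => ⟨⟨I.1, I.2.1, I.2.2.1⟩, ?_⟩, fun M => ⟨M.1.1, ?_⟩, ?_, ?_⟩
    · exact lead_unique hϖ (hle _) I.2
    · have := hle M.1
      rw [M.2] at this
      exact this
    · intro I; rfl
    · intro M; rfl
  have h1 : ∀ b ∈ Finset.range (j + 1),
      ∑ M ∈ Finset.univ.filter (fun M : IdlSet A (m + 1) j => le M = b),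
        (if le M ≤ a then rc A ^ (le M) else 0) =
      if b ≤ a then rc A ^ b * Nat.card (IdlLead ϖ m b j) else 0 := by
    intro b _
    rw [Finset.sum_congr rfl (g := fun _ => if b ≤ a then rc A ^ b else 0), Finset.sum_const, hfib,
      smul_eq_mul]
    · split_ifs
      · ring
      · simp
    · intro M hM
      rw [(Finset.mem_filter.mp hM).2]
  rw [Finset.sum_congr rfl h1]
  have h2 : ∀ b, j < b → Nat.card (IdlLead ϖ m b j) = 0 := by
    intro b hb
    rw [idlLead_empty hϖ hb]; simp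
  -- compare the ranges
  have e1 : ∑ b ∈ Finset.range (j + 1),
      (if b ≤ a then rc A ^ b * Nat.card (IdlLead ϖ m b j) else 0) =
      ∑ b ∈ Finset.range (a + j + 1),
      (if b ≤ a then rc A ^ b * Nat.card (IdlLead ϖ m b j) else 0) := by
    refine Finset.sum_subset (Finset.range_mono (by omega)) ?_
    intro b _ hb
    rw [Finset.mem_range] at hb
    rw [h2 b (by omega)]; simp
  have e2 : ∑ b ∈ Finset.range (a + 1), rc A ^ b * Nat.card (IdlLead ϖ m b j) =
      ∑ b ∈ Finset.range (a + j + 1),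
      (if b ≤ a then rc A ^ b * Nat.card (IdlLead ϖ m b j) else 0) := by
    rw [← Finset.sum_filter]
    refine Finset.sum_congr ?_ fun _ _ => rfl
    ext b
    simp only [Finset.mem_range, Finset.mem_filter]
    omega
  rw [e1, e2]

theorem card_idlLead_zero (hϖ : Irreducible ϖ) (a k : ℕ) :
    Nat.card (IdlLead ϖ 0 a k) = if a = k then 1 else 0 := by
  classical
  by_cases hak : a ≤ k
  swap
  · rw [if_neg (by omega), idlLead_empty hϖ (by omega)]
    simp
  rw [← Nat.card_congr (glueEquiv hϖ hak)]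
  have hq := one_lt_rc (A := A)
  have hsub : Subsingleton (Submodule A (Fin 0 → A)) := by
    refine ⟨fun S T => ?_⟩
    ext x
    rw [Subsingleton.elim x 0]
    simp only [Submodule.zero_mem]
  by_cases h : a = k
  · rw [if_pos h]
    subst h
    have hcard : ∀ M : Submodule A (Fin 0 → A), Nat.card ((Fin 0 → A) ⧸ M) = 1 := by
      intro M
      have : Subsingleton ((Fin 0 → A) ⧸ M) :=
        (Submodule.mkQ_surjective M).subsingleton
      exact Nat.card_unique
    rw [Nat.card_eq_one_iff_unique]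
    constructor
    · refine ⟨?_⟩
      rintro ⟨M, y⟩ ⟨M', y'⟩
      have hM : M = M' := Subtype.ext (Subsingleton.elim _ _)
      subst hM
      have : Subsingleton ((Fin 0 → A) ⧸ M.1) :=
        (Submodule.mkQ_surjective M.1).subsingleton
      have hy : y = y' := Subtype.ext (Subsingleton.elim _ _)
      rw [hy]
    · refine ⟨⟨⟨⊤, fun _ _ => Submodule.mem_top, ?_⟩, ⟨0, 0, rfl, Submodule.mem_top⟩⟩⟩
      rw [hcard, Nat.sub_self, pow_zero]
  · rw [if_neg h]
    have : IsEmpty (IdlSet A 0 (k - a)) := by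
      refine ⟨fun M => ?_⟩
      have h1 := M.2.2
      have : Subsingleton ((Fin 0 → A) ⧸ M.1) :=
        (Submodule.mkQ_surjective M.1).subsingleton
      rw [Nat.card_unique] at h1
      have h2 : 1 < rc A ^ (k - a) := Nat.one_lt_pow (by omega) hq
      omega
    exact Nat.card_of_isEmpty

/-- The number of ideals of given index. -/
theorem card_idlSet (hϖ : Irreducible ϖ) (n k : ℕ) :
    Nat.card (IdlSet A (n + 1) k) = ∑ b ∈ Finset.range (k + 1), Nat.card (IdlLead ϖ n b k) := by
  classical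
  have hfin1 : Finite (IdlSet A (n + 1) k) := finite_idlSet hϖ (n + 1) k
  letI : Fintype (IdlSet A (n + 1) k) := Fintype.ofFinite _
  choose le hle using fun M : IdlSet A (n + 1) k => exists_lead hϖ M.2
  have hfib : ∀ b, Nat.card (IdlLead ϖ n b k) =
      (Finset.univ.filter fun M : IdlSet A (n + 1) k => le M = b).card := by
    intro b
    rw [← Fintype.card_subtype, ← Nat.card_eq_fintype_card]
    refine Nat.card_congr ⟨fun I => ⟨⟨I.1, I.2.1, I.2.2.1⟩, ?_⟩, fun M => ⟨M.1.1, ?_⟩, ?_, ?_⟩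
    · exact lead_unique hϖ (hle _) I.2
    · have := hle M.1
      rw [M.2] at this
      exact this
    · intro I; rfl
    · intro M; rfl
  rw [Finset.sum_congr rfl fun b _ => hfib b, Nat.card_eq_fintype_card, ← Finset.card_univ]
  refine Finset.card_eq_sum_card_fiberwise ?_
  intro M _
  have := (glue_surj hϖ (hle M)).1
  exact Finset.mem_coe.mpr (Finset.mem_range.mpr (by omega))

end Pool.Agent.MP_f418a9_al.NF
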