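import Mathlib
import Pool.Agent.Work.MP_f418a9_al.NF.Count

/-!
# The generating function of the number of ideals of `A[x]/(x^n)`
-/

open scoped BigOperators

noncomputable section

namespace Pool.Agent.MP_f418a9_al.NF

/-- the numbers of ideals with given leading exponent and index -/
def U (q : ℕ) : ℕ → ℕ → ℕ → ℕ
  | 0, b, k => if b = 0 ∧ k = 0 then 1 else 0
  | n + 1, a, k => if a ≤ k then ∑ b ∈ Finset.range (a + 1), q ^ b * U q n b (k - a) else 0

lemma U_zero (q b k : ℕ) : U q 0 b k = if b = 0 ∧ k = 0 then 1 else 0 := rfl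

lemma U_succ (q n a k : ℕ) : U q (n + 1) a k =
    if a ≤ k then ∑ b ∈ Finset.range (a + 1), q ^ b * U q n b (k - a) else 0 := rfl

/-- the coefficients of the generating function in the variable `Y`, with `X = q^j Y^j` -/
def V (q n j m : ℕ) : ℤ :=
  ∑ b ∈ Finset.range (m + 1), if j * b ≤ m then (q : ℤ) ^ (j * b) * (U q n b (m - j * b) : ℤ) else 0

lemma V_zero (q j m : ℕ) : V q 0 j m = if m = 0 then 1 else 0 := by
  unfold V
  rw [Finset.sum_eq_single_of_mem 0 (Finset.mem_range.mpr (by omega))]
  · simp [U_zero]
  · intro b _ hb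
    rw [U_zero, if_neg (fun h : b = 0 ∧ m - j * b = 0 => hb h.1)]
    simp

/-- `V (n+1) j` satisfies a first-order recursion -/
lemma V_succ (q n j m : ℕ) :
    V q (n + 1) j m = V q n (j + 1) m +
      if j + 1 ≤ m then (q : ℤ) ^ j * V q (n + 1) j (m - (j + 1)) else 0 := by
  -- the partial sums
  let T : ℕ → ℕ → ℤ := fun a r =>
    if (j + 1) * a ≤ m then (q : ℤ) ^ (j * a) *
      ∑ b ∈ Finset.range r, (q : ℤ) ^ b * (U q n b (m - (j + 1) * a) : ℤ) else 0
  have h1 : V q (n + 1) j m = ∑ a ∈ Finset.range (m + 1), T a (a + 1) := by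
    unfold V
    refine Finset.sum_congr rfl fun a _ => ?_
    simp only [T]
    have e : (j + 1) * a = j * a + a := by ring
    by_cases h : (j + 1) * a ≤ m
    · have h2 : j * a ≤ m := by omega
      have h3 : a ≤ m - j * a := by omega
      rw [if_pos h, if_pos h2, U_succ, if_pos h3]
      push_cast
      have h4 : m - (j + 1) * a = m - j * a - a := by omega
      rw [h4]
    · rw [if_neg h]
      by_cases h2 : j * a ≤ m
      · have h3 : ¬ a ≤ m - j * a := by omega
        rw [if_pos h2, U_succ, if_neg h3]
        simp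
      · rw [if_neg h2]
  have h2 : ∑ a ∈ Finset.range (m + 1), T a (a + 1) =
      ∑ a ∈ Finset.range (m + 1), T a a + V q n (j + 1) m := by
    unfold V
    rw [← Finset.sum_add_distrib]
    refine Finset.sum_congr rfl fun a _ => ?_
    simp only [T]
    by_cases h : (j + 1) * a ≤ m
    · rw [if_pos h, if_pos h, if_pos h, Finset.sum_range_succ, mul_add, ← mul_assoc, ← pow_add]
      have e : (j + 1) * a = j * a + a := by ring
      rw [e]
    · rw [if_neg h, if_neg h, if_neg h, add_zero]
  have h3 : ∑ a ∈ Finset.range (m + 1), T a a =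
      if j + 1 ≤ m then (q : ℤ) ^ j * V q (n + 1) j (m - (j + 1)) else 0 := by
    rw [Finset.sum_range_succ']
    have h0 : T 0 0 = 0 := by simp [T]
    rw [h0, add_zero]
    by_cases hj : j + 1 ≤ m
    · rw [if_pos hj]
      unfold V
      rw [Finset.mul_sum]
      have hsub : Finset.range (m - (j + 1) + 1) ⊆ Finset.range m := by
        intro x hx
        rw [Finset.mem_range] at *
        omega
      rw [← Finset.sum_subset hsub]
      · refine Finset.sum_congr rfl fun a _ => ?_
        simp only [T]
        have e : (j + 1) * (a + 1) = j * a + a + j + 1 := by ring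
        have e' : j * (a + 1) = j + j * a := by ring
        by_cases h : (j + 1) * (a + 1) ≤ m
        · have h4 : j * a ≤ m - (j + 1) := by omega
          have h5 : a ≤ m - (j + 1) - j * a := by omega
          rw [if_pos h, if_pos h4, U_succ, if_pos h5, e', pow_add, mul_assoc]
          have h6 : m - (j + 1) * (a + 1) = m - (j + 1) - j * a - a := by omega
          rw [h6]
          push_cast
          ring
        · rw [if_neg h]
          by_cases h4 : j * a ≤ m - (j + 1)
          · have h5 : ¬ a ≤ m - (j + 1) - j * a := by omega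
            rw [if_pos h4, U_succ, if_neg h5]
            simp
          · rw [if_neg h4, mul_zero]
      · intro a ha ha'
        rw [Finset.mem_range] at ha ha'
        simp only [T]
        rw [if_neg]
        have e : (j + 1) * (a + 1) = j * a + a + j + 1 := by ring
        have : 0 ≤ j * a := Nat.zero_le _
        omega
    · rw [if_neg hj]
      refine Finset.sum_eq_zero fun a _ => ?_
      simp only [T]
      rw [if_neg]
      have e : (j + 1) * (a + 1) = j * a + a + j + 1 := by ring
      have : 0 ≤ j * a := Nat.zero_le _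
      omega
  rw [h1, h2, h3, add_comm]

/-- The generating function. -/
def VS (q n j : ℕ) : PowerSeries ℤ := PowerSeries.mk (V q n j)

lemma VS_zero (q j : ℕ) : VS q 0 j = 1 := by
  ext m
  rw [VS, PowerSeries.coeff_mk, V_zero, PowerSeries.coeff_one]

/-- the `i`-th factor -/
def fac (q i : ℕ) : PowerSeries ℤ := 1 - PowerSeries.C ((q : ℤ) ^ i) * PowerSeries.X ^ (i + 1)

lemma VS_succ (q n j : ℕ) : VS q (n + 1) j * fac q j = VS q n (j + 1) := by
  have h : VS q (n + 1) j = VS q n (j + 1) +
      PowerSeries.C ((q : ℤ) ^ j) * (PowerSeries.X ^ (j + 1) * VS q (n + 1) j) := by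
    ext m
    rw [map_add, PowerSeries.coeff_C_mul, PowerSeries.coeff_X_pow_mul', VS, VS,
      PowerSeries.coeff_mk, PowerSeries.coeff_mk, V_succ]
    congr 1
    split_ifs
    · rw [PowerSeries.coeff_mk]
    · simp
  unfold fac
  rw [mul_sub, mul_one]
  nth_rewrite 1 [h]
  ring

theorem VS_mul_prod (q n j : ℕ) : VS q n j * ∏ i ∈ Finset.range n, fac q (j + i) = 1 := by
  induction n generalizing j with
  | zero => simp [VS_zero]
  | succ n ih =>
    rw [Finset.prod_range_succ', add_zero, mul_comm (∏ i ∈ _, _), ← mul_assoc, VS_succ]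
    have := ih (j + 1)
    rw [← this]
    congr 1
    refine Finset.prod_congr rfl fun i _ => ?_
    congr 1
    ring

section

variable {A : Type*} [CommRing A] [IsDomain A] [IsDiscreteValuationRing A] {ϖ : A}
  [hfin : Finite (IsLocalRing.ResidueField A)]

theorem card_idlLead_eq_U (hϖ : Irreducible ϖ) (n a k : ℕ) :
    Nat.card (IdlLead ϖ n a k) = U (rc A) (n + 1) a k := by
  induction n generalizing a k with
  | zero =>
    rw [card_idlLead_zero hϖ, U_succ]
    by_cases h : a ≤ k
    · rw [if_pos h, Finset.sum_eq_single_of_mem 0 (Finset.mem_range.mpr (by omega))]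
      · rw [U_zero]
        by_cases h2 : a = k
        · subst h2; simp
        · rw [if_neg h2, if_neg (by omega)]; simp
      · intro b _ hb
        rw [U_zero, if_neg (by simp [hb])]; simp
    · rw [if_neg h, if_neg (by omega)]
  | succ n ih =>
    rw [card_idlLead_succ hϖ, U_succ]
    split_ifs
    · exact Finset.sum_congr rfl fun b _ => by rw [ih]
    · rfl

theorem card_idlSet_eq_V (hϖ : Irreducible ϖ) (n k : ℕ) :
    (Nat.card (IdlSet A (n + 1) k) : ℤ) = V (rc A) (n + 1) 0 k := by
  rw [card_idlSet hϖ, V]
  push_cast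
  refine Finset.sum_congr rfl fun b _ => ?_
  rw [card_idlLead_eq_U hϖ]
  simp

/-- Generating function of the number of ideals of `A[x]/(x^(n+1))`. -/
theorem genfun_idlSet (hϖ : Irreducible ϖ) (n : ℕ) :
    (PowerSeries.mk fun k => (Nat.card (IdlSet A (n + 1) k) : ℤ)) *
      ∏ i ∈ Finset.range (n + 1), fac (rc A) i = 1 := by
  have h := VS_mul_prod (rc A) (n + 1) 0
  simp only [zero_add] at h
  rw [← h]
  congr 1
  ext k
  rw [PowerSeries.coeff_mk, VS, PowerSeries.coeff_mk, card_idlSet_eq_V hϖ]

end

end Pool.Agent.MP_f418a9_al.NF
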