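import Mathlib
import Pool.Agent.Work.MP_f418a9_al.NF.GenFun

/-!
# The Lie algebra `g ⊗ A[x]/(x^8)`, `g = ⟨h, e, f⟩`, `[h,e] = e`, `[h,f] = -f`, `[e,f] = h`
-/

open scoped BigOperators

noncomputable section

namespace Pool.Agent.MP_f418a9_al.NF

/-! ### Truncated convolution -/

section conv

variable {A : Type*} [CommRing A] {n : ℕ}

/-- multiplication of `A[x]/(x^n) = A^n` -/
def conv (u v : Fin n → A) : Fin n → A :=
  fun k => ∑ i : Fin n, ∑ j : Fin n, if (i : ℕ) + j = k then u i * v j else 0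

/-- reduction modulo `x^n` -/
def red (n : ℕ) (f : PowerSeries A) : Fin n → A := fun k => PowerSeries.coeff (k : ℕ) f

lemma red_apply (f : PowerSeries A) (k : Fin n) : red n f k = PowerSeries.coeff (k : ℕ) f := rfl

lemma red_surj (u : Fin n → A) : ∃ f, red n f = u := by
  refine ⟨PowerSeries.mk fun k => if h : k < n then u ⟨k, h⟩ else 0, ?_⟩
  ext k
  rw [red_apply, PowerSeries.coeff_mk, dif_pos k.2]

lemma red_add (f g : PowerSeries A) : red n (f + g) = red n f + red n g := by
  ext k; simp [red]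

lemma red_sub (f g : PowerSeries A) : red n (f - g) = red n f - red n g := by
  ext k; simp [red]

lemma red_zero : red n (0 : PowerSeries A) = 0 := by
  ext k; simp [red]

lemma red_mul (f g : PowerSeries A) : red n (f * g) = conv (red n f) (red n g) := by
  ext k
  rw [red_apply, PowerSeries.coeff_mul]
  unfold conv
  rw [← Finset.sum_product', ← Finset.sum_filter]
  refine Finset.sum_bij' (fun p hp => (⟨p.1, ?_⟩, ⟨p.2, ?_⟩)) (fun p _ => ((p.1 : ℕ), (p.2 : ℕ)))
    ?_ ?_ ?_ ?_ ?_
  · have := Finset.HasAntidiagonal.mem_antidiagonal.mp hp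
    have := k.2
    omega
  · have := Finset.HasAntidiagonal.mem_antidiagonal.mp hp
    have := k.2
    omega
  · intro p hp
    have := Finset.HasAntidiagonal.mem_antidiagonal.mp hp
    simpa using this
  · intro p hp
    simp only [Finset.mem_filter] at hp
    exact Finset.HasAntidiagonal.mem_antidiagonal.mpr hp.2
  · intro p hp
    rfl
  · intro p hp
    rfl
  · intro p hp
    rfl

lemma conv_comm (u v : Fin n → A) : conv u v = conv v u := by
  obtain ⟨f, rfl⟩ := red_surj u
  obtain ⟨g, rfl⟩ := red_surj v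
  rw [← red_mul, ← red_mul, mul_comm]

lemma red_X_mul (f : PowerSeries A) : red n (PowerSeries.X * f) = shift n (red n f) := by
  ext k
  rw [red_apply, shift_apply]
  by_cases h : (k : ℕ) = 0
  · rw [if_pos h, h]
    simp
  · rw [if_neg h]
    have hk : (k : ℕ) = ((k : ℕ) - 1) + 1 := by omega
    rw [red_apply]
    conv_lhs => rw [hk]
    rw [PowerSeries.coeff_succ_X_mul]

lemma red_one : red n (1 : PowerSeries A) = one' n := by
  ext k
  rw [red_apply, PowerSeries.coeff_one]
  rfl

lemma conv_one' (u : Fin n → A) : conv u (one' n) = u := by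
  obtain ⟨f, rfl⟩ := red_surj u
  rw [← red_one, ← red_mul, mul_one]

lemma conv_X (u : Fin n → A) : conv u (shift n (one' n)) = shift n u := by
  obtain ⟨f, rfl⟩ := red_surj u
  rw [← red_one, ← red_X_mul, ← red_mul, ← red_X_mul, mul_one, mul_comm]

lemma conv_zero (u : Fin n → A) : conv u 0 = 0 := by
  ext k; simp [conv]

lemma zero_conv (u : Fin n → A) : conv 0 u = 0 := by
  ext k; simp [conv]

lemma conv_mem_of_stable {I : Submodule A (Fin n → A)} (hI : Stable I) {u : Fin n → A}
    (hu : u ∈ I) (v : Fin n → A) : conv u v ∈ I := by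
  -- `v` is a combination of the `shift^j 1`
  obtain ⟨g, rfl⟩ := red_surj v
  obtain ⟨f, rfl⟩ := red_surj u
  rw [← red_mul]
  have hX : ∀ j : ℕ, ∀ f : PowerSeries A, red n f ∈ I → red n (PowerSeries.X ^ j * f) ∈ I := by
    intro j
    induction j with
    | zero => intro f hf; simpa using hf
    | succ j ih =>
      intro f hf
      rw [pow_succ', mul_assoc, red_X_mul]
      exact hI _ (ih f hf)
  have hsum : red n (f * g) =
      ∑ j ∈ Finset.range n, PowerSeries.coeff j g • red n (PowerSeries.X ^ j * f) := by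
    ext k
    rw [Finset.sum_apply, red_apply, mul_comm, PowerSeries.coeff_mul,
      Finset.Nat.sum_antidiagonal_eq_sum_range_succ_mk]
    have hsub : Finset.range ((k : ℕ).succ) ⊆ Finset.range n := by
      intro j hj
      rw [Finset.mem_range] at *
      have := k.2
      omega
    rw [← Finset.sum_subset hsub]
    · refine Finset.sum_congr rfl fun j hj => ?_
      rw [Finset.mem_range] at hj
      rw [Pi.smul_apply, red_apply, PowerSeries.coeff_X_pow_mul', if_pos (by omega), smul_eq_mul]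
    · intro j _ hj
      rw [Finset.mem_range] at hj
      rw [Pi.smul_apply, red_apply, PowerSeries.coeff_X_pow_mul', if_neg (by omega), smul_zero]
  rw [hsum]
  exact Submodule.sum_mem _ fun j _ => Submodule.smul_mem _ _ (hX j f hu)

end conv

/-! ### The Lie algebra -/

/-- The structure constants of `g = ⟨h, e, f⟩`: `[h,e] = e`, `[h,f] = -f`, `[e,f] = h`. -/
def gam (a b c : Fin 3) : ℤ :=
  if a = 0 ∧ b = 1 ∧ c = 1 then 1
  else if a = 1 ∧ b = 0 ∧ c = 1 then -1
  else if a = 0 ∧ b = 2 ∧ c = 2 then -1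
  else if a = 2 ∧ b = 0 ∧ c = 2 then 1
  else if a = 1 ∧ b = 2 ∧ c = 0 then 1
  else if a = 2 ∧ b = 1 ∧ c = 0 then -1
  else 0

/-- The structure constants of `g ⊗ ℤ[x]/(x^8)` in the basis `g_a x^i`, where `(a, i)` is the index
`8 a + i`. -/
def sc (r s t : Fin 24) : ℤ :=
  if (r.modNat (m := 3) (n := 8) : ℕ) + (s.modNat (m := 3) (n := 8) : ℕ) =
      (t.modNat (m := 3) (n := 8) : ℕ) then
    gam (r.divNat (m := 3) (n := 8)) (s.divNat (m := 3) (n := 8)) (t.divNat (m := 3) (n := 8))
  else 0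

section lie

variable {A : Type*} [CommRing A]

/-- the bracket of `g ⊗ A[x]/(x^8)` -/
def gmul (x y : Fin 24 → A) : Fin 24 → A := fun k => ∑ i, ∑ j, ((sc i j k : ℤ) : A) * (x i * y j)

/-- coordinates: `A^24 = (A^8)^3` -/
def DD (A : Type*) [CommRing A] : (Fin 24 → A) ≃ₗ[A] (Fin 3 → Fin 8 → A) :=
  (LinearEquiv.funCongrLeft A A (finProdFinEquiv (m := 3) (n := 8))).trans
    (LinearEquiv.curry A A (Fin 3) (Fin 8))

lemma DD_apply (x : Fin 24 → A) (a : Fin 3) (i : Fin 8) :
    DD A x a i = x (finProdFinEquiv (a, i)) := rfl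

/-- the bracket in coordinates -/
def brk (x y : Fin 3 → Fin 8 → A) : Fin 3 → Fin 8 → A :=
  ![conv (x 1) (y 2) - conv (x 2) (y 1), conv (x 0) (y 1) - conv (x 1) (y 0),
    conv (x 2) (y 0) - conv (x 0) (y 2)]

lemma sc_pair (a b c : Fin 3) (i j k : Fin 8) :
    sc (finProdFinEquiv (a, i)) (finProdFinEquiv (b, j)) (finProdFinEquiv (c, k)) =
      if (i : ℕ) + j = k then gam a b c else 0 := by
  have h : ∀ (a : Fin 3) (i : Fin 8),
      ((finProdFinEquiv (a, i)).divNat (m := 3) (n := 8), (finProdFinEquiv (a, i)).modNat (m := 3)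
        (n := 8)) = (a, i) := fun a i => finProdFinEquiv.symm_apply_apply (a, i)
  have h1 : ∀ (a : Fin 3) (i : Fin 8), (finProdFinEquiv (a, i)).divNat (m := 3) (n := 8) = a :=
    fun a i => congrArg Prod.fst (h a i)
  have h2 : ∀ (a : Fin 3) (i : Fin 8), (finProdFinEquiv (a, i)).modNat (m := 3) (n := 8) = i :=
    fun a i => congrArg Prod.snd (h a i)
  unfold sc
  rw [h1, h1, h1, h2, h2, h2]

lemma sum24 (F : Fin 24 → A) :
    ∑ i, F i = ∑ a : Fin 3, ∑ i : Fin 8, F (finProdFinEquiv (a, i)) := by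
  rw [← Fintype.sum_prod_type' (fun (a : Fin 3) (i : Fin 8) => F (finProdFinEquiv (a, i)))]
  exact ((finProdFinEquiv (m := 3) (n := 8)).sum_comp F).symm

lemma DD_gmul (x y : Fin 24 → A) : DD A (gmul x y) = brk (DD A x) (DD A y) := by
  have key : ∀ (c : Fin 3) (k : Fin 8), DD A (gmul x y) c k =
      ∑ a : Fin 3, ∑ b : Fin 3, (gam a b c : A) * conv (DD A x a) (DD A y b) k := by
    intro c k
    rw [DD_apply]
    unfold gmul
    rw [sum24]
    refine Finset.sum_congr rfl fun a _ => ?_
    have h1 : ∀ i : Fin 8, ∑ j : Fin 24, ((sc (finProdFinEquiv (a, i)) j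
        (finProdFinEquiv (c, k)) : ℤ) : A) * (x (finProdFinEquiv (a, i)) * y j) =
        ∑ b : Fin 3, ∑ j : Fin 8, (gam a b c : A) *
          (if (i : ℕ) + j = k then DD A x a i * DD A y b j else 0) := by
      intro i
      rw [sum24]
      refine Finset.sum_congr rfl fun b _ => Finset.sum_congr rfl fun j _ => ?_
      rw [sc_pair, DD_apply, DD_apply]
      split_ifs <;> simp
    rw [Finset.sum_congr rfl fun i _ => h1 i, Finset.sum_comm]
    refine Finset.sum_congr rfl fun b _ => ?_
    unfold conv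
    rw [Finset.mul_sum]
    refine Finset.sum_congr rfl fun i _ => ?_
    rw [Finset.mul_sum]
  ext c k
  rw [key]
  fin_cases c <;> simp [Fin.sum_univ_three, gam, brk] <;> ring

/-- `A^24` with `gmul` is a Lie algebra -/
lemma gmul_self (x : Fin 24 → A) : gmul x x = 0 := by
  apply (DD A).injective
  rw [DD_gmul, map_zero]
  ext c k
  fin_cases c
  · simp [brk, conv_comm (DD A x 1)]
  · simp [brk, conv_comm (DD A x 1)]
  · simp [brk, conv_comm (DD A x 2)]

/-- the bracket of triples of power series -/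
def brkPS (f g : Fin 3 → PowerSeries A) : Fin 3 → PowerSeries A :=
  ![f 1 * g 2 - f 2 * g 1, f 0 * g 1 - f 1 * g 0, f 2 * g 0 - f 0 * g 2]

lemma brk_red (f g : Fin 3 → PowerSeries A) :
    brk (fun a => red 8 (f a)) (fun a => red 8 (g a)) = fun a => red 8 (brkPS f g a) := by
  ext c k
  fin_cases c <;> simp [brk, brkPS, red_sub, red_mul]

lemma gmul_jacobi (x y z : Fin 24 → A) :
    gmul x (gmul y z) + gmul y (gmul z x) + gmul z (gmul x y) = 0 := by
  apply (DD A).injective
  rw [map_add, map_add, map_zero]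
  simp only [DD_gmul]
  generalize DD A x = x
  generalize DD A y = y
  generalize DD A z = z
  choose f hf using fun a => red_surj (x a)
  choose g hg using fun a => red_surj (y a)
  choose h hh using fun a => red_surj (z a)
  have hx : x = fun a => red 8 (f a) := funext fun a => (hf a).symm
  have hy : y = fun a => red 8 (g a) := funext fun a => (hg a).symm
  have hz : z = fun a => red 8 (h a) := funext fun a => (hh a).symm
  rw [hx, hy, hz]
  simp only [brk_red]
  have key : ∀ a, brkPS f (brkPS g h) a + brkPS g (brkPS h f) a + brkPS h (brkPS f g) a = 0 := by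
    intro a
    fin_cases a <;> simp [brkPS] <;> ring
  ext c k
  have := congrArg (fun F => red 8 F k) (key c)
  simp only [red_add, red_zero] at this
  exact this

/-! ### Ideals -/

/-- the ideal `g ⊗ I` -/
def lam (I : Submodule A (Fin 8 → A)) : Submodule A (Fin 24 → A) :=
  (Submodule.pi Set.univ fun _ : Fin 3 => I).comap (DD A : (Fin 24 → A) →ₗ[A] _)

lemma mem_lam {I : Submodule A (Fin 8 → A)} {x : Fin 24 → A} :
    x ∈ lam I ↔ ∀ a, DD A x a ∈ I := by
  unfold lam
  rw [Submodule.mem_comap, Submodule.mem_pi]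
  simp

/-- embedding of the `a`-th coordinate -/
def inc (a : Fin 3) (u : Fin 8 → A) : Fin 24 → A := (DD A).symm (Pi.single a u)

lemma DD_inc (a : Fin 3) (u : Fin 8 → A) : DD A (inc a u) = Pi.single a u :=
  (DD A).apply_symm_apply _

lemma lam_injective : Function.Injective (lam (A := A)) := by
  have h : ∀ (I J : Submodule A (Fin 8 → A)), lam I = lam J → I ≤ J := by
    intro I J h u hu
    have h1 : inc 0 u ∈ lam I := by
      rw [mem_lam, DD_inc]
      intro a
      by_cases ha : a = 0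
      · subst ha; simpa using hu
      · rw [Pi.single_eq_of_ne ha]; exact I.zero_mem
    rw [h, mem_lam, DD_inc] at h1
    simpa using h1 0
  intro I J hIJ
  exact le_antisymm (h I J hIJ) (h J I hIJ.symm)

/-- `Λ` is an ideal of the Lie algebra -/
def IsIdl (Λ : Submodule A (Fin 24 → A)) : Prop := ∀ x ∈ Λ, ∀ y, gmul x y ∈ Λ ∧ gmul y x ∈ Λ

theorem isIdl_iff (Λ : Submodule A (Fin 24 → A)) : IsIdl Λ ↔ ∃ I, Stable I ∧ Λ = lam I := by
  constructor
  · intro hΛ
    -- coordinates of elements of `Λ`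
    let Λ' : Submodule A (Fin 3 → Fin 8 → A) := Λ.map (DD A : (Fin 24 → A) →ₗ[A] _)
    have hmem : ∀ x, x ∈ Λ ↔ DD A x ∈ Λ' := by
      intro x
      constructor
      · intro h; exact ⟨x, h, rfl⟩
      · rintro ⟨y, hy, he⟩
        have := (DD A).injective he
        exact this ▸ hy
    have hbr : ∀ x ∈ Λ', ∀ y, brk x y ∈ Λ' := by
      intro x hx y
      obtain ⟨x, rfl⟩ := (DD A).surjective x
      obtain ⟨y, rfl⟩ := (DD A).surjective y
      rw [← DD_gmul, ← hmem]
      exact (hΛ x ((hmem x).mpr hx) y).1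
    have e1 : ∀ (u : Fin 8 → A), (![u, 0, 0] : Fin 3 → Fin 8 → A) ∈ Λ' → ![0, u, 0] ∈ Λ' := by
      intro u hu
      have := hbr _ hu ![0, one' 8, 0]
      simpa [brk, conv_one', conv_zero, zero_conv] using this
    have e2 : ∀ (u : Fin 8 → A), (![u, 0, 0] : Fin 3 → Fin 8 → A) ∈ Λ' → ![0, 0, u] ∈ Λ' := by
      intro u hu
      have := Λ'.neg_mem (hbr _ hu ![0, 0, one' 8])
      simpa [brk, conv_one', conv_zero, zero_conv] using this
    have e3 : ∀ (u : Fin 8 → A), (![0, u, 0] : Fin 3 → Fin 8 → A) ∈ Λ' → ![u, 0, 0] ∈ Λ' := by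
      intro u hu
      have := hbr _ hu ![0, 0, one' 8]
      simpa [brk, conv_one', conv_zero, zero_conv] using this
    have e4 : ∀ x : Fin 3 → Fin 8 → A, x ∈ Λ' → (![0, x 1, x 2] : Fin 3 → Fin 8 → A) ∈ Λ' := by
      intro x hx
      have := hbr _ (hbr _ hx ![one' 8, 0, 0]) ![one' 8, 0, 0]
      simpa [brk, conv_one', conv_zero, zero_conv] using this
    have e5 : ∀ x : Fin 3 → Fin 8 → A, x ∈ Λ' → (![x 0, 0, 0] : Fin 3 → Fin 8 → A) ∈ Λ' := by
      intro x hx
      have h := Λ'.sub_mem hx (e4 x hx)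
      have he : x - ![0, x 1, x 2] = ![x 0, 0, 0] := by
        ext a
        fin_cases a <;> simp
      rwa [he] at h
    have e6 : ∀ x : Fin 3 → Fin 8 → A, x ∈ Λ' → (![x 1, 0, 0] : Fin 3 → Fin 8 → A) ∈ Λ' := by
      intro x hx
      have := hbr _ (e4 x hx) ![0, 0, one' 8]
      simpa [brk, conv_one', conv_zero, zero_conv] using this
    have e7 : ∀ x : Fin 3 → Fin 8 → A, x ∈ Λ' → (![x 2, 0, 0] : Fin 3 → Fin 8 → A) ∈ Λ' := by
      intro x hx
      have := Λ'.neg_mem (hbr _ (e4 x hx) ![0, one' 8, 0])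
      simpa [brk, conv_one', conv_zero, zero_conv] using this
    refine ⟨Λ'.comap (LinearMap.single A (fun _ : Fin 3 => (Fin 8 → A)) 0), ?_, ?_⟩
    · intro u hu
      have hs : ∀ v : Fin 8 → A, LinearMap.single A (fun _ : Fin 3 => (Fin 8 → A)) 0 v =
          ![v, 0, 0] := by
        intro v
        ext a
        fin_cases a <;> simp
      rw [Submodule.mem_comap, hs] at hu ⊢
      have := hbr _ hu ![0, shift 8 (one' 8), 0]
      apply e3
      simpa [brk, conv_X, conv_zero, zero_conv] using this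
    · have hs : ∀ v : Fin 8 → A, LinearMap.single A (fun _ : Fin 3 => (Fin 8 → A)) 0 v =
          ![v, 0, 0] := by
        intro v
        ext a
        fin_cases a <;> simp
      ext x
      rw [mem_lam, hmem]
      simp only [Submodule.mem_comap, hs]
      constructor
      · intro hx a
        fin_cases a
        · exact e5 _ hx
        · exact e6 _ hx
        · exact e7 _ hx
      · intro h
        have he : DD A x = ![DD A x 0, 0, 0] + ![0, DD A x 1, 0] + ![0, 0, DD A x 2] := by
          ext a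
          fin_cases a <;> simp
        rw [he]
        exact Λ'.add_mem (Λ'.add_mem (h 0) (e1 _ (h 1))) (e2 _ (h 2))
  · rintro ⟨I, hI, rfl⟩ x hx y
    rw [mem_lam] at hx
    constructor
    · rw [mem_lam, DD_gmul]
      intro a
      fin_cases a
      · exact I.sub_mem (conv_mem_of_stable hI (hx 1) _) (conv_mem_of_stable hI (hx 2) _)
      · exact I.sub_mem (conv_mem_of_stable hI (hx 0) _) (conv_mem_of_stable hI (hx 1) _)
      · exact I.sub_mem (conv_mem_of_stable hI (hx 2) _) (conv_mem_of_stable hI (hx 0) _)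
    · rw [mem_lam, DD_gmul]
      intro a
      fin_cases a
      · exact I.sub_mem (conv_comm (DD A x 2) _ ▸ conv_mem_of_stable hI (hx 2) _)
          (conv_comm (DD A x 1) _ ▸ conv_mem_of_stable hI (hx 1) _)
      · exact I.sub_mem (conv_comm (DD A x 1) _ ▸ conv_mem_of_stable hI (hx 1) _)
          (conv_comm (DD A x 0) _ ▸ conv_mem_of_stable hI (hx 0) _)
      · exact I.sub_mem (conv_comm (DD A x 0) _ ▸ conv_mem_of_stable hI (hx 0) _)
          (conv_comm (DD A x 2) _ ▸ conv_mem_of_stable hI (hx 2) _)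

/-- the quotient by `g ⊗ I` -/
def quotLam (I : Submodule A (Fin 8 → A)) :
    ((Fin 24 → A) ⧸ lam I) ≃ₗ[A] (Fin 3 → ((Fin 8 → A) ⧸ I)) :=
  (Submodule.Quotient.equiv (lam I) (Submodule.pi Set.univ fun _ : Fin 3 => I) (DD A)
    (by
      unfold lam
      exact Submodule.map_comap_eq_of_surjective (DD A).surjective _)).trans
    (Submodule.quotientPi fun _ : Fin 3 => I)

lemma card_quotLam (I : Submodule A (Fin 8 → A)) :
    Nat.card ((Fin 24 → A) ⧸ lam I) = Nat.card ((Fin 8 → A) ⧸ I) ^ 3 := by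
  rw [Nat.card_congr (quotLam I).toEquiv, Nat.card_fun]
  simp

end lie

section index

variable {A : Type*} [CommRing A] [IsDomain A] [IsDiscreteValuationRing A] {ϖ : A}
  [hfin : Finite (IsLocalRing.ResidueField A)]

omit hfin in
lemma card_quot_eq_pow (hϖ : Irreducible ϖ) (n : ℕ) (I : Submodule A (Fin n → A))
    [Finite ((Fin n → A) ⧸ I)] : ∃ j, Nat.card ((Fin n → A) ⧸ I) = rc A ^ j := by
  induction n with
  | zero =>
    refine ⟨0, ?_⟩
    have : Subsingleton ((Fin 0 → A) ⧸ I) := (Submodule.mkQ_surjective I).subsingleton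
    rw [pow_zero, Nat.card_unique]
  | succ n ih =>
    obtain ⟨a, M, x, rfl, hM⟩ := exists_extS hϖ I
    obtain ⟨j, hj⟩ := ih M
    exact ⟨a + j, by rw [card_extS hϖ, hj, pow_add]⟩

/-- The number of ideals of the Lie algebra of given index. -/
theorem card_isIdl (hϖ : Irreducible ϖ) (n : ℕ) :
    {Λ : Submodule A (Fin 24 → A) | IsIdl Λ ∧ Nat.card ((Fin 24 → A) ⧸ Λ) = rc A ^ n}.ncard =
      if 3 ∣ n then Nat.card (IdlSet A 8 (n / 3)) else 0 := by
  have hq := one_lt_rc (A := A)
  have hpow : ∀ (I : Submodule A (Fin 8 → A)), Nat.card ((Fin 24 → A) ⧸ lam I) = rc A ^ n →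
      3 ∣ n ∧ Nat.card ((Fin 8 → A) ⧸ I) = rc A ^ (n / 3) := by
    intro I h
    rw [card_quotLam] at h
    have hf : Finite ((Fin 8 → A) ⧸ I) := by
      apply Nat.finite_of_card_ne_zero
      intro h0
      rw [h0] at h
      exact (pow_ne_zero n (by omega : rc A ≠ 0)) (by rw [← h]; simp)
    obtain ⟨j, hj⟩ := card_quot_eq_pow hϖ 8 I
    rw [hj, ← pow_mul] at h
    have h3 : j * 3 = n := Nat.pow_right_injective hq h
    refine ⟨⟨j, by omega⟩, ?_⟩
    rw [hj]
    congr 1
    omega
  split_ifs with h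
  · obtain ⟨j, rfl⟩ := h
    rw [Nat.mul_div_cancel_left j (by norm_num)]
    have himg : {Λ : Submodule A (Fin 24 → A) | IsIdl Λ ∧
        Nat.card ((Fin 24 → A) ⧸ Λ) = rc A ^ (3 * j)} = lam '' IdlSet A 8 j := by
      ext Λ
      constructor
      · rintro ⟨h1, h2⟩
        rw [isIdl_iff] at h1
        obtain ⟨I, hI, rfl⟩ := h1
        refine ⟨I, ⟨hI, ?_⟩, rfl⟩
        have := (hpow I h2).2
        rwa [Nat.mul_div_cancel_left j (by norm_num)] at this
      · rintro ⟨I, hI, rfl⟩
        refine ⟨(isIdl_iff _).mpr ⟨I, hI.1, rfl⟩, ?_⟩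
        rw [card_quotLam, hI.2, ← pow_mul, mul_comm]
    rw [himg, Set.ncard_image_of_injective _ lam_injective, Nat.card_coe_set_eq]
  · have hemp : {Λ : Submodule A (Fin 24 → A) | IsIdl Λ ∧
        Nat.card ((Fin 24 → A) ⧸ Λ) = rc A ^ n} = ∅ := by
      rw [Set.eq_empty_iff_forall_notMem]
      rintro Λ ⟨h1, h2⟩
      rw [isIdl_iff] at h1
      obtain ⟨I, hI, rfl⟩ := h1
      exact h (hpow I h2).1
    rw [hemp, Set.ncard_empty]

/-- The generating function of the number of ideals of the Lie algebra. -/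
theorem genfun_isIdl (hϖ : Irreducible ϖ) :
    (PowerSeries.mk fun n => ({Λ : Submodule A (Fin 24 → A) | IsIdl Λ ∧
      Nat.card ((Fin 24 → A) ⧸ Λ) = rc A ^ n}.ncard : ℤ)) *
      ∏ i ∈ Finset.range 8,
        (1 - PowerSeries.C ((rc A : ℤ) ^ i) * PowerSeries.X ^ (3 * (i + 1))) = 1 := by
  have h := congrArg (PowerSeries.expand 3 (by norm_num)) (genfun_idlSet hϖ 7)
  rw [map_mul, map_prod, map_one] at h
  have h1 : ∀ i, PowerSeries.expand 3 (by norm_num) (fac (rc A) i) =
      1 - PowerSeries.C ((rc A : ℤ) ^ i) * PowerSeries.X ^ (3 * (i + 1)) := by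
    intro i
    unfold fac
    rw [map_sub, map_one, map_mul, PowerSeries.expand_C, map_pow (PowerSeries.expand 3 _),
      PowerSeries.expand_X, ← pow_mul]
  rw [Finset.prod_congr rfl fun i _ => h1 i] at h
  convert h using 2
  ext n
  rw [PowerSeries.coeff_mk, card_isIdl hϖ, PowerSeries.coeff_expand]
  split_ifs with h3
  · rw [PowerSeries.coeff_mk]
  · simp

end index

end Pool.Agent.MP_f418a9_al.NF
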