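import Mathlib
import Pool.Agent.Work.MP_f418a9_al.NF.Lie

/-!
# Ideals of `A[x]/(x^8)` whose quotient is isomorphic to `(A/J)^3`
-/

open scoped BigOperators

noncomputable section

namespace Pool.Agent.MP_f418a9_al.NF

section CH

variable {B : Type*} [CommRing B]

/-- Cayley–Hamilton for a nilpotent endomorphism of `B^3`. -/
lemma exists_cubic (T : (Fin 3 → B) →ₗ[B] (Fin 3 → B)) (hT : IsNilpotent T) :
    ∃ g : Fin 3 → B, (∀ i, IsNilpotent (g i)) ∧
      ∀ x, T (T (T x)) = g 0 • x + g 1 • T x + g 2 • T (T x) := by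
  rcases subsingleton_or_nontrivial B with hB | hB
  · exact ⟨0, fun i => ⟨1, Subsingleton.elim _ _⟩, fun x => Subsingleton.elim _ _⟩
  set M : Matrix (Fin 3) (Fin 3) B := LinearMap.toMatrixAlgEquiv' T with hM
  have hMn : IsNilpotent M := hT.map LinearMap.toMatrixAlgEquiv'
  have hr := Matrix.isNilpotent_charpoly_sub_pow_of_isNilpotent hMn
  rw [Fintype.card_fin] at hr
  set r := M.charpoly - Polynomial.X ^ 3 with hrdef
  have hdeg : r.natDegree < 3 := by
    have h1 : r.degree < 3 := by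
      have h2 : M.charpoly.degree = 3 := by
        rw [Matrix.charpoly_degree_eq_dim, Fintype.card_fin]; rfl
      have h3 : (Polynomial.X ^ 3 : Polynomial B).degree = 3 := by
        rw [Polynomial.degree_X_pow]; rfl
      have h4 := Polynomial.degree_sub_lt_left (p := M.charpoly) (q := Polynomial.X ^ 3)
        (h2.trans h3.symm) (Matrix.charpoly_monic M).ne_zero
        ((Matrix.charpoly_monic M).leadingCoeff.trans
          (Polynomial.monic_X_pow 3).leadingCoeff.symm)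
      rw [h2] at h4
      exact h4
    rcases eq_or_ne r 0 with h0 | h0
    · rw [h0]; simp
    · exact (Polynomial.natDegree_lt_iff_degree_lt h0).mpr h1
  have hch : Polynomial.aeval T M.charpoly = 0 := by
    have h1 := Matrix.aeval_self_charpoly M
    have h2 : LinearMap.toMatrixAlgEquiv' (Polynomial.aeval T M.charpoly) = 0 := by
      rw [← h1, hM]
      exact (Polynomial.aeval_algHom_apply (LinearMap.toMatrixAlgEquiv' : _ ≃ₐ[B] _).toAlgHom T _).symm
    exact (map_eq_zero_iff _ (LinearMap.toMatrixAlgEquiv').injective).mp h2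
  have hp : M.charpoly = Polynomial.X ^ 3 + r := by rw [hrdef]; ring
  rw [hp, map_add, Polynomial.aeval_eq_sum_range' hdeg, map_pow, Polynomial.aeval_X] at hch
  refine ⟨fun i => - r.coeff i, fun i => ?_, fun x => ?_⟩
  · exact ((Polynomial.isNilpotent_iff.mp hr) i).neg
  · have h := congrArg (fun F : Module.End B (Fin 3 → B) => F x) hch
    simp only [Finset.sum_range_succ, Finset.sum_range_zero, LinearMap.add_apply,
      LinearMap.smul_apply, LinearMap.zero_apply, pow_zero, pow_one, zero_add] at h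
    have h3 : (T ^ 3) x = T (T (T x)) := rfl
    have h2 : (T ^ 2) x = T (T x) := rfl
    have h1 : (1 : Module.End B (Fin 3 → B)) x = x := rfl
    rw [h3, h2, h1] at h
    rw [eq_neg_of_add_eq_zero_left h]
    simp only [neg_smul]
    abel

end CH

variable {A : Type*} [CommRing A] {J : Ideal A}

/-- multiplication by `x` on `B[x]/(x^3 - g₂ x^2 - g₁ x - g₀)`, `B = A/J` -/
def cmp (g : Fin 3 → A ⧸ J) : (Fin 3 → A ⧸ J) →ₗ[A] (Fin 3 → A ⧸ J) where
  toFun a := ![g 0 * a 2, a 0 + g 1 * a 2, a 1 + g 2 * a 2]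
  map_add' a b := by
    ext i
    fin_cases i
    · simp [mul_add]
    · simp [mul_add]; ring
    · simp [mul_add]; ring
  map_smul' r a := by
    ext i
    fin_cases i <;> simp

lemma cmp_apply (g a : Fin 3 → A ⧸ J) :
    cmp g a = ![g 0 * a 2, a 0 + g 1 * a 2, a 1 + g 2 * a 2] := rfl

/-- the powers of `x` -/
def pw (g : Fin 3 → A ⧸ J) : ℕ → (Fin 3 → A ⧸ J)
  | 0 => ![1, 0, 0]
  | n + 1 => cmp g (pw g n)

lemma pw_zero (g : Fin 3 → A ⧸ J) : pw g 0 = ![1, 0, 0] := rfl

lemma pw_succ (g : Fin 3 → A ⧸ J) (n : ℕ) : pw g (n + 1) = cmp g (pw g n) := rfl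

lemma pw_one (g : Fin 3 → A ⧸ J) : pw g 1 = ![0, 1, 0] := by
  rw [pw_succ, pw_zero, cmp_apply]; simp

lemma pw_two (g : Fin 3 → A ⧸ J) : pw g 2 = ![0, 0, 1] := by
  rw [pw_succ, pw_one, cmp_apply]; simp

lemma pw_three (g : Fin 3 → A ⧸ J) : pw g 3 = g := by
  rw [pw_succ, pw_two, cmp_apply]
  ext i
  fin_cases i <;> simp

/-- the quotient map `A[x]/(x^8) → B[x]/(x^3 - g₂ x^2 - g₁ x - g₀)` -/
def phi (g : Fin 3 → A ⧸ J) : (Fin 8 → A) →ₗ[A] (Fin 3 → A ⧸ J) where
  toFun v := ∑ i : Fin 8, v i • pw g i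
  map_add' v w := by
    rw [← Finset.sum_add_distrib]
    exact Finset.sum_congr rfl fun i _ => by rw [Pi.add_apply, add_smul]
  map_smul' r v := by
    rw [RingHom.id_apply, Finset.smul_sum]
    exact Finset.sum_congr rfl fun i _ => by rw [Pi.smul_apply, smul_assoc]

lemma phi_apply (g : Fin 3 → A ⧸ J) (v : Fin 8 → A) : phi g v = ∑ i : Fin 8, v i • pw g i := rfl

lemma phi_single (g : Fin 3 → A ⧸ J) (i : Fin 8) : phi g (Pi.single i 1) = pw g i := by
  rw [phi_apply, Finset.sum_eq_single i]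
  · simp
  · intro j _ hj
    rw [Pi.single_eq_of_ne hj, zero_smul]
  · simp

lemma phi_shift {g : Fin 3 → A ⧸ J} (h8 : pw g 8 = 0) (v : Fin 8 → A) :
    phi g (shift 8 v) = cmp g (phi g v) := by
  rw [phi_apply, phi_apply, map_sum, Fin.sum_univ_succ, Fin.sum_univ_castSucc (n := 7)]
  have h1 : shift 8 v 0 = 0 := by rw [shift_apply]; simp
  have h2 : cmp g (v (Fin.last 7) • pw g (Fin.last 7 : Fin 8)) = 0 := by
    rw [map_smul, ← pw_succ]
    change v (Fin.last 7) • pw g 8 = 0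
    rw [h8, smul_zero]
  rw [h1, h2, zero_smul, zero_add, add_zero]
  refine Finset.sum_congr rfl fun i _ => ?_
  rw [map_smul, ← pw_succ, shift_apply]
  have h3 : ((i.succ : Fin 8) : ℕ) ≠ 0 := by simp
  rw [if_neg h3]
  congr 1

lemma stable_ker_phi {g : Fin 3 → A ⧸ J} (h8 : pw g 8 = 0) : Stable (LinearMap.ker (phi g)) := by
  intro v hv
  rw [LinearMap.mem_ker] at hv ⊢
  rw [phi_shift h8, hv, map_zero]

lemma phi_surjective (g : Fin 3 → A ⧸ J) : Function.Surjective (phi g) := by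
  intro a
  choose c hc using fun i => Ideal.Quotient.mk_surjective (a i)
  refine ⟨c 0 • Pi.single 0 1 + c 1 • Pi.single 1 1 + c 2 • Pi.single 2 1, ?_⟩
  rw [map_add, map_add, map_smul, map_smul, map_smul, phi_single, phi_single, phi_single]
  have h0 : pw g ((0 : Fin 8) : ℕ) = ![1, 0, 0] := pw_zero g
  have h1 : pw g ((1 : Fin 8) : ℕ) = ![0, 1, 0] := pw_one g
  have h2 : pw g ((2 : Fin 8) : ℕ) = ![0, 0, 1] := pw_two g
  rw [h0, h1, h2]
  have hs : ∀ i, c i • (1 : A ⧸ J) = a i := by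
    intro i
    rw [← hc i]
    change Ideal.Quotient.mk J (c i * 1) = _
    rw [mul_one]
  ext i
  fin_cases i <;> simp [hs]

lemma ker_phi_injective {g g' : Fin 3 → A ⧸ J} (h : LinearMap.ker (phi g) = LinearMap.ker (phi g')) :
    g = g' := by
  choose c hc using fun i => Ideal.Quotient.mk_surjective (g i)
  have hs : ∀ i, c i • (1 : A ⧸ J) = g i := by
    intro i
    rw [← hc i]
    change Ideal.Quotient.mk J (c i * 1) = _
    rw [mul_one]
  have key : ∀ f : Fin 3 → A ⧸ J, phi f (Pi.single 3 1 - (c 0 • Pi.single 0 1 +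
      c 1 • Pi.single 1 1 + c 2 • Pi.single 2 1)) = f - g := by
    intro f
    rw [map_sub, map_add, map_add, map_smul, map_smul, map_smul, phi_single, phi_single,
      phi_single, phi_single]
    have h0 : pw f ((0 : Fin 8) : ℕ) = ![1, 0, 0] := pw_zero f
    have h1 : pw f ((1 : Fin 8) : ℕ) = ![0, 1, 0] := pw_one f
    have h2 : pw f ((2 : Fin 8) : ℕ) = ![0, 0, 1] := pw_two f
    have h3 : pw f ((3 : Fin 8) : ℕ) = f := pw_three f
    rw [h0, h1, h2, h3]
    ext i
    fin_cases i <;> simp [hs]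
  have h1 := key g
  rw [sub_self, ← LinearMap.mem_ker, h, LinearMap.mem_ker, key g'] at h1
  exact (sub_eq_zero.mp h1).symm

lemma one'_eq : (one' 8 : Fin 8 → A) = Pi.single 0 1 := by
  ext i
  unfold one'
  by_cases h : i = 0
  · subst h; simp
  · have h1 : (i : ℕ) ≠ 0 := fun h' => h (Fin.ext h')
    rw [if_neg h1, Pi.single_eq_of_ne h]

lemma shift_single (i : Fin 7) : shift 8 (Pi.single i.castSucc 1 : Fin 8 → A) =
    Pi.single i.succ 1 := by
  ext j
  rw [shift_apply]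
  refine Fin.cases ?_ (fun j => ?_) j
  · rw [if_pos (by simp)]
    rw [Pi.single_eq_of_ne (Fin.succ_ne_zero i).symm]
  · have h3 : ((j.succ : Fin 8) : ℕ) ≠ 0 := by simp
    rw [if_neg h3]
    have h4 : (⟨((j.succ : Fin 8) : ℕ) - 1, by omega⟩ : Fin 8) = j.castSucc := by
      ext; simp
    rw [h4]
    by_cases hij : j = i
    · subst hij; simp
    · rw [Pi.single_eq_of_ne (by simpa using hij), Pi.single_eq_of_ne (by simpa using hij)]

lemma shift_last : shift 8 (Pi.single (Fin.last 7) 1 : Fin 8 → A) = 0 := by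
  ext j
  rw [shift_apply]
  split_ifs with h
  · rfl
  · rw [Pi.single_eq_of_ne]
    · rfl
    · intro h'
      have := congrArg Fin.val h'
      simp at this
      omega

lemma shift_pow_red (m : ℕ) (f : PowerSeries A) :
    ((shift 8 : (Fin 8 → A) →ₗ[A] _) ^ m) (red 8 f) = red 8 (PowerSeries.X ^ m * f) := by
  induction m with
  | zero => simp
  | succ m ih =>
    rw [pow_succ', Module.End.mul_apply, ih, pow_succ', mul_assoc, red_X_mul]

lemma shift_pow_eight : (shift 8 : (Fin 8 → A) →ₗ[A] _) ^ 8 = 0 := by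
  refine LinearMap.ext fun v => ?_
  obtain ⟨f, rfl⟩ := red_surj v
  rw [shift_pow_red]
  ext k
  rw [red_apply, PowerSeries.coeff_X_pow_mul', if_neg (by omega)]
  rfl

theorem exists_phi [Finite (A ⧸ J)] {I : Submodule A (Fin 8 → A)} (hI : Stable I)
    (θ : ((Fin 8 → A) ⧸ I) ≃ₗ[A] (Fin 3 → A ⧸ J)) :
    ∃ g : Fin 3 → A ⧸ J, (∀ i, IsNilpotent (g i)) ∧ pw g 8 = 0 ∧ LinearMap.ker (phi g) = I := by
  let T0 : (Fin 3 → A ⧸ J) →ₗ[A] (Fin 3 → A ⧸ J) :=
    (θ : ((Fin 8 → A) ⧸ I) →ₗ[A] (Fin 3 → A ⧸ J)) ∘ₗ shiftQ I hI ∘ₗ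
      (θ.symm : (Fin 3 → A ⧸ J) →ₗ[A] ((Fin 8 → A) ⧸ I))
  let T : (Fin 3 → A ⧸ J) →ₗ[A ⧸ J] (Fin 3 → A ⧸ J) :=
    T0.extendScalarsOfSurjective Ideal.Quotient.mk_surjective
  have hT : ∀ v, T (θ (I.mkQ v)) = θ (I.mkQ (shift 8 v)) := by
    intro v
    change θ (shiftQ I hI (θ.symm (θ (I.mkQ v)))) = _
    rw [LinearEquiv.symm_apply_apply]
    rfl
  have hTpow : ∀ (m : ℕ) v, (T ^ m) (θ (I.mkQ v)) =
      θ (I.mkQ (((shift 8 : (Fin 8 → A) →ₗ[A] _) ^ m) v)) := by
    intro m
    induction m with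
    | zero => intro v; rfl
    | succ m ih =>
      intro v
      rw [pow_succ', Module.End.mul_apply, ih, hT, pow_succ', Module.End.mul_apply]
  have hnil : IsNilpotent T := by
    refine ⟨8, LinearMap.ext fun y => ?_⟩
    obtain ⟨z, rfl⟩ := θ.surjective y
    obtain ⟨v, rfl⟩ := I.mkQ_surjective z
    rw [hTpow, shift_pow_eight]
    simp
  obtain ⟨g, hg, hcub⟩ := exists_cubic T hnil
  set ε : Fin 3 → A ⧸ J := θ (I.mkQ (Pi.single 0 1)) with hε
  let ψ : (Fin 3 → A ⧸ J) →ₗ[A ⧸ J] (Fin 3 → A ⧸ J) :=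
    (LinearMap.proj 0).smulRight ε + (LinearMap.proj 1).smulRight (T ε) +
      (LinearMap.proj 2).smulRight (T (T ε))
  have hψ : ∀ a, ψ a = a 0 • ε + a 1 • T ε + a 2 • T (T ε) := fun a => rfl
  have hψcmp : ∀ a, ψ (cmp g a) = T (ψ a) := by
    intro a
    rw [hψ, hψ, map_add, map_add, map_smul, map_smul, map_smul, hcub ε, cmp_apply]
    simp only [Matrix.cons_val]
    module
  have hψpw : ∀ i : ℕ, ψ (pw g i) = (T ^ i) ε := by
    intro i
    induction i with
    | zero => rw [pw_zero, hψ]; simp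
    | succ i ih => rw [pw_succ, hψcmp, ih, pow_succ', Module.End.mul_apply]
  have hTi : ∀ i : Fin 8, (T ^ (i : ℕ)) ε = θ (I.mkQ (Pi.single i 1)) := by
    intro i
    refine Fin.induction ?_ (fun i ih => ?_) i
    · rfl
    · have e1 : ((i.succ : Fin 8) : ℕ) = ((i.castSucc : Fin 8) : ℕ) + 1 := by simp
      rw [e1, pow_succ', Module.End.mul_apply, ih, hT, shift_single]
  have hT8 : (T ^ 8) ε = 0 := by
    have h7 := hTi (Fin.last 7)
    have : (T ^ 8) ε = T ((T ^ 7) ε) := by rw [pow_succ', Module.End.mul_apply]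
    rw [this]
    change (T ^ 7) ε = _ at h7
    rw [h7, hT, shift_last]
    simp
  have hψphi : ∀ v, ψ (phi g v) = θ (I.mkQ v) := by
    intro v
    have hv : v = ∑ i : Fin 8, v i • (Pi.single i 1 : Fin 8 → A) := by
      ext j
      rw [Finset.sum_apply, Finset.sum_eq_single j]
      · simp
      · intro i _ hij
        rw [Pi.smul_apply, Pi.single_eq_of_ne hij.symm, smul_zero]
      · simp
    conv_rhs => rw [hv]
    rw [phi_apply, map_sum, map_sum, map_sum]
    refine Finset.sum_congr rfl fun i _ => ?_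
    rw [LinearMap.map_smul_of_tower ψ (v i) (pw g i), map_smul (I.mkQ), map_smul θ, ← hTi,
      ← hψpw]
  have hsurj : Function.Surjective ψ := by
    intro y
    obtain ⟨z, rfl⟩ := θ.surjective y
    obtain ⟨v, rfl⟩ := I.mkQ_surjective z
    exact ⟨_, hψphi v⟩
  have hinj : Function.Injective ψ := Finite.injective_iff_surjective.mpr hsurj
  refine ⟨g, hg, ?_, ?_⟩
  · apply hinj
    rw [hψpw, hT8, map_zero]
  · ext v
    rw [LinearMap.mem_ker]
    constructor
    · intro h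
      have h1 := hψphi v
      rw [h, map_zero] at h1
      have h2 := (map_eq_zero_iff θ θ.injective).mp h1.symm
      exact (Submodule.Quotient.mk_eq_zero I).mp h2
    · intro h
      apply hinj
      rw [hψphi, map_zero, Submodule.mkQ_apply, (Submodule.Quotient.mk_eq_zero I).mpr h, map_zero]

/-- the parameters of the ideals with quotient `(A/J)^3` -/
def Par (J : Ideal A) : Set (Fin 3 → A ⧸ J) := {g | (∀ i, IsNilpotent (g i)) ∧ pw g 8 = 0}

/-- The number of ideals with quotient isomorphic to `(A/J)^3`. -/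
theorem ncard_free [Finite (A ⧸ J)] :
    {I : Submodule A (Fin 8 → A) | Stable I ∧
      Nonempty (((Fin 8 → A) ⧸ I) ≃ₗ[A] (Fin 3 → A ⧸ J))}.ncard = (Par J).ncard := by
  have himg : {I : Submodule A (Fin 8 → A) | Stable I ∧
      Nonempty (((Fin 8 → A) ⧸ I) ≃ₗ[A] (Fin 3 → A ⧸ J))} =
      (fun g => LinearMap.ker (phi g)) '' Par J := by
    ext I
    constructor
    · rintro ⟨hI, ⟨θ⟩⟩
      obtain ⟨g, h1, h2, h3⟩ := exists_phi hI θ
      exact ⟨g, ⟨h1, h2⟩, h3⟩
    · rintro ⟨g, ⟨-, h2⟩, rfl⟩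
      exact ⟨stable_ker_phi h2, ⟨(phi g).quotKerEquivOfSurjective (phi_surjective g)⟩⟩
  rw [himg, Set.ncard_image_of_injective _ fun g g' h => ker_phi_injective h]

end Pool.Agent.MP_f418a9_al.NF
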