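import Mathlib
import Pool.Agent.Work.MP_f418a9_al.NF.Cmp
import Pool.Agent.Work.MP_f418a9_al.NF.Interface

/-!
# The number of parameters
-/

open scoped BigOperators

noncomputable section

namespace Pool.Agent.MP_f418a9_al.NF

section poly

variable {R : Type*} [CommRing R]

/-- coefficient of `x^2` in `x^6` -/
def h4 (c₀ c₁ c₂ : R) : R := c₂ ^ 4 + 3 * c₁ * c₂ ^ 2 + 2 * c₀ * c₂ + c₁ ^ 2

/-- coefficient of `x^2` in `x^7` -/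
def h5 (c₀ c₁ c₂ : R) : R :=
  c₂ ^ 5 + 4 * c₁ * c₂ ^ 3 + 3 * c₀ * c₂ ^ 2 + 3 * c₁ ^ 2 * c₂ + 2 * c₀ * c₁

end poly

lemma pw_eight {A : Type*} [CommRing A] {J : Ideal A} (g : Fin 3 → A ⧸ J) :
    pw g 8 = ![g 0 * h5 (g 0) (g 1) (g 2), g 0 * h4 (g 0) (g 1) (g 2) +
      g 1 * h5 (g 0) (g 1) (g 2), h6 (g 0) (g 1) (g 2)] := by
  rw [pw_succ, pw_succ, pw_succ, pw_succ, pw_succ, pw_three]
  simp only [cmp_apply, Matrix.cons_val]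
  ext i
  fin_cases i
  · simp only [h5, Matrix.cons_val, Fin.zero_eta]; ring
  · simp only [h5, h4, Matrix.cons_val, Fin.mk_one]; ring
  · simp only [h6, Matrix.cons_val, Fin.reduceFinMk]; ring

section val

variable {A : Type*} [CommRing A] [IsDomain A] {ϖ : A}

lemma dvd_of_dvd_pow_mul (hϖ : Irreducible ϖ) {j : ℕ} {X Y : A}
    (h : ϖ ^ (j + 1) ∣ ϖ ^ j * (X + ϖ * Y)) : ϖ ∣ X := by
  rw [pow_succ] at h
  have h1 := (mul_dvd_mul_iff_left (pow_ne_zero j hϖ.ne_zero)).mp h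
  exact (dvd_add_left (dvd_mul_right ϖ Y)).mp h1

lemma param_iff [IsDiscreteValuationRing A] (hϖ : Irreducible ϖ) (c₀ c₁ c₂ : A) (h0 : ϖ ∣ c₀)
    (h1 : ϖ ∣ c₁) (h2 : ϖ ∣ c₂) :
    (ϖ ^ 7 ∣ c₀ * h5 c₀ c₁ c₂ ∧ ϖ ^ 7 ∣ c₀ * h4 c₀ c₁ c₂ + c₁ * h5 c₀ c₁ c₂ ∧
      ϖ ^ 7 ∣ h6 c₀ c₁ c₂) ↔
    ∃ a₀ a₁ a₂, c₀ = ϖ ^ 3 * a₀ ∧ c₁ = ϖ ^ 2 * a₁ ∧ c₂ = ϖ * a₂ ∧ ϖ ∣ h6 a₀ a₁ a₂ := by
  have hp : Prime ϖ := hϖ.prime
  constructor
  · rintro ⟨-, -, h⟩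
    obtain ⟨a₀, rfl⟩ := h0
    obtain ⟨a₁, rfl⟩ := h1
    obtain ⟨a₂, rfl⟩ := h2
    have e1 : ϖ ∣ a₀ ^ 2 := by
      apply dvd_of_dvd_pow_mul hϖ (j := 2) (Y := ϖ ^ 3 * a₂ ^ 6 + 5 * ϖ ^ 2 * a₂ ^ 4 * a₁ +
        6 * ϖ * a₂ ^ 2 * a₁ ^ 2 + a₁ ^ 3 + 4 * ϖ * a₂ ^ 3 * a₀ + 6 * a₂ * a₁ * a₀)
      have : h6 (ϖ * a₀) (ϖ * a₁) (ϖ * a₂) = ϖ ^ 2 * (a₀ ^ 2 + ϖ * (ϖ ^ 3 * a₂ ^ 6 +
        5 * ϖ ^ 2 * a₂ ^ 4 * a₁ + 6 * ϖ * a₂ ^ 2 * a₁ ^ 2 + a₁ ^ 3 + 4 * ϖ * a₂ ^ 3 * a₀ +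
        6 * a₂ * a₁ * a₀)) := by unfold h6; ring
      rw [← this]
      exact (pow_dvd_pow ϖ (by norm_num)).trans h
    obtain ⟨b₀, rfl⟩ := hp.dvd_of_dvd_pow e1
    have e2 : ϖ ∣ a₁ ^ 3 := by
      apply dvd_of_dvd_pow_mul hϖ (j := 3) (Y := ϖ ^ 2 * a₂ ^ 6 + 5 * ϖ * a₂ ^ 4 * a₁ +
        6 * a₂ ^ 2 * a₁ ^ 2 + 4 * ϖ * a₂ ^ 3 * b₀ + 6 * a₂ * a₁ * b₀ + b₀ ^ 2)
      have : h6 (ϖ * (ϖ * b₀)) (ϖ * a₁) (ϖ * a₂) = ϖ ^ 3 * (a₁ ^ 3 + ϖ * (ϖ ^ 2 * a₂ ^ 6 +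
        5 * ϖ * a₂ ^ 4 * a₁ + 6 * a₂ ^ 2 * a₁ ^ 2 + 4 * ϖ * a₂ ^ 3 * b₀ + 6 * a₂ * a₁ * b₀ +
        b₀ ^ 2)) := by unfold h6; ring
      rw [← this]
      exact (pow_dvd_pow ϖ (by norm_num)).trans h
    obtain ⟨b₁, rfl⟩ := hp.dvd_of_dvd_pow e2
    have e3 : ϖ ∣ b₀ ^ 2 := by
      apply dvd_of_dvd_pow_mul hϖ (j := 4) (Y := ϖ * a₂ ^ 6 + 5 * ϖ * a₂ ^ 4 * b₁ +
        6 * ϖ * a₂ ^ 2 * b₁ ^ 2 + ϖ * b₁ ^ 3 + 4 * a₂ ^ 3 * b₀ + 6 * a₂ * b₁ * b₀)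
      have : h6 (ϖ * (ϖ * b₀)) (ϖ * (ϖ * b₁)) (ϖ * a₂) = ϖ ^ 4 * (b₀ ^ 2 + ϖ * (ϖ * a₂ ^ 6 +
        5 * ϖ * a₂ ^ 4 * b₁ + 6 * ϖ * a₂ ^ 2 * b₁ ^ 2 + ϖ * b₁ ^ 3 + 4 * a₂ ^ 3 * b₀ +
        6 * a₂ * b₁ * b₀)) := by unfold h6; ring
      rw [← this]
      exact (pow_dvd_pow ϖ (by norm_num)).trans h
    obtain ⟨d₀, rfl⟩ := hp.dvd_of_dvd_pow e3
    refine ⟨d₀, b₁, a₂, by ring, by ring, rfl, ?_⟩
    have : h6 (ϖ * (ϖ * (ϖ * d₀))) (ϖ * (ϖ * b₁)) (ϖ * a₂) = ϖ ^ 6 * (h6 d₀ b₁ a₂ + ϖ * 0) := by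
      unfold h6; ring
    rw [this] at h
    exact dvd_of_dvd_pow_mul hϖ h
  · rintro ⟨a₀, a₁, a₂, rfl, rfl, rfl, ⟨t, ht⟩⟩
    refine ⟨⟨ϖ * (a₀ * h5 a₀ a₁ a₂), ?_⟩, ⟨a₀ * h4 a₀ a₁ a₂ + a₁ * h5 a₀ a₁ a₂, ?_⟩, ⟨t, ?_⟩⟩
    · unfold h5; ring
    · unfold h4 h5; ring
    · have : h6 (ϖ ^ 3 * a₀) (ϖ ^ 2 * a₁) (ϖ * a₂) = ϖ ^ 6 * h6 a₀ a₁ a₂ := by unfold h6; ring
      rw [this, ht]; ring

end val

/-! ### Fibres -/

section fib

variable {R G H : Type*} [CommRing R] [AddCommGroup G] [Module R G] [AddCommGroup H] [Module R H]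

lemma ncard_preimage (f : G →ₗ[R] H) (S : Set H) (hS : ∀ y ∈ S, ∃ x, f x = y) :
    Nat.card (f ⁻¹' S) = Nat.card S * Nat.card (LinearMap.ker f) := by
  rw [← Nat.card_prod]
  choose s hs using fun y : S => hS y.1 y.2
  refine Nat.card_congr ⟨fun x => (⟨f x.1, x.2⟩, ⟨x.1 - s ⟨f x.1, x.2⟩, ?_⟩),
    fun z => ⟨s z.1 + z.2.1, ?_⟩, ?_, ?_⟩
  · rw [LinearMap.mem_ker, map_sub, hs, sub_self]
  · rw [Set.mem_preimage, map_add, hs, LinearMap.mem_ker.mp z.2.2, add_zero]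
    exact z.1.2
  · intro x
    apply Subtype.ext
    simp
  · rintro ⟨y, z⟩
    have h1 : f (s y + z.1) = y.1 := by rw [map_add, hs, LinearMap.mem_ker.mp z.2, add_zero]
    have h2 : (⟨f (s y + z.1), by rw [h1]; exact y.2⟩ : S) = y := Subtype.ext h1
    refine Prod.ext h2 ?_
    apply Subtype.ext
    change s y + z.1 - s ⟨f (s y + z.1), _⟩ = z.1
    rw [h2]
    abel

end fib

section count

variable {A : Type*} [CommRing A] [IsDomain A] [IsDiscreteValuationRing A] {ϖ : A}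

/-- `𝔪^7` -/
abbrev J7 (A : Type*) [CommRing A] [IsDomain A] [IsDiscreteValuationRing A] : Ideal A :=
  IsLocalRing.maximalIdeal A ^ 7

lemma mem_J7_iff (hϖ : Irreducible ϖ) (a : A) : a ∈ J7 A ↔ ϖ ^ 7 ∣ a := by
  rw [J7, max_pow_eq hϖ, Ideal.mem_span_singleton]

lemma mk_eq_zero_iff (hϖ : Irreducible ϖ) (a : A) :
    Ideal.Quotient.mk (J7 A) a = 0 ↔ ϖ ^ 7 ∣ a := by
  rw [Ideal.Quotient.eq_zero_iff_mem, mem_J7_iff hϖ]

lemma isNilpotent_mk_iff (hϖ : Irreducible ϖ) (a : A) :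
    IsNilpotent (Ideal.Quotient.mk (J7 A) a) ↔ ϖ ∣ a := by
  constructor
  · rintro ⟨n, hn⟩
    rw [← map_pow, mk_eq_zero_iff hϖ] at hn
    exact hϖ.prime.dvd_of_dvd_pow ((dvd_pow_self ϖ (by norm_num)).trans hn)
  · intro h
    refine ⟨7, ?_⟩
    rw [← map_pow, mk_eq_zero_iff hϖ]
    exact pow_dvd_pow_of_dvd h 7

/-- the weights -/
def wt : Fin 3 → ℕ := ![3, 2, 1]

lemma wt_le (i : Fin 3) : wt i ≤ 3 := by fin_cases i <;> simp [wt]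

lemma map_h6 {R S : Type*} [CommRing R] [CommRing S] (f : R →+* S) (a b c : R) :
    f (h6 a b c) = h6 (f a) (f b) (f c) := by
  unfold h6
  simp only [map_add, map_mul, map_pow, map_ofNat]

lemma map_h5 {R S : Type*} [CommRing R] [CommRing S] (f : R →+* S) (a b c : R) :
    f (h5 a b c) = h5 (f a) (f b) (f c) := by
  unfold h5
  simp only [map_add, map_mul, map_pow, map_ofNat]

lemma map_h4 {R S : Type*} [CommRing R] [CommRing S] (f : R →+* S) (a b c : R) :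
    f (h4 a b c) = h4 (f a) (f b) (f c) := by
  unfold h4
  simp only [map_add, map_mul, map_pow, map_ofNat]

lemma pw_mk_iff (hϖ : Irreducible ϖ) (c : Fin 3 → A) :
    pw (fun i => Ideal.Quotient.mk (J7 A) (c i)) 8 = 0 ↔
    (ϖ ^ 7 ∣ c 0 * h5 (c 0) (c 1) (c 2) ∧
      ϖ ^ 7 ∣ c 0 * h4 (c 0) (c 1) (c 2) + c 1 * h5 (c 0) (c 1) (c 2) ∧
      ϖ ^ 7 ∣ h6 (c 0) (c 1) (c 2)) := by
  rw [← mk_eq_zero_iff hϖ, ← mk_eq_zero_iff hϖ, ← mk_eq_zero_iff hϖ, pw_eight]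
  simp only [map_add, map_mul, map_h4, map_h5, map_h6]
  constructor
  · intro h
    exact ⟨congrFun h 0, congrFun h 1, congrFun h 2⟩
  · rintro ⟨h0, h1, h2⟩
    ext i
    fin_cases i
    · exact h0
    · exact h1
    · exact h2

lemma mem_Par_iff (hϖ : Irreducible ϖ) (g : Fin 3 → A ⧸ J7 A) :
    g ∈ Par (J7 A) ↔ ∃ a : Fin 3 → A, ϖ ∣ h6 (a 0) (a 1) (a 2) ∧
      g = fun i => Ideal.Quotient.mk (J7 A) (ϖ ^ (wt i) * a i) := by
  constructor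
  · rintro ⟨hn, hp⟩
    choose c hc using fun i => Ideal.Quotient.mk_surjective (g i)
    have hg : g = fun i => Ideal.Quotient.mk (J7 A) (c i) := funext fun i => (hc i).symm
    subst hg
    rw [pw_mk_iff hϖ, param_iff hϖ _ _ _ ((isNilpotent_mk_iff hϖ _).mp (hn 0))
      ((isNilpotent_mk_iff hϖ _).mp (hn 1)) ((isNilpotent_mk_iff hϖ _).mp (hn 2))] at hp
    obtain ⟨a₀, a₁, a₂, h0, h1, h2, h⟩ := hp
    refine ⟨![a₀, a₁, a₂], h, ?_⟩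
    ext i
    fin_cases i
    · simp [wt, h0]
    · simp [wt, h1]
    · simp [wt, h2]
  · rintro ⟨a, h, rfl⟩
    have hd : ∀ i, ϖ ∣ ϖ ^ (wt i) * a i := by
      intro i
      have : wt i ≠ 0 := by fin_cases i <;> simp [wt]
      exact (dvd_pow_self ϖ this).mul_right _
    refine ⟨fun i => (isNilpotent_mk_iff hϖ _).mpr (hd i), ?_⟩
    rw [pw_mk_iff hϖ, param_iff hϖ _ _ _ (hd 0) (hd 1) (hd 2)]
    exact ⟨a 0, a 1, a 2, rfl, rfl, by simp [wt], h⟩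

/-- the scaling map -/
def scal (ϖ : A) : (Fin 3 → A ⧸ J7 A) →ₗ[A] (Fin 3 → A ⧸ J7 A) :=
  LinearMap.pi fun i => ϖ ^ (wt i) • LinearMap.proj i

lemma scal_apply (a : Fin 3 → A ⧸ J7 A) (i : Fin 3) : scal ϖ a i = ϖ ^ (wt i) • a i := rfl

/-- reduction `A/𝔪^7 → A/𝔪` -/
def red7 (A : Type*) [CommRing A] [IsDomain A] [IsDiscreteValuationRing A] :
    (A ⧸ J7 A) →ₗ[A] IsLocalRing.ResidueField A :=
  Submodule.liftQ (J7 A) (Algebra.linearMap A (IsLocalRing.ResidueField A)) (by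
    intro a ha
    rw [LinearMap.mem_ker, Algebra.linearMap_apply]
    exact (IsLocalRing.residue_eq_zero_iff a).mpr (Ideal.pow_le_self (by norm_num) ha))

lemma red7_mk (a : A) : red7 A (Ideal.Quotient.mk (J7 A) a) = IsLocalRing.residue A a := rfl

lemma red7_surj : Function.Surjective (red7 A) := by
  intro y
  obtain ⟨a, rfl⟩ := IsLocalRing.residue_surjective y
  exact ⟨_, red7_mk a⟩

/-- reduction of triples -/
def redd (A : Type*) [CommRing A] [IsDomain A] [IsDiscreteValuationRing A] :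
    (Fin 3 → A ⧸ J7 A) →ₗ[A] (Fin 3 → IsLocalRing.ResidueField A) :=
  LinearMap.pi fun i => red7 A ∘ₗ LinearMap.proj i

lemma redd_apply (a : Fin 3 → A ⧸ J7 A) (i : Fin 3) : redd A a i = red7 A (a i) := rfl

lemma redd_surj : Function.Surjective (redd A) := by
  intro y
  choose a ha using fun i => red7_surj (y i)
  exact ⟨a, funext ha⟩

/-- zeros of `h6` -/
def ZZ (k : Type*) [CommRing k] : Set (Fin 3 → k) := {y | h6 (y 0) (y 1) (y 2) = 0}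

lemma residue_eq_zero_iff' (hϖ : Irreducible ϖ) (a : A) :
    IsLocalRing.residue A a = 0 ↔ ϖ ∣ a := by
  rw [IsLocalRing.residue_eq_zero_iff, hϖ.maximalIdeal_eq, Ideal.mem_span_singleton]

lemma preimage_eq (hϖ : Irreducible ϖ) :
    (redd A) ⁻¹' (ZZ (IsLocalRing.ResidueField A)) = (scal ϖ) ⁻¹' (Par (J7 A)) := by
  ext g
  choose c hc using fun i => Ideal.Quotient.mk_surjective (g i)
  have hg : g = fun i => Ideal.Quotient.mk (J7 A) (c i) := funext fun i => (hc i).symm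
  subst hg
  rw [Set.mem_preimage, Set.mem_preimage, mem_Par_iff hϖ]
  have h1 : redd A (fun i => Ideal.Quotient.mk (J7 A) (c i)) ∈ ZZ (IsLocalRing.ResidueField A) ↔
      ϖ ∣ h6 (c 0) (c 1) (c 2) := by
    rw [← residue_eq_zero_iff' hϖ, map_h6]
    rfl
  rw [h1]
  constructor
  · intro h
    exact ⟨c, h, rfl⟩
  · rintro ⟨a, ha, he⟩
    have h2 : ∀ i, IsLocalRing.residue A (c i) = IsLocalRing.residue A (a i) := by
      intro i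
      have h3 := congrFun he i
      have h4 : Ideal.Quotient.mk (J7 A) (ϖ ^ (wt i) * c i) =
          Ideal.Quotient.mk (J7 A) (ϖ ^ (wt i) * a i) := h3
      rw [← sub_eq_zero, ← map_sub, mk_eq_zero_iff hϖ, ← mul_sub] at h4
      rw [← sub_eq_zero, ← map_sub, residue_eq_zero_iff' hϖ]
      have h5 : ϖ ^ (wt i + 1) ∣ ϖ ^ (wt i) * ((c i - a i) + ϖ * 0) := by
        rw [mul_zero, add_zero]
        refine (pow_dvd_pow ϖ ?_).trans h4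
        have := wt_le i
        omega
      exact dvd_of_dvd_pow_mul hϖ h5
    rw [← residue_eq_zero_iff' hϖ, map_h6] at ha ⊢
    rw [h2, h2, h2]
    exact ha

lemma card_B (hϖ : Irreducible ϖ) : Nat.card (A ⧸ J7 A) = rc A ^ 7 := by
  rw [J7, max_pow_eq hϖ, card_quot_pow hϖ]

variable [hfin : Finite (IsLocalRing.ResidueField A)]

lemma finite_B : Finite (A ⧸ J7 A) := by
  obtain ⟨ϖ, hϖ⟩ := IsDiscreteValuationRing.exists_irreducible A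
  apply Nat.finite_of_card_ne_zero
  rw [card_B hϖ]
  exact pow_ne_zero _ (rc_pos (A := A)).ne'

lemma card_ker_redd (hϖ : Irreducible ϖ) :
    Nat.card (LinearMap.ker (redd A)) = rc A ^ 18 := by
  have h1 : Nat.card (Fin 3 → A ⧸ J7 A) =
      Nat.card (LinearMap.ker (redd A)) * Nat.card ((Fin 3 → A ⧸ J7 A) ⧸ LinearMap.ker (redd A)) :=
    Submodule.card_eq_card_quotient_mul_card (LinearMap.ker (redd A))
  have h3 : Nat.card (Fin 3) = 3 := by simp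
  have h2 : Nat.card (IsLocalRing.ResidueField A) = rc A := rfl
  rw [card_quot_of_surj (redd A) redd_surj rfl, Nat.card_fun, Nat.card_fun, card_B hϖ, h2,
    h3] at h1
  have hpos : 0 < rc A ^ 3 := pow_pos rc_pos _
  apply Nat.eq_of_mul_eq_mul_right hpos
  rw [← h1]
  ring

lemma card_ker_mul (hϖ : Irreducible ϖ) {j : ℕ} (hj : j ≤ 7) :
    Nat.card {b : A ⧸ J7 A // ϖ ^ j • b = 0} = rc A ^ j := by
  have := finite_B (A := A)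
  let f : (A ⧸ J7 A) →ₗ[A] (A ⧸ J7 A) := ϖ ^ j • LinearMap.id
  have h1 : Nat.card {b : A ⧸ J7 A // ϖ ^ j • b = 0} = Nat.card (LinearMap.ker f) := rfl
  rw [h1, card_ker_eq_coker, ← card_quot_pow hϖ j]
  symm
  let g : A →ₗ[A] ((A ⧸ J7 A) ⧸ LinearMap.range f) := (LinearMap.range f).mkQ ∘ₗ (J7 A).mkQ
  refine card_quot_of_surj g ((Submodule.mkQ_surjective _).comp (Submodule.mkQ_surjective _)) ?_
  ext a
  rw [LinearMap.mem_ker]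
  simp only [g, LinearMap.comp_apply]
  rw [Submodule.mkQ_apply (LinearMap.range f), Submodule.Quotient.mk_eq_zero,
    Ideal.mem_span_singleton]
  constructor
  · rintro ⟨b, hb⟩
    obtain ⟨c, rfl⟩ := (J7 A).mkQ_surjective b
    have h2 : (J7 A).mkQ (ϖ ^ j * c - a) = 0 := by
      rw [map_sub, ← hb, sub_eq_zero]
      rfl
    rw [Submodule.mkQ_apply, Submodule.Quotient.mk_eq_zero, mem_J7_iff hϖ] at h2
    have h3 := (pow_dvd_pow ϖ hj).trans h2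
    exact (dvd_sub_right (dvd_mul_right _ _)).mp h3
  · rintro ⟨c, rfl⟩
    exact ⟨(J7 A).mkQ c, rfl⟩

lemma card_ker_scal (hϖ : Irreducible ϖ) :
    Nat.card (LinearMap.ker (scal ϖ)) = rc A ^ 6 := by
  have h1 : Nat.card (LinearMap.ker (scal ϖ)) =
      Nat.card (∀ i : Fin 3, {b : A ⧸ J7 A // ϖ ^ (wt i) • b = 0}) := by
    refine Nat.card_congr ?_
    refine Equiv.trans ?_ (Equiv.subtypePiEquivPi (p := fun (i : Fin 3) (b : A ⧸ J7 A) =>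
      ϖ ^ (wt i) • b = 0))
    refine Equiv.subtypeEquivRight fun a => ?_
    rw [LinearMap.mem_ker]
    constructor
    · intro h i
      exact congrFun h i
    · intro h
      exact funext h
  rw [h1, Nat.card_pi]
  rw [Finset.prod_congr rfl fun i _ => card_ker_mul hϖ ((wt_le i).trans (by norm_num))]
  rw [Finset.prod_pow_eq_pow_sum]
  congr 1

lemma card_ZZ (k : Type*) [CommRing k] :
    Nat.card (ZZ k) = Nat.card {c : k × k × k // h6 c.1 c.2.1 c.2.2 = 0} := by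
  refine Nat.card_congr ⟨fun y => ⟨(y.1 0, y.1 1, y.1 2), y.2⟩,
    fun c => ⟨![c.1.1, c.1.2.1, c.1.2.2], c.2⟩, ?_, ?_⟩
  · intro y
    apply Subtype.ext
    ext i
    fin_cases i <;> rfl
  · intro c
    rfl

/-- The number of parameters. -/
theorem card_Par (hϖ : Irreducible ϖ) :
    (Par (J7 A)).ncard = rc A ^ 12 * Nat.card {c : IsLocalRing.ResidueField A ×
      IsLocalRing.ResidueField A × IsLocalRing.ResidueField A // h6 c.1 c.2.1 c.2.2 = 0} := by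
  have h1 := ncard_preimage (redd A) (ZZ (IsLocalRing.ResidueField A))
    fun y _ => redd_surj y
  have h2 := ncard_preimage (scal ϖ) (Par (J7 A)) (fun y hy => by
    obtain ⟨a, -, rfl⟩ := (mem_Par_iff hϖ y).mp hy
    exact ⟨fun i => Ideal.Quotient.mk (J7 A) (a i), rfl⟩)
  rw [preimage_eq hϖ, h2, card_ker_redd hϖ, card_ker_scal hϖ, card_ZZ] at h1
  rw [← Nat.card_coe_set_eq]
  have hpos : 0 < rc A ^ 6 := pow_pos rc_pos _
  apply Nat.eq_of_mul_eq_mul_right hpos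
  rw [h1]
  ring

end count

end Pool.Agent.MP_f418a9_al.NF
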