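import Mathlib
import Pool.Agent.Work.MP_f418a9_al.NF.Interface
import Pool.Agent.Work.MP_f418a9_al.NF.Lie

/-!
# The Lie algebra over `𝓞 K`; uniformity of the ideal zeta function
-/

open scoped BigOperators NumberField
open IsDedekindDomain

noncomputable section

namespace Pool.Agent.MP_f418a9_al.NF

variable (K : Type) [Field K] [NumberField K]

/-- The structure constants of `g ⊗ 𝓞 K[x]/(x^8)`. -/
def cc : StructureConstants K 24 := fun r s t => ((sc r s t : ℤ) : 𝓞 K)

theorem isLieAlg_cc : IsLieAlg (cc K) :=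
  ⟨fun x => gmul_self x, fun x y z => gmul_jacobi x y z⟩

variable {K}

lemma locMul_cc (v : HeightOneSpectrum (𝓞 K)) (x y : Fin 24 → Loc v) :
    locMul v (cc K) x y = gmul x y := by
  ext k
  unfold locMul gmul cc
  simp only [map_intCast]

lemma isIdeal2_iff (v : HeightOneSpectrum (𝓞 K)) (Λ : Submodule (Loc v) (Fin 24 → Loc v)) :
    IsIdeal2 v (cc K) Λ ↔ IsIdl Λ := by
  unfold IsIdeal2 IsIdl
  simp only [locMul_cc]

lemma finite_res (hNT4 : ResidueCard) (v : HeightOneSpectrum (𝓞 K)) :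
    Finite (IsLocalRing.ResidueField (Loc v)) := by
  apply Nat.finite_of_card_ne_zero
  rw [hNT4 K v, resCard]
  have := v.asIdeal.finiteQuotientOfFreeOfNeBot v.ne_bot
  exact Nat.card_pos.ne'

/-- the denominator -/
def den : MvPolynomial Unit (Polynomial ℤ) :=
  ∏ i ∈ Finset.range 8, (1 - MvPolynomial.C (Polynomial.X ^ i) * MvPolynomial.X () ^ (3 * (i + 1)))

lemma evalX_den (q : ℕ) : ((evalX q den : MvPolynomial Unit ℤ) : MvPowerSeries Unit ℤ) =
    ∏ i ∈ Finset.range 8,
        ((1 : PowerSeries ℤ) - PowerSeries.C ((q : ℤ) ^ i) * PowerSeries.X ^ (3 * (i + 1))) := by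
  have h : (MvPolynomial.coeToMvPowerSeries.ringHom (σ := Unit) (R := ℤ)) (evalX q den) =
      ∏ i ∈ Finset.range 8,
        ((1 : PowerSeries ℤ) - PowerSeries.C ((q : ℤ) ^ i) * PowerSeries.X ^ (3 * (i + 1))) := by
    unfold evalX den
    rw [map_prod, map_prod]
    refine Finset.prod_congr rfl fun i _ => ?_
    simp only [map_sub, map_one, map_mul, map_pow, MvPolynomial.map_C, MvPolynomial.map_X,
      Polynomial.coe_evalRingHom, Polynomial.eval_X]
    congr 2
    · rw [← map_pow, MvPolynomial.coeToMvPowerSeries.ringHom_apply, MvPolynomial.coe_pow,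
        MvPolynomial.coe_C]
      rfl
    · rw [MvPolynomial.coeToMvPowerSeries.ringHom_apply, MvPolynomial.coe_X]
      rfl
  exact h

/-- The index ideal zeta function is `W(q, q^{-s})` for one rational function at all primes. -/
theorem zetaIdx_value (hNT4 : ResidueCard) (v : HeightOneSpectrum (𝓞 K)) :
    IsValueOf (zetaIdx v (IsIdeal2 v (cc K))) (resCard v) 1 den := by
  have hfin := finite_res hNT4 v
  obtain ⟨ϖ, hϖ⟩ := IsDiscreteValuationRing.exists_irreducible (Loc v)
  have hrc : rc (Loc v) = resCard v := hNT4 K v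
  have h := genfun_isIdl hϖ
  rw [hrc] at h
  have hz : zetaIdx v (IsIdeal2 v (cc K)) = (PowerSeries.mk fun n =>
      ({Λ : Submodule (Loc v) (Fin 24 → Loc v) | IsIdl Λ ∧
        Nat.card ((Fin 24 → Loc v) ⧸ Λ) = resCard v ^ n}.ncard : ℤ)) := by
    unfold zetaIdx
    simp only [isIdeal2_iff]
  have h2 : ((evalX (resCard v) den : MvPolynomial Unit ℤ) : MvPowerSeries Unit ℤ) *
      zetaIdx v (IsIdeal2 v (cc K)) = 1 := by
    rw [evalX_den, hz, mul_comm]
    exact h
  refine ⟨?_, ?_⟩
  · intro h0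
    rw [h0] at h2
    simp at h2
  · rw [h2]
    simp [evalX]

theorem isUniform_idx (hNT4 : ResidueCard) :
    IsUniform (K := K) (fun v => zetaIdx v (IsIdeal2 v (cc K))) := by
  refine ⟨1, den, ?_⟩
  convert Set.finite_empty
  rw [Set.eq_empty_iff_forall_notMem]
  intro v hv
  exact hv (zetaIdx_value hNT4 v)

end Pool.Agent.MP_f418a9_al.NF
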