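import Mathlib
import Pool.Agent.Work.MP_f418a9_al.NF.ParCount
import Pool.Agent.Work.MP_f418a9_al.NF.Uniform

/-!
# The coefficient of the cotype ideal zeta function at `(7^9, 0^15)`
-/

open scoped BigOperators NumberField
open IsDedekindDomain

noncomputable section

namespace Pool.Agent.MP_f418a9_al.NF

section proj

variable {A : Type*} [CommRing A] [IsDomain A] [IsDiscreteValuationRing A]

instance : IsLocalRing (A ⧸ J7 A) := by
  have : Nontrivial (A ⧸ J7 A) := by
    refine Ideal.Quotient.nontrivial_iff.mpr ?_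
    intro h
    have h1 : J7 A ≤ IsLocalRing.maximalIdeal A := Ideal.pow_le_self (by norm_num)
    rw [h, top_le_iff] at h1
    exact Ideal.IsPrime.ne_top' h1
  exact IsLocalRing.of_surjective' (Ideal.Quotient.mk (J7 A)) Ideal.Quotient.mk_surjective

/-- if `M^3 ≅ B^9` then `M ≅ B^3` -/
lemma cancel {M : Type*} [AddCommGroup M] [Module A M]
    (e : (Fin 3 → M) ≃ₗ[A] (Fin 9 → A ⧸ J7 A)) : Nonempty (M ≃ₗ[A] (Fin 3 → A ⧸ J7 A)) := by
  have htor : Module.IsTorsionBySet A M (J7 A : Set A) := by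
    intro m a
    have h1 : (a : A) • (Pi.single 0 m : Fin 3 → M) = 0 := by
      apply e.injective
      rw [map_smul, map_zero]
      ext i
      rw [Pi.smul_apply, Pi.zero_apply]
      obtain ⟨b, hb⟩ := Ideal.Quotient.mk_surjective (e (Pi.single 0 m) i)
      rw [← hb]
      change Ideal.Quotient.mk (J7 A) (a * b) = 0
      rw [Ideal.Quotient.eq_zero_iff_mem]
      exact Ideal.mul_mem_right _ _ a.2
    have h2 := congrFun h1 0
    simpa using h2
  let _ : Module (A ⧸ J7 A) M := htor.module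
  have : IsScalarTower A (A ⧸ J7 A) M := htor.isScalarTower
  let e' : (Fin 3 → M) ≃ₗ[A ⧸ J7 A] (Fin 9 → A ⧸ J7 A) :=
    e.extendScalarsOfSurjective Ideal.Quotient.mk_surjective
  have : Module.Projective (A ⧸ J7 A) (Fin 3 → M) := Module.Projective.of_equiv e'.symm
  have : Module.Projective (A ⧸ J7 A) M := by
    refine Module.Projective.of_split (LinearMap.single (A ⧸ J7 A) (fun _ : Fin 3 => M) 0)
      (LinearMap.proj 0) ?_
    ext m
    simp
  have : Module.Finite (A ⧸ J7 A) (Fin 3 → M) := Module.Finite.equiv e'.symm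
  have : Module.Finite (A ⧸ J7 A) M :=
    Module.Finite.of_surjective (LinearMap.proj (R := A ⧸ J7 A) (φ := fun _ : Fin 3 => M) 0)
      (fun m => ⟨fun _ => m, rfl⟩)
  have : Module.Free (A ⧸ J7 A) M := Module.free_of_flat_of_isLocalRing
  have h1 : Module.finrank (A ⧸ J7 A) (Fin 3 → M) = 3 * Module.finrank (A ⧸ J7 A) M := by
    rw [Module.finrank_pi_fintype]
    simp
  have h2 : Module.finrank (A ⧸ J7 A) (Fin 3 → M) = 9 := by
    rw [LinearEquiv.finrank_eq e']
    simp
  have h3 : Module.finrank (A ⧸ J7 A) M = 3 := by omega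
  let b := Module.finBasisOfFinrankEq (A ⧸ J7 A) M h3
  exact ⟨b.equivFun.restrictScalars A⟩

/-- the cotype `(7^9, 0^15)` -/
def kap : Fin 24 → ℕ := fun i => if (i : ℕ) < 9 then 7 else 0

lemma kap_castLE (j : Fin 9) : kap (Fin.castLE (by norm_num) j : Fin 24) = 7 := by
  unfold kap
  rw [if_pos]
  exact j.2

/-- `⨁ A/𝔪^{κ_i} = (A/𝔪^7)^9` -/
def kapEquiv (A : Type*) [CommRing A] [IsDomain A] [IsDiscreteValuationRing A] :
    (∀ i : Fin 24, A ⧸ IsLocalRing.maximalIdeal A ^ (kap i)) ≃ₗ[A] (Fin 9 → A ⧸ J7 A) :=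
  LinearEquiv.ofBijective
    (LinearMap.pi fun j : Fin 9 =>
      ((Submodule.quotEquivOfEq _ _ (by rw [kap_castLE j]) :
        (A ⧸ IsLocalRing.maximalIdeal A ^ (kap (Fin.castLE (by norm_num) j : Fin 24))) ≃ₗ[A]
          A ⧸ J7 A) : _ →ₗ[A] A ⧸ J7 A) ∘ₗ
        LinearMap.proj (φ := fun i : Fin 24 => A ⧸ IsLocalRing.maximalIdeal A ^ (kap i))
          (Fin.castLE (by norm_num) j : Fin 24))
    (by
      constructor
      · rw [← LinearMap.ker_eq_bot, LinearMap.ker_eq_bot']
        intro f hf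
        ext i
        by_cases h : (i : ℕ) < 9
        · have h1 := congrFun hf ⟨i, h⟩
          have h2 : (Submodule.quotEquivOfEq (IsLocalRing.maximalIdeal A ^
              (kap (Fin.castLE (by norm_num) (⟨i, h⟩ : Fin 9) : Fin 24))) (J7 A)
              (by rw [kap_castLE])) (f (Fin.castLE (by norm_num) (⟨i, h⟩ : Fin 9))) = 0 := h1
          exact (LinearEquiv.map_eq_zero_iff _).mp h2
        · have : Subsingleton (A ⧸ IsLocalRing.maximalIdeal A ^ (kap i)) := by
            rw [Ideal.Quotient.subsingleton_iff]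
            unfold kap
            rw [if_neg h, pow_zero, Ideal.one_eq_top]
          exact Subsingleton.elim _ _
      · intro g
        refine ⟨fun i => if h : (i : ℕ) < 9 then
          (Submodule.quotEquivOfEq _ _ (by unfold kap; rw [if_pos h]) :
            (A ⧸ IsLocalRing.maximalIdeal A ^ (kap i)) ≃ₗ[A] A ⧸ J7 A).symm (g ⟨i, h⟩) else 0, ?_⟩
        ext j
        simp only [LinearMap.pi_apply, LinearMap.comp_apply, LinearMap.proj_apply]
        have hj : ((Fin.castLE (by norm_num) j : Fin 24) : ℕ) < 9 := j.2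
        rw [dif_pos hj]
        exact LinearEquiv.apply_symm_apply _ _)

/-- `(B^3)^3 = B^9` -/
def nineEquiv (A : Type*) [CommRing A] [IsDomain A] [IsDiscreteValuationRing A] :
    (Fin 3 → Fin 3 → A ⧸ J7 A) ≃ₗ[A] (Fin 9 → A ⧸ J7 A) :=
  ((LinearEquiv.funCongrLeft A (A ⧸ J7 A) (finProdFinEquiv (m := 3) (n := 3))).trans
    (LinearEquiv.curry A (A ⧸ J7 A) (Fin 3) (Fin 3))).symm

theorem cotype_iff (I : Submodule A (Fin 8 → A)) :
    Nonempty (((Fin 24 → A) ⧸ lam I) ≃ₗ[A]
      (∀ i : Fin 24, A ⧸ IsLocalRing.maximalIdeal A ^ (kap i))) ↔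
    Nonempty (((Fin 8 → A) ⧸ I) ≃ₗ[A] (Fin 3 → A ⧸ J7 A)) := by
  constructor
  · rintro ⟨e⟩
    exact cancel ((quotLam I).symm.trans (e.trans (kapEquiv A)))
  · rintro ⟨e⟩
    exact ⟨(quotLam I).trans ((LinearEquiv.piCongrRight fun _ => e).trans
      ((nineEquiv A).trans (kapEquiv A).symm))⟩

end proj

variable {K : Type} [Field K] [NumberField K]

/-- the cotype as a multi-index -/
def kapf : Fin 24 →₀ ℕ := Finsupp.equivFunOnFinite.symm kap

lemma kapf_coe : (kapf : Fin 24 → ℕ) = kap := rfl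

/-- The coefficient of the cotype ideal zeta function at `(7^9, 0^15)` is `q^12` times the number of
zeros of `h6` over the residue field. -/
theorem coeff_zetaCo (hNT4 : ResidueCard) (v : HeightOneSpectrum (𝓞 K)) :
    MvPowerSeries.coeff kapf (zetaCo v (IsIdeal2 v (cc K))) =
      (resCard v : ℤ) ^ 12 * (Nat.card {c : IsLocalRing.ResidueField (Loc v) ×
        IsLocalRing.ResidueField (Loc v) × IsLocalRing.ResidueField (Loc v) //
          h6 c.1 c.2.1 c.2.2 = 0} : ℤ) := by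
  have hfin := finite_res hNT4 v
  have hfB : Finite (Loc v ⧸ J7 (Loc v)) := finite_B
  obtain ⟨ϖ, hϖ⟩ := IsDiscreteValuationRing.exists_irreducible (Loc v)
  have hrc : rc (Loc v) = resCard v := hNT4 K v
  have hset : {Λ : Submodule (Loc v) (Fin 24 → Loc v) | IsIdeal2 v (cc K) Λ ∧
      HasCotype v Λ kap} = lam '' {I : Submodule (Loc v) (Fin 8 → Loc v) | Stable I ∧
      Nonempty (((Fin 8 → Loc v) ⧸ I) ≃ₗ[Loc v] (Fin 3 → Loc v ⧸ J7 (Loc v)))} := by
    ext Λ
    constructor
    · rintro ⟨h1, -, h2⟩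
      rw [isIdeal2_iff, isIdl_iff] at h1
      obtain ⟨I, hI, rfl⟩ := h1
      exact ⟨I, ⟨hI, (cotype_iff I).mp h2⟩, rfl⟩
    · rintro ⟨I, ⟨hI, he⟩, rfl⟩
      refine ⟨(isIdeal2_iff v _).mpr ((isIdl_iff _).mpr ⟨I, hI, rfl⟩), ?_, (cotype_iff I).mpr he⟩
      intro i j hij
      unfold kap
      split_ifs <;> omega
  have hco : MvPowerSeries.coeff kapf (zetaCo v (IsIdeal2 v (cc K))) =
      ({Λ : Submodule (Loc v) (Fin 24 → Loc v) | IsIdeal2 v (cc K) Λ ∧
        HasCotype v Λ kap}.ncard : ℤ) := rfl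
  rw [hco, hset, Set.ncard_image_of_injective _ lam_injective, ncard_free, card_Par hϖ, hrc]
  push_cast
  ring

end Pool.Agent.MP_f418a9_al.NF
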