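import Mathlib
import Pool.Agent.Work.MP_f418a9_al.NF.Defs

/-!
# Coefficients of `W(q, Y)` are rational functions of `q`
-/

open scoped BigOperators NumberField
open IsDedekindDomain

namespace Pool.Agent.MP_f418a9_al.NF

lemma coeff_evalX {σ : Type*} (q : ℕ) (F : MvPolynomial σ (Polynomial ℤ)) (k : σ →₀ ℕ) :
    MvPolynomial.coeff k (evalX q F) = (MvPolynomial.coeff k F).eval (q : ℤ) := by
  simp [evalX, MvPolynomial.coeff_map]

/-- If `Z = (F/G)(q, Y)` then every coefficient of `Z` is the value at `q` of a rational function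
which depends only on `F, G`. -/
theorem coeff_value {σ : Type*} [LinearOrder σ] [WellFoundedGT σ]
    (F G : MvPolynomial σ (Polynomial ℤ)) (k : σ →₀ ℕ) :
    ∃ A B : Polynomial ℤ, B ≠ 0 ∧ ∀ (q : ℕ) (Z : MvPowerSeries σ ℤ), IsValueOf Z q F G →
      B.eval (q : ℤ) * MvPowerSeries.coeff k Z = A.eval (q : ℤ) := by
  classical
  by_cases hG : G = 0
  · subst hG
    refine ⟨0, 1, one_ne_zero, fun q Z h => absurd (by simp [evalX]) h.1⟩
  let m : MonomialOrder σ := MonomialOrder.lex
  obtain ⟨k0, hk0, hmin⟩ := Finset.exists_min_image G.support (fun k => m.toSyn k)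
    (MvPolynomial.support_nonempty.mpr hG)
  set g0 : Polynomial ℤ := MvPolynomial.coeff k0 G with hg0
  have hg0ne : g0 ≠ 0 := MvPolynomial.mem_support_iff.mp hk0
  have key : ∀ s : m.syn, ∀ k : σ →₀ ℕ, m.toSyn k = s →
      ∃ (n : ℕ) (A : Polynomial ℤ), ∀ (p : ℕ) (Z : MvPowerSeries σ ℤ), IsValueOf Z p F G →
        (g0.eval (p : ℤ)) ^ n * MvPowerSeries.coeff k Z = A.eval (p : ℤ) := by
    intro s
    induction s using WellFoundedLT.induction with
    | ind s ih =>
      rintro k rfl
      -- the antidiagonal terms other than `(k0, k)`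
      let T : Finset ((σ →₀ ℕ) × (σ →₀ ℕ)) :=
        (Finset.HasAntidiagonal.antidiagonal (k0 + k)).filter (fun x => x.1 ∈ G.support ∧ x.1 ≠ k0)
      have hT : ∀ x ∈ T, m.toSyn x.2 < m.toSyn k := by
        intro x hx
        simp only [T, Finset.mem_filter, Finset.HasAntidiagonal.mem_antidiagonal] at hx
        obtain ⟨hx1, hx2, hx3⟩ := hx
        have h1 : m.toSyn k0 < m.toSyn x.1 := by
          refine lt_of_le_of_ne (hmin x.1 hx2) ?_
          intro he
          exact hx3 (m.toSyn.injective he).symm
        have h2 : m.toSyn x.1 + m.toSyn x.2 = m.toSyn k0 + m.toSyn k := by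
          rw [← map_add, ← map_add, hx1]
        by_contra hcon
        push Not at hcon
        have : m.toSyn k0 + m.toSyn k < m.toSyn x.1 + m.toSyn x.2 :=
          add_lt_add_of_lt_of_le h1 hcon
        exact absurd h2 (ne_of_gt this)
      have hch : ∀ x : T, ∃ (n : ℕ) (A : Polynomial ℤ), ∀ (p : ℕ) (Z : MvPowerSeries σ ℤ),
          IsValueOf Z p F G →
          (g0.eval (p : ℤ)) ^ n * MvPowerSeries.coeff x.1.2 Z = A.eval (p : ℤ) := by
        intro x
        exact ih _ (hT x.1 x.2) x.1.2 rfl
      choose nn AA hAA using hch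
      let M : ℕ := ∑ x : T, nn x
      have hM : ∀ x : T, nn x ≤ M := fun x =>
        Finset.single_le_sum (f := nn) (fun _ _ => Nat.zero_le _) (Finset.mem_univ x)
      refine ⟨M + 1, g0 ^ M * MvPolynomial.coeff (k0 + k) F -
        ∑ x : T, MvPolynomial.coeff x.1.1 G * g0 ^ (M - nn x) * AA x, ?_⟩
      intro p Z hp
      obtain ⟨hp1, hp2⟩ := hp
      have hc := congrArg (MvPowerSeries.coeff (k0 + k)) hp2
      rw [MvPowerSeries.coeff_mul, MvPolynomial.coeff_coe, coeff_evalX] at hc
      simp only [MvPolynomial.coeff_coe, coeff_evalX] at hc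
      have hsplit : ∑ x ∈ Finset.HasAntidiagonal.antidiagonal (k0 + k),
          (MvPolynomial.coeff x.1 G).eval (p : ℤ) * MvPowerSeries.coeff x.2 Z =
          g0.eval (p : ℤ) * MvPowerSeries.coeff k Z +
          ∑ x ∈ T, (MvPolynomial.coeff x.1 G).eval (p : ℤ) * MvPowerSeries.coeff x.2 Z := by
        have hsub : insert (k0, k) T ⊆ Finset.HasAntidiagonal.antidiagonal (k0 + k) := by
          intro x hx
          rw [Finset.mem_insert] at hx
          rcases hx with rfl | hx
          · simp
          · exact (Finset.mem_filter.mp hx).1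
        rw [← Finset.sum_subset hsub, Finset.sum_insert]
        · simp [T]
        · intro x hx hx2
          rw [Finset.mem_insert, not_or] at hx2
          have : x.1 ∉ G.support := by
            intro hxs
            apply hx2.2
            simp only [T, Finset.mem_filter]
            refine ⟨hx, hxs, ?_⟩
            intro he
            apply hx2.1
            rw [Finset.HasAntidiagonal.mem_antidiagonal, he] at hx
            exact Prod.ext he (add_left_cancel hx)
          rw [MvPolynomial.notMem_support_iff.mp this]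
          simp
      rw [hsplit] at hc
      have hc2 : g0.eval (p : ℤ) * MvPowerSeries.coeff k Z =
          (MvPolynomial.coeff (k0 + k) F).eval (p : ℤ) -
          ∑ x ∈ T, (MvPolynomial.coeff x.1 G).eval (p : ℤ) * MvPowerSeries.coeff x.2 Z := by
        linarith
      rw [pow_succ, mul_assoc, hc2, mul_sub, Finset.mul_sum]
      simp only [Polynomial.eval_sub, Polynomial.eval_mul, Polynomial.eval_pow,
        Polynomial.eval_finset_sum]
      congr 1
      rw [← Finset.sum_coe_sort T]
      refine Finset.sum_congr rfl ?_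
      intro x _
      have hx := hAA x p Z ⟨by assumption, hp2⟩
      rw [← hx]
      have hpow : (g0.eval (p : ℤ)) ^ M =
          (g0.eval (p : ℤ)) ^ (M - nn x) * (g0.eval (p : ℤ)) ^ (nn x) := by
        rw [← pow_add, Nat.sub_add_cancel (hM x)]
      rw [hpow]
      ring
  obtain ⟨n, A, hA⟩ := key _ k rfl
  exact ⟨A, g0 ^ n, pow_ne_zero _ hg0ne, fun p Z hp => by simpa using hA p Z hp⟩

end Pool.Agent.MP_f418a9_al.NF
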