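import Mathlib
import Pool.Agent.Work.MP_f418a9_al.NF.CoType
import Pool.Agent.Work.MP_f418a9_al.NF.Rat

/-!
# Assembly: the cotype ideal zeta function of `g ⊗ ℤ[i][x]/(x^8)` is not finitely uniform
-/

open scoped BigOperators NumberField
open IsDedekindDomain

noncomputable section

namespace Pool.Agent.MP_f418a9_al.NF

/-- the trace-like character sum over `ZMod p` -/
def TT (p : ℕ) : ℤ :=
  if h : p.Prime then
    haveI := Fact.mk h
    ∑ x : ZMod p, quadraticChar (ZMod p) (x * (x ^ 2 + 6 * x + 2))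
  else 0

lemma TT_prime (p : ℕ) [hp : Fact p.Prime] :
    TT p = ∑ x : ZMod p, quadraticChar (ZMod p) (x * (x ^ 2 + 6 * x + 2)) := by
  unfold TT
  rw [dif_pos hp.out]

lemma abs_quadraticChar_le {F : Type*} [Field F] [Fintype F] [DecidableEq F] (a : F) :
    |quadraticChar F a| ≤ 1 := by
  by_cases h : a = 0
  · subst h; simp
  · rcases quadraticChar_dichotomy h with h1 | h1 <;> rw [h1] <;> simp

lemma abs_TT_lt (p : ℕ) (hp : p.Prime) : |TT p| < (p : ℤ) := by
  have := Fact.mk hp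
  rw [TT_prime]
  have h0 : ∑ x : ZMod p, quadraticChar (ZMod p) (x * (x ^ 2 + 6 * x + 2)) =
      ∑ x ∈ (Finset.univ.erase (0 : ZMod p)),
        quadraticChar (ZMod p) (x * (x ^ 2 + 6 * x + 2)) := by
    rw [← Finset.add_sum_erase Finset.univ _ (Finset.mem_univ (0 : ZMod p))]
    simp
  rw [h0]
  have h1 : (Finset.univ.erase (0 : ZMod p)).card = p - 1 := by
    rw [Finset.card_erase_of_mem (Finset.mem_univ _), Finset.card_univ, ZMod.card]
  have hp1 := hp.one_lt
  calc |∑ x ∈ (Finset.univ.erase (0 : ZMod p)), quadraticChar (ZMod p) (x * (x ^ 2 + 6 * x + 2))|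
      ≤ ∑ x ∈ (Finset.univ.erase (0 : ZMod p)),
        |quadraticChar (ZMod p) (x * (x ^ 2 + 6 * x + 2))| := Finset.abs_sum_le_sum_abs _ _
    _ ≤ ∑ _x ∈ (Finset.univ.erase (0 : ZMod p)), (1 : ℤ) :=
        Finset.sum_le_sum fun _ _ => abs_quadraticChar_le _
    _ = (p : ℤ) - 1 := by
        rw [Finset.sum_const, h1]
        simp only [nsmul_eq_mul, mul_one]
        omega
    _ < p := by omega

/-- The value of the coefficient at the inert primes. -/
theorem coeff_inert (hNT1 : CharSumSq) (hNT4 : ResidueCard) (hHYP : HypCount)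
    {K : Type} [Field K] [NumberField K] (p : ℕ) (hp : p.Prime) (h2 : p ≠ 2) (h7 : p ≠ 7)
    (v : HeightOneSpectrum (𝓞 K)) (hv : resCard v = p ^ 2) :
    MvPowerSeries.coeff kapf (zetaCo v (IsIdeal2 v (cc K))) =
      (p : ℤ) ^ 24 * ((p : ℤ) ^ 4 + ((p : ℤ) ^ 2 - 1) * (2 * (p : ℤ) - TT p ^ 2)) := by
  classical
  have := Fact.mk hp
  have hfin := finite_res hNT4 v
  let _ : Fintype (IsLocalRing.ResidueField (Loc v)) := Fintype.ofFinite _
  have hcard : Fintype.card (IsLocalRing.ResidueField (Loc v)) = p ^ 2 := by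
    rw [← Nat.card_eq_fintype_card, hNT4 K v, hv]
  have : CharP (IsLocalRing.ResidueField (Loc v)) p := by
    obtain ⟨r, hr⟩ := CharP.exists (IsLocalRing.ResidueField (Loc v))
    obtain ⟨n, hn1, hn2⟩ := FiniteField.card (IsLocalRing.ResidueField (Loc v)) r
    rw [hcard] at hn2
    have hrp : r = p := by
      have h3 : r ∣ p ^ 2 := by rw [hn2]; exact dvd_pow_self r n.pos.ne'
      exact (Nat.prime_dvd_prime_iff_eq hn1 hp).mp (hn1.dvd_of_dvd_pow h3)
    rwa [hrp] at hr
  have hchar : ringChar (IsLocalRing.ResidueField (Loc v)) ≠ 2 := by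
    rw [ringChar.eq (IsLocalRing.ResidueField (Loc v)) p]
    exact h2
  rw [coeff_zetaCo hNT4, hHYP _ hchar, hNT1 p h2 h7 _ hcard, hcard, hv, TT_prime p]
  push_cast
  ring

/-- No finite family of rational functions describes the cotype ideal zeta function at all but
finitely many primes. -/
theorem not_family (hNT1 : CharSumSq) (hNT2 : NoFiniteFamily) (hNT3 : InertPrimes)
    (hNT4 : ResidueCard) (hHYP : HypCount) (m : ℕ)
    (F G : Fin m → MvPolynomial (Fin 24) (Polynomial ℤ))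
    (E : Set (HeightOneSpectrum (𝓞 (CyclotomicField 4 ℚ)))) (hE : E.Finite)
    (hfu : ∀ v, v ∉ E → ∃ i, IsValueOf (zetaCo v (IsIdeal2 v (cc (CyclotomicField 4 ℚ))))
      (resCard v) (F i) (G i)) : False := by
  choose A B hB h using fun i => coeff_value (F i) (G i) kapf
  -- a bound for the norms of the exceptional primes
  obtain ⟨N, hN⟩ : ∃ N : ℕ, ∀ v ∈ E, resCard v ≤ N := by
    obtain ⟨N, hN⟩ := (hE.image resCard).bddAbove
    exact ⟨N, fun v hv => hN ⟨v, hv, rfl⟩⟩
  refine hNT2 m (fun i => A i - B i * Polynomial.X ^ 14)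
    (fun i => B i * (Polynomial.X ^ 12 * (Polynomial.X - 1))) ?_ (max N 7) TT
    (fun p hp _ _ => abs_TT_lt p hp) ?_
  · intro i
    refine mul_ne_zero (hB i) (mul_ne_zero (pow_ne_zero _ Polynomial.X_ne_zero) ?_)
    exact (Polynomial.monic_X_sub_C (1 : ℤ)).ne_zero
  · intro p hp hpN hp4
    obtain ⟨v, hv⟩ := hNT3 p hp hp4
    have hp7 : 7 < p := lt_of_le_of_lt (le_max_right _ _) hpN
    have hpN' : N < p := lt_of_le_of_lt (le_max_left _ _) hpN
    have hvE : v ∉ E := by
      intro hvE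
      have h1 := hN v hvE
      rw [hv] at h1
      nlinarith
    obtain ⟨i, hi⟩ := hfu v hvE
    have h1 := h i _ _ hi
    rw [coeff_inert hNT1 hNT4 hHYP p hp (by omega) (by omega) v hv, hv] at h1
    refine ⟨i, ?_⟩
    push_cast at h1
    simp only [Polynomial.eval_mul, Polynomial.eval_sub, Polynomial.eval_pow, Polynomial.eval_X,
      Polynomial.eval_one]
    rw [← h1]
    ring

/-- The main theorem, from the blocks. -/
theorem main (hNT1 : CharSumSq) (hNT2 : NoFiniteFamily) (hNT3 : InertPrimes)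
    (hNT4 : ResidueCard) (hHYP : HypCount) :
    ∃ (d : ℕ) (c : StructureConstants (CyclotomicField 4 ℚ) d), IsLieAlg c ∧
      IsUniform (fun v => zetaIdx v (IsIdeal2 v c)) ∧
      IsFinitelyUniform (fun v => zetaIdx v (IsIdeal2 v c)) ∧
      ¬ IsUniform (fun v => zetaCo v (IsIdeal2 v c)) ∧
      ¬ IsFinitelyUniform (fun v => zetaCo v (IsIdeal2 v c)) := by
  refine ⟨24, cc (CyclotomicField 4 ℚ), isLieAlg_cc _, isUniform_idx hNT4,
    ⟨1, fun _ => 1, fun _ => den, fun v => ⟨0, zetaIdx_value hNT4 v⟩⟩, ?_, ?_⟩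
  · rintro ⟨F, G, hE⟩
    refine not_family hNT1 hNT2 hNT3 hNT4 hHYP 1 (fun _ => F) (fun _ => G) _ hE
      (fun v hv => ⟨0, ?_⟩)
    by_contra hcon
    exact hv hcon
  · rintro ⟨m, F, G, h⟩
    exact not_family hNT1 hNT2 hNT3 hNT4 hHYP m F G ∅ Set.finite_empty (fun v _ => h v)

end Pool.Agent.MP_f418a9_al.NF
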