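import Mathlib
import Pool.Agent.Work.MP_f418a9_al.NF.Interface

/-!
# Block NT1
-/

open scoped BigOperators

namespace Pool.Agent.MP_f418a9_al.NF

namespace NT1

section Base

variable {F : Type} [Field F] [Fintype F] [DecidableEq F]

/-- Sums over squares. -/
lemma sum_comp_sq (hF : ringChar F ≠ 2) (H : F → ℤ) :
    ∑ w : F, H (w ^ 2) = ∑ e : F, (1 + quadraticChar F e) * H e := by
  have h1 : ∀ w : F, H (w ^ 2) = ∑ e : F, if w ^ 2 = e then H e else 0 := by
    intro w
    rw [Finset.sum_ite_eq]
    simp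
  simp only [h1]
  rw [Finset.sum_comm]
  refine Finset.sum_congr rfl fun e _ => ?_
  rw [← Finset.sum_filter, Finset.sum_const, nsmul_eq_mul]
  congr 1
  have h2 := quadraticChar_card_sqrts hF e
  rw [add_comm, ← h2]
  congr 2
  ext x
  simp

lemma sum_comp_mul_sq (hF : ringChar F ≠ 2) (g : F) (hg : quadraticChar F g = -1) (H : F → ℤ) :
    ∑ v : F, H (g * v ^ 2) = ∑ e : F, (1 - quadraticChar F e) * H e := by
  have hg0 : g ≠ 0 := by
    rintro rfl
    rw [quadraticChar_zero] at hg
    norm_num at hg
  rw [sum_comp_sq hF (fun e => H (g * e))]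
  refine Fintype.sum_equiv (Equiv.mulLeft₀ g hg0) _ _ (fun e => ?_)
  show (1 + quadraticChar F e) * H (g * e) = (1 - quadraticChar F (g * e)) * H (g * e)
  rw [map_mul, hg]
  ring

lemma sum_quad (hF : ringChar F ≠ 2) (c : F) (hc : c ≠ 0) :
    ∑ y : F, quadraticChar F (y ^ 2 - c) = -1 := by
  rw [sum_comp_sq hF (fun e => quadraticChar F (e - c))]
  have h0 := quadraticChar_sum_zero (F := F) hF
  have h1 : ∑ e : F, quadraticChar F (e - c) = 0 := by
    rw [← h0]
    exact Fintype.sum_equiv (Equiv.subRight c) _ _ (fun e => rfl)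
  have h2 : ∑ e : F, quadraticChar F e * quadraticChar F (e - c) = -1 := by
    rw [← Finset.add_sum_erase Finset.univ _ (Finset.mem_univ (0 : F)), quadraticChar_zero, zero_mul, zero_add]
    have h3 : ∀ e ∈ (Finset.univ : Finset F).erase 0, quadraticChar F e * quadraticChar F (e - c) =
        quadraticChar F (1 - c / e) := by
      intro e he
      have he0 : e ≠ 0 := Finset.ne_of_mem_erase he
      rw [← map_mul]
      have : e * (e - c) = e ^ 2 * (1 - c / e) := by field_simp
      rw [this, map_mul, quadraticChar_sq_one' he0, one_mul]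
    rw [Finset.sum_congr rfl h3]
    have h4 : ∑ e ∈ (Finset.univ : Finset F).erase 0, quadraticChar F (1 - c / e) =
        ∑ u ∈ (Finset.univ : Finset F).erase 0, quadraticChar F (1 - u) := by
      refine Finset.sum_bij' (fun e _ => c / e) (fun u _ => c / u) ?_ ?_ ?_ ?_ ?_
      · intro e he
        exact Finset.mem_erase.mpr ⟨div_ne_zero hc (Finset.ne_of_mem_erase he), Finset.mem_univ _⟩
      · intro e he
        exact Finset.mem_erase.mpr ⟨div_ne_zero hc (Finset.ne_of_mem_erase he), Finset.mem_univ _⟩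
      · intro e he
        have : e ≠ 0 := Finset.ne_of_mem_erase he
        field_simp
      · intro e he
        have : e ≠ 0 := Finset.ne_of_mem_erase he
        field_simp
      · intro e he
        rfl
    rw [h4]
    have h5 : ∑ u : F, quadraticChar F (1 - u) = 0 := by
      rw [← h0]
      exact Fintype.sum_equiv (Equiv.subLeft 1) _ _ (fun e => rfl)
    rw [← Finset.add_sum_erase Finset.univ _ (Finset.mem_univ (0 : F)), sub_zero, map_one] at h5
    linarith
  have h3 : ∀ e : F, (1 + quadraticChar F e) * quadraticChar F (e - c) =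
      quadraticChar F (e - c) + quadraticChar F e * quadraticChar F (e - c) := fun e => by ring
  simp only [h3]
  rw [Finset.sum_add_distrib, h1, h2]
  norm_num

/-- The polynomial `G`. -/
def G (s t : F) : F := t * (2 * s ^ 2 + 6 * (t + 2) * s + t ^ 2 + 32 * t + 4)

omit [Fintype F] [DecidableEq F] in
lemma G_eq (x y : F) : (x * (x ^ 2 + 6 * x + 2)) * (y * (y ^ 2 + 6 * y + 2)) = G (x + y) (x * y) := by
  unfold G; ring

lemma sum_G (hF : ringChar F ≠ 2) (h2 : (2 : F) ≠ 0) (h7 : (7 : F) ≠ 0) :
    ∑ t : F, ∑ s : F, quadraticChar F (G s t) = Fintype.card F := by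
  have h0 := quadraticChar_sum_zero (F := F) hF
  have hq : ∀ t : F, ∑ s : F, quadraticChar F (G s t) =
      quadraticChar F (2 * t) * (if t = 2 then (Fintype.card F : ℤ) - 1 else -1) := by
    intro t
    have h1 : ∀ s : F, quadraticChar F (G s t) = quadraticChar F (2 * t) *
        quadraticChar F ((4 * s + 6 * (t + 2)) ^ 2 - 28 * (t - 2) ^ 2) := by
      intro s
      rw [← map_mul]
      have h4 : (4 : F) ≠ 0 := by
        have : (4 : F) = 2 * 2 := by norm_num
        rw [this]; exact mul_ne_zero h2 h2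
      have : 2 * t * ((4 * s + 6 * (t + 2)) ^ 2 - 28 * (t - 2) ^ 2) = 4 ^ 2 * G s t := by
        unfold G; ring
      rw [this, map_mul, quadraticChar_sq_one' h4, one_mul]
    simp only [h1]
    rw [← Finset.mul_sum]
    congr 1
    have h4 : (4 : F) ≠ 0 := by
      have : (4 : F) = 2 * 2 := by norm_num
      rw [this]; exact mul_ne_zero h2 h2
    have h5 : ∑ s : F, quadraticChar F ((4 * s + 6 * (t + 2)) ^ 2 - 28 * (t - 2) ^ 2) =
        ∑ y : F, quadraticChar F (y ^ 2 - 28 * (t - 2) ^ 2) :=
      Fintype.sum_equiv ((Equiv.mulLeft₀ (4 : F) h4).trans (Equiv.addRight (6 * (t + 2)))) _ _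
        (fun s => rfl)
    rw [h5]
    split_ifs with ht
    · subst ht
      simp only [sub_self]
      have h6 : ∀ y : F, quadraticChar F (y ^ 2 - 28 * 0 ^ 2) = if y = 0 then 0 else 1 := by
        intro y
        have : y ^ 2 - 28 * 0 ^ 2 = y ^ 2 := by ring
        rw [this]
        split_ifs with hy
        · rw [hy]; simp
        · exact quadraticChar_sq_one' hy
      simp only [h6]
      rw [Finset.sum_ite]
      simp only [Finset.sum_const_zero, zero_add, Finset.sum_const, nsmul_eq_mul, mul_one]
      have h7 : (Finset.univ.filter fun y : F => ¬ y = 0) = Finset.univ.erase 0 := by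
        ext y; simp
      rw [h7, Finset.card_erase_of_mem (Finset.mem_univ _), Finset.card_univ,
        Nat.cast_sub Fintype.card_pos]
      simp
    · apply sum_quad hF
      have h28 : (28 : F) ≠ 0 := by
        have : (28 : F) = 2 * 2 * 7 := by norm_num
        rw [this]; exact mul_ne_zero (mul_ne_zero h2 h2) h7
      exact mul_ne_zero h28 (pow_ne_zero _ (sub_ne_zero.mpr ht))
  simp only [hq]
  have h8 : ∀ t : F, quadraticChar F (2 * t) * (if t = 2 then (Fintype.card F : ℤ) - 1 else -1) =
      -(quadraticChar F 2 * quadraticChar F t) +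
        (if t = 2 then quadraticChar F (2 * t) * Fintype.card F else 0) := by
    intro t
    rw [map_mul]
    split_ifs <;> ring
  simp only [h8]
  rw [Finset.sum_add_distrib, Finset.sum_neg_distrib, ← Finset.mul_sum, h0, mul_zero, neg_zero,
    zero_add, Finset.sum_ite_eq']
  simp only [Finset.mem_univ, if_true]
  have : (2 : F) * 2 = 2 ^ 2 := by ring
  rw [this, quadraticChar_sq_one' h2, one_mul]

/-- Change of variables `(s, t) = (2 u, u ^ 2 - e)`. -/
lemma sum_change (h2 : (2 : F) ≠ 0) :
    ∑ u : F, ∑ e : F, quadraticChar F (G (2 * u) (u ^ 2 - e)) =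
      ∑ t : F, ∑ s : F, quadraticChar F (G s t) := by
  rw [Finset.sum_comm (f := fun t s => quadraticChar F (G s t))]
  refine Fintype.sum_equiv (Equiv.mulLeft₀ (2 : F) h2) _ _ (fun u => ?_)
  exact Fintype.sum_equiv (Equiv.subLeft (u ^ 2)) _ _ (fun e => rfl)

end Base

end NT1

open NT1 in
theorem charSumSq : CharSumSq := by
  intro p _ hp2 hp7 k _ _ _ _ hk
  classical
  have hpp : p.Prime := Fact.out
  have hp3 : 3 ≤ p := by
    have := hpp.two_le
    omega
  set F := ZMod p with hF
  have hcF : ringChar F ≠ 2 := by rw [ZMod.ringChar_zmod_n]; exact hp2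
  have hck : ringChar k ≠ 2 := by
    rw [ringChar.eq k p]; exact hp2
  have hnz : ∀ n : ℕ, 0 < n → n.Prime → n ≠ p → (n : F) ≠ 0 := by
    intro n hn hnp hne h0
    rw [ZMod.natCast_eq_zero_iff] at h0
    exact hne ((Nat.prime_dvd_prime_iff_eq hpp hnp).mp h0).symm
  have h2 : (2 : F) ≠ 0 := by exact_mod_cast hnz 2 (by norm_num) Nat.prime_two (Ne.symm hp2)
  have h7 : (7 : F) ≠ 0 := by exact_mod_cast hnz 7 (by norm_num) (by norm_num) (Ne.symm hp7)
  set φ : F →+* k := ZMod.castHom (dvd_refl p) k with hφ
  have hφinj : Function.Injective φ := φ.injective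
  -- a nonresidue
  obtain ⟨g, hg⟩ := quadraticChar_exists_neg_one (F := F) hcF
  have hg0 : g ≠ 0 := by
    rintro rfl
    rw [quadraticChar_zero] at hg
    norm_num at hg
  have hφg0 : φ g ≠ 0 := (map_ne_zero φ).mpr hg0
  have hpodd : p % 2 = 1 := hpp.eq_two_or_odd.resolve_left hp2
  have hdiv : Fintype.card k / 2 = (p + 1) * (p / 2) := by
    rw [hk]
    obtain ⟨m, hm⟩ : ∃ m, p = 2 * m + 1 := ⟨p / 2, by omega⟩
    have e1 : p / 2 = m := by omega
    have e2 : p ^ 2 = 2 * ((p + 1) * m) + 1 := by rw [hm]; ring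
    rw [e1]
    omega
  have hpow : ∀ a : F, φ a ^ p = φ a := by
    intro a
    rw [← map_pow, ZMod.pow_card]
  have hchar : ∀ a : F, ((quadraticChar F a : ℤ) : k) = φ a ^ (p / 2) := by
    intro a
    have h := quadraticChar_eq_pow_of_char_ne_two' (F := F) hcF a
    rw [ZMod.card] at h
    have h' := congrArg φ h
    rw [map_intCast, map_pow] at h'
    exact h'
  have hchark : ∀ z : k, ((quadraticChar k z : ℤ) : k) = (z ^ (p + 1)) ^ (p / 2) := by
    intro z
    rw [quadraticChar_eq_pow_of_char_ne_two' (F := k) hck z, hdiv, pow_mul]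
  -- comparing the characters
  have hcmp : ∀ (z : k) (n : F), z ^ (p + 1) = φ n → quadraticChar k z = quadraticChar F n := by
    intro z n h
    have h1 : ((quadraticChar k z : ℤ) : k) = ((quadraticChar F n : ℤ) : k) := by
      rw [hchark, hchar, h]
    have h3 : (((quadraticChar k z : ℤ) - (quadraticChar F n : ℤ) : ℤ) : k) = 0 := by
      push_cast
      rw [h1, sub_self]
    rw [CharP.intCast_eq_zero_iff k p] at h3
    have b1 : |(quadraticChar k z : ℤ)| ≤ 1 := by
      by_cases hz : z = 0
      · rw [hz, quadraticChar_zero]; norm_num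
      · rcases quadraticChar_dichotomy hz with h | h <;> rw [h] <;> norm_num
    have b2 : |(quadraticChar F n : ℤ)| ≤ 1 := by
      by_cases hz : n = 0
      · rw [hz, quadraticChar_zero]; norm_num
      · rcases quadraticChar_dichotomy hz with h | h <;> rw [h] <;> norm_num
    have h4 := Int.eq_zero_of_abs_lt_dvd h3 (by
      have := abs_sub (quadraticChar k z : ℤ) (quadraticChar F n : ℤ)
      have : (3 : ℤ) ≤ p := by exact_mod_cast hp3
      rw [abs_le] at b1 b2
      rw [abs_lt]
      constructor <;> linarith [b1.1, b1.2, b2.1, b2.2])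
    linarith
  -- the square root of `g` in `k`
  obtain ⟨r, hr⟩ : ∃ r : k, r ^ 2 = φ g := by
    have h1 : quadraticChar k (φ g) = 1 := by
      have h3 := hcmp (φ g) (g ^ 2) (by
        rw [pow_succ, hpow, map_pow]; ring)
      rw [h3, quadraticChar_sq_one' hg0]
    have h4 := (quadraticChar_one_iff_isSquare hφg0).mp h1
    obtain ⟨r, hr⟩ := h4
    exact ⟨r, by rw [hr]; ring⟩
  have hr0 : r ≠ 0 := by
    rintro rfl
    rw [zero_pow two_ne_zero] at hr
    exact hφg0 hr.symm
  have hrp : r ^ p = -r := by
    obtain ⟨m, hm⟩ : ∃ m, p = 2 * m + 1 := ⟨p / 2, by omega⟩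
    have e1 : p / 2 = m := by omega
    have h1 := hchar g
    rw [hg, e1] at h1
    have : r ^ p = (r ^ 2) ^ m * r := by
      conv_lhs => rw [hm]
      rw [pow_succ, pow_mul]
    rw [this, hr, ← h1]
    push_cast
    ring
  -- the parametrisation of `k`
  have hbij : Function.Bijective (fun x : F × F => φ x.1 + φ x.2 * r) := by
    rw [Fintype.bijective_iff_injective_and_card]
    constructor
    · rintro ⟨u, v⟩ ⟨u', v'⟩ h
      simp only at h
      have h1 : φ (u - u') + φ (v - v') * r = 0 := by
        rw [map_sub, map_sub]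
        linear_combination h
      by_cases hv : v - v' = 0
      · rw [hv, map_zero, zero_mul, add_zero] at h1
        have h3 := (map_eq_zero φ).mp h1
        rw [Prod.mk.injEq]
        exact ⟨sub_eq_zero.mp h3, sub_eq_zero.mp hv⟩
      · exfalso
        have hφv : φ (v - v') ≠ 0 := (map_ne_zero φ).mpr hv
        have h3 : r = φ (-(u - u') / (v - v')) := by
          rw [map_div₀, map_neg, eq_div_iff hφv]
          linear_combination h1
        have h4 : g = (-(u - u') / (v - v')) ^ 2 := by
          apply hφinj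
          rw [map_pow, ← h3, hr]
        have h5 : -(u - u') / (v - v') ≠ 0 := by
          intro h0
          rw [h0, zero_pow two_ne_zero] at h4
          exact hg0 h4
        rw [h4, quadraticChar_sq_one' h5] at hg
        norm_num at hg
    · rw [Fintype.card_prod, ZMod.card, hk]; ring
  -- the sum over `k`
  have hsumk : ∑ x : k, quadraticChar k (x * (x ^ 2 + 6 * x + 2)) =
      ∑ u : F, ∑ v : F, quadraticChar F (G (2 * u) (u ^ 2 - g * v ^ 2)) := by
    rw [← Fintype.sum_prod_type' (f := fun u v => quadraticChar F (G (2 * u) (u ^ 2 - g * v ^ 2)))]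
    symm
    refine Fintype.sum_bijective _ hbij _ _ (fun x => ?_)
    obtain ⟨u, v⟩ := x
    simp only
    symm
    apply hcmp
    set z : k := φ u + φ v * r with hz
    have hzp : z ^ p = φ u - φ v * r := by
      have : z ^ p = frobenius k p z := rfl
      rw [this, hz, map_add, map_mul, frobenius_def, frobenius_def, frobenius_def, hpow, hpow, hrp]
      ring
    have hfz : (z * (z ^ 2 + 6 * z + 2)) ^ p = z ^ p * ((z ^ p) ^ 2 + 6 * z ^ p + 2) := by
      have h : ∀ y : k, y ^ p = frobenius k p y := fun y => rfl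
      rw [h, h]
      simp only [map_mul, map_add, map_pow, map_ofNat]
    rw [pow_succ, hfz, mul_comm, G_eq]
    rw [hzp]
    have e1 : z + (φ u - φ v * r) = 2 * φ u := by rw [hz]; ring
    have e2 : z * (φ u - φ v * r) = φ u ^ 2 - φ g * φ v ^ 2 := by rw [hz, ← hr]; ring
    rw [e1, e2]
    unfold G
    simp only [map_mul, map_add, map_sub, map_pow, map_ofNat]
  -- the square of the sum over `F`
  have hsumF : (∑ x : F, quadraticChar F (x * (x ^ 2 + 6 * x + 2))) ^ 2 =
      ∑ u : F, ∑ w : F, quadraticChar F (G (2 * u) (u ^ 2 - w ^ 2)) := by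
    rw [sq, Finset.sum_mul_sum,
      ← Fintype.sum_prod_type' (f := fun x y => quadraticChar F (x * (x ^ 2 + 6 * x + 2)) *
        quadraticChar F (y * (y ^ 2 + 6 * y + 2))),
      ← Fintype.sum_prod_type' (f := fun u w => quadraticChar F (G (2 * u) (u ^ 2 - w ^ 2)))]
    symm
    have hb : Function.Bijective (fun x : F × F => (x.1 + x.2, x.1 - x.2)) := by
      apply Function.Injective.bijective_of_finite
      rintro ⟨u, w⟩ ⟨u', w'⟩ h
      rw [Prod.mk.injEq] at h
      obtain ⟨h3, h4⟩ := h
      simp only at h3 h4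
      rw [Prod.mk.injEq]
      constructor
      · apply mul_left_cancel₀ h2
        linear_combination h3 + h4
      · apply mul_left_cancel₀ h2
        linear_combination h3 - h4
    refine Fintype.sum_bijective _ hb _ _ (fun x => ?_)
    obtain ⟨u, w⟩ := x
    simp only
    rw [← map_mul, G_eq]
    congr 2
    · ring
    · ring
  have hkey : ∀ u : F, ∑ v : F, quadraticChar F (G (2 * u) (u ^ 2 - g * v ^ 2)) +
      ∑ w : F, quadraticChar F (G (2 * u) (u ^ 2 - w ^ 2)) =
      2 * ∑ e : F, quadraticChar F (G (2 * u) (u ^ 2 - e)) := by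
    intro u
    have e1 := sum_comp_mul_sq hcF g hg (fun e => quadraticChar F (G (2 * u) (u ^ 2 - e)))
    have e2 := sum_comp_sq hcF (fun e => quadraticChar F (G (2 * u) (u ^ 2 - e)))
    rw [e1, e2, ← Finset.sum_add_distrib, Finset.mul_sum]
    refine Finset.sum_congr rfl fun e _ => ?_
    ring
  have htotal : ∑ x : k, quadraticChar k (x * (x ^ 2 + 6 * x + 2)) +
      (∑ x : F, quadraticChar F (x * (x ^ 2 + 6 * x + 2))) ^ 2 = 2 * p := by
    rw [hsumk, hsumF, ← Finset.sum_add_distrib]
    simp only [hkey]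
    rw [← Finset.mul_sum, sum_change h2, sum_G hcF h2 h7, ZMod.card]
  linarith

end Pool.Agent.MP_f418a9_al.NF
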