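import Mathlib
import Pool.Agent.Work.MP_f418a9_al.NF.Interface

/-!
# Block NT2
-/

open scoped BigOperators
open Filter Polynomial

namespace Pool.Agent.MP_f418a9_al.NF

/-! ### Integral values of rational functions -/

/-- If `B(q) v = A(q)` with `v` an integer and `q` large then `D v = T(q)` for fixed `D`, `T`. -/
lemma exists_poly (A B : ℤ[X]) (hB : B ≠ 0) :
    ∃ (D : ℤ) (T : ℤ[X]) (N : ℕ), 0 < D ∧ ∀ q : ℕ, N < q → ∀ v : ℤ,
      B.eval (q : ℤ) * v = A.eval (q : ℤ) → D * v = T.eval (q : ℤ) := by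
  set f : ℤ →+* ℚ := Int.castRingHom ℚ with hf
  have hfinj : Function.Injective f := Int.cast_injective
  set A' : ℚ[X] := A.map f with hA'
  set B' : ℚ[X] := B.map f with hB'
  have hB'0 : B' ≠ 0 := (Polynomial.map_ne_zero_iff hfinj).mpr hB
  set Qt : ℚ[X] := A' / B' with hQt
  set R : ℚ[X] := A' % B' with hR
  have hdiv : A' = B' * Qt + R := (EuclideanDomain.div_add_mod A' B').symm
  have hdeg : R.degree < B'.degree := EuclideanDomain.mod_lt A' hB'0
  obtain ⟨b, hb, hbT⟩ := IsLocalization.integerNormalization_spec (nonZeroDivisors ℤ) Qt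
  have hb0 : b ≠ 0 := nonZeroDivisors.ne_zero hb
  -- replace `b` by a positive integer
  obtain ⟨D, T, hD, hT⟩ : ∃ (D : ℤ) (T : ℤ[X]), 0 < D ∧ T.map f = C (D : ℚ) * Qt := by
    rcases lt_or_gt_of_ne hb0 with h | h
    · refine ⟨-b, -IsLocalization.integerNormalization (nonZeroDivisors ℤ) Qt, by omega, ?_⟩
      have e : (IsLocalization.integerNormalization (nonZeroDivisors ℤ) Qt).map f = b • Qt := hbT
      rw [Polynomial.map_neg, e, zsmul_eq_mul, Int.cast_neg, C_neg, neg_mul]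
      congr 1
    · refine ⟨b, IsLocalization.integerNormalization (nonZeroDivisors ℤ) Qt, h, ?_⟩
      have e : (IsLocalization.integerNormalization (nonZeroDivisors ℤ) Qt).map f = b • Qt := hbT
      rw [e, zsmul_eq_mul]
      congr 1
  -- the remainder is small
  set g : ℚ →+* ℝ := Rat.castHom ℝ with hg
  have hginj : Function.Injective g := Rat.cast_injective
  have hdeg' : (C (D : ℝ) * R.map g).degree < (B'.map g).degree := by
    rw [Polynomial.degree_map_eq_of_injective hginj]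
    refine lt_of_le_of_lt ?_ hdeg
    rw [Polynomial.degree_mul, Polynomial.degree_C (by exact_mod_cast hD.ne'), zero_add,
      Polynomial.degree_map_eq_of_injective hginj]
  have hlim := Polynomial.div_tendsto_atTop_zero_of_degree_lt _ _ hdeg'
  have hev := (hlim.eventually (Metric.ball_mem_nhds (0 : ℝ) one_pos))
  have hroot := Polynomial.eventually_atTop_not_isRoot (B'.map g)
    ((Polynomial.map_ne_zero_iff hginj).mpr hB'0)
  obtain ⟨x0, hx0⟩ := (hev.and hroot).exists_forall_of_atTop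
  obtain ⟨N, hN⟩ := exists_nat_gt x0
  refine ⟨D, T, N, hD, fun q hq v hv => ?_⟩
  have hqx : x0 ≤ (q : ℝ) := hN.le.trans (by exact_mod_cast hq.le)
  obtain ⟨h1, h2⟩ := hx0 (q : ℝ) hqx
  -- rational identities
  have evf : ∀ P : ℤ[X], (P.map f).eval (q : ℚ) = ((P.eval (q : ℤ) : ℤ) : ℚ) := by
    intro P
    simp [hf]
  have evg : ∀ P : ℚ[X], (P.map g).eval (q : ℝ) = ((P.eval (q : ℚ) : ℚ) : ℝ) := by
    intro P
    simp [hg]
  have e1 : (B'.eval (q : ℚ)) * (v : ℚ) = A'.eval (q : ℚ) := by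
    rw [hB', hA', evf, evf, ← hv]; push_cast; ring
  have e2 : A'.eval (q : ℚ) = B'.eval (q : ℚ) * Qt.eval (q : ℚ) + R.eval (q : ℚ) := by
    conv_lhs => rw [hdiv]
    rw [Polynomial.eval_add, Polynomial.eval_mul]
  have e3 : ((T.eval (q : ℤ) : ℤ) : ℚ) = D * Qt.eval (q : ℚ) := by
    rw [← evf, hT, Polynomial.eval_mul, Polynomial.eval_C]
  have hBq : B'.eval (q : ℚ) ≠ 0 := by
    intro h0
    apply h2
    rw [Polynomial.IsRoot, evg, h0]; simp
  have e4 : ((D * v - T.eval (q : ℤ) : ℤ) : ℚ) = D * R.eval (q : ℚ) / B'.eval (q : ℚ) := by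
    rw [eq_div_iff hBq]
    push_cast
    rw [e3]
    have : B'.eval (q : ℚ) * (v : ℚ) = B'.eval (q : ℚ) * Qt.eval (q : ℚ) + R.eval (q : ℚ) := by
      rw [e1, e2]
    linear_combination (D : ℚ) * this
  have e5 : |((D * v - T.eval (q : ℤ) : ℤ) : ℝ)| < 1 := by
    have h3 : ‖(C (D : ℝ) * R.map g).eval (q : ℝ) / (B'.map g).eval (q : ℝ)‖ < 1 := by
      simpa using h1
    rw [Real.norm_eq_abs] at h3
    convert h3 using 2
    rw [Polynomial.eval_mul, Polynomial.eval_C, evg, evg]
    have := congrArg (fun z : ℚ => (z : ℝ)) e4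
    push_cast at this ⊢
    linarith
  have e6 : |D * v - T.eval (q : ℤ)| < 1 := by exact_mod_cast e5
  have e7 : D * v - T.eval (q : ℤ) = 0 := Int.abs_lt_one_iff.mp e6
  linarith

/-- Linear growth. -/
lemma natDegree_le_one (T : ℤ[X]) (D : ℤ)
    (h : ∀ N : ℕ, ∃ q : ℕ, N < q ∧ |T.eval (q : ℤ)| ≤ D * q) : T.natDegree ≤ 1 := by
  by_contra hcon
  push Not at hcon
  set g : ℤ →+* ℝ := Int.castRingHom ℝ with hg
  have hginj : Function.Injective g := Int.cast_injective
  have hT0 : T ≠ 0 := by rintro rfl; simp at hcon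
  have hdeg : (C (D : ℝ) * X : ℝ[X]).degree < (T.map g).degree := by
    rw [Polynomial.degree_map_eq_of_injective hginj]
    refine lt_of_le_of_lt (Polynomial.degree_C_mul_X_le _) ?_
    rw [Polynomial.degree_eq_natDegree hT0]
    exact_mod_cast hcon
  have hlim := Polynomial.div_tendsto_atTop_zero_of_degree_lt _ _ hdeg
  have hev := (hlim.eventually (Metric.ball_mem_nhds (0 : ℝ) one_pos))
  have hroot := Polynomial.eventually_atTop_not_isRoot (T.map g)
    ((Polynomial.map_ne_zero_iff hginj).mpr hT0)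
  obtain ⟨x0, hx0⟩ := (hev.and hroot).exists_forall_of_atTop
  obtain ⟨N, hN⟩ := exists_nat_gt x0
  obtain ⟨q, hq, hqT⟩ := h N
  have hqx : x0 ≤ (q : ℝ) := hN.le.trans (by exact_mod_cast hq.le)
  obtain ⟨h1, h2⟩ := hx0 (q : ℝ) hqx
  have evg : (T.map g).eval (q : ℝ) = ((T.eval (q : ℤ) : ℤ) : ℝ) := by
    simp [hg]
  have hne : ((T.eval (q : ℤ) : ℤ) : ℝ) ≠ 0 := by
    intro h0; apply h2; rw [Polynomial.IsRoot, evg, h0]
  have h3 : ‖(C (D : ℝ) * X : ℝ[X]).eval (q : ℝ) / (T.map g).eval (q : ℝ)‖ < 1 := by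
    simpa using h1
  rw [Real.norm_eq_abs, evg, abs_div, div_lt_one (abs_pos.mpr hne)] at h3
  have h4 : |((T.eval (q : ℤ) : ℤ) : ℝ)| ≤ D * q := by exact_mod_cast hqT
  have h5 : (C (D : ℝ) * X : ℝ[X]).eval (q : ℝ) = D * q := by simp
  rw [h5] at h3
  have := le_abs_self ((D : ℝ) * q)
  linarith

/-! ### The degenerate case -/

lemma degenerate (M u c s : ℤ) (p : ℕ) (hM : 0 < M) (hp : p.Prime) (hMp : M < p)
    (hΔ : M ^ 2 + u * c = 0) (hs : |s| < p) (h : M * s ^ 2 = u * (p : ℤ) ^ 2 + 2 * M * p - c) :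
    False := by
  have hu : u ≠ 0 := by
    rintro rfl
    have : M ^ 2 = 0 := by linarith
    have := pow_eq_zero_iff (two_ne_zero) |>.mp this
    omega
  have hp0 : (0 : ℤ) < p := by exact_mod_cast hp.pos
  have h1 : u * M * s ^ 2 = (u * p + M) ^ 2 := by
    have : u * (M * s ^ 2) = u * (u * (p : ℤ) ^ 2 + 2 * M * p - c) := by rw [h]
    linear_combination this - hΔ
  -- lowest terms
  obtain ⟨g, n, d, hg, hcop, hun, hMd⟩ : ∃ (g n d : ℤ), 0 < g ∧ IsCoprime n d ∧ u = g * n ∧
      M = g * d := by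
    have hg : 0 < Int.gcd u M := Int.gcd_pos_of_ne_zero_left _ hu
    refine ⟨Int.gcd u M, u / Int.gcd u M, M / Int.gcd u M, by exact_mod_cast hg, ?_, ?_, ?_⟩
    · rw [Int.isCoprime_iff_gcd_eq_one]
      exact Int.gcd_div_gcd_div_gcd hg
    · exact (Int.mul_ediv_cancel' (Int.gcd_dvd_left ..)).symm
    · exact (Int.mul_ediv_cancel' (Int.gcd_dvd_right ..)).symm
  have hd : 0 < d := by
    have : 0 < g * d := by rw [← hMd]; exact hM
    exact (mul_pos_iff_of_pos_left hg).mp this
  have h2 : n * d * s ^ 2 = (n * p + d) ^ 2 := by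
    have hg2 : g ^ 2 ≠ 0 := by positivity
    apply mul_left_cancel₀ hg2
    rw [hun, hMd] at h1
    linear_combination h1
  have hn1 : n ∣ d ^ 2 := by
    have : d ^ 2 = n * (d * s ^ 2 - n * p ^ 2 - 2 * p * d) := by linear_combination (-1 : ℤ) * h2
    rw [this]; exact Dvd.intro _ rfl
  have hn2 : IsUnit n := (hcop.pow_right).isUnit_of_dvd' (dvd_refl n) hn1
  have hd1 : d ∣ (p : ℤ) ^ 2 := by
    have : n ^ 2 * (p : ℤ) ^ 2 = d * (n * s ^ 2 - 2 * n * p - d) := by
      linear_combination (-1 : ℤ) * h2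
    have h3 : d ∣ n ^ 2 * (p : ℤ) ^ 2 := by rw [this]; exact Dvd.intro _ rfl
    exact (hcop.symm.pow_right).dvd_of_dvd_mul_left h3
  have hd2 : d = 1 := by
    have h3 : d.natAbs ∣ p ^ 2 := by
      have := Int.natAbs_dvd_natAbs.mpr hd1
      simpa [Int.natAbs_pow] using this
    have h4 : d.natAbs < p := by
      have : d ≤ M := by rw [hMd]; nlinarith
      omega
    obtain ⟨j, hj, hj2⟩ := (Nat.dvd_prime_pow hp).mp h3
    rcases Nat.eq_zero_or_pos j with h0 | h0
    · rw [h0, pow_zero] at hj2; omega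
    · have : p ≤ p ^ j := Nat.le_self_pow h0.ne' p
      omega
  rw [hd2] at h2
  rcases Int.isUnit_iff.mp hn2 with h3 | h3
  · rw [h3] at h2
    have h4 : s ^ 2 = ((p : ℤ) + 1) ^ 2 := by linear_combination h2
    have h5 : s ^ 2 < (p : ℤ) ^ 2 := sq_lt_sq' (by linarith [(abs_lt.mp hs).1]) (abs_lt.mp hs).2
    nlinarith
  · rw [h3] at h2
    have h4 : s ^ 2 + ((p : ℤ) - 1) ^ 2 = 0 := by linear_combination (-1 : ℤ) * h2
    have h5 : (1 : ℤ) < p := by exact_mod_cast hp.one_lt
    nlinarith [sq_nonneg s]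

/-! ### The obstruction modulo `l` -/

/-- A conic `M s^2 = u r^2 + 2 M r - c` does not have points over all `r ≠ 0`. -/
lemma conic_obstruction (l : ℕ) [Fact l.Prime] (hl : 11 ≤ l) (M u c : ZMod l) (hM : M ≠ 0)
    (hΔ : M ^ 2 + u * c ≠ 0) : ∃ r : ZMod l, r ≠ 0 ∧ ∀ s, M * s ^ 2 ≠ u * r ^ 2 + 2 * M * r - c := by
  classical
  by_contra hcon
  push Not at hcon
  have h2 : (2 : ZMod l) ≠ 0 := by
    intro h0
    have : ((2 : ℕ) : ZMod l) = 0 := by exact_mod_cast h0
    rw [ZMod.natCast_eq_zero_iff] at this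
    have := Nat.le_of_dvd (by norm_num) this
    omega
  choose! s hs using hcon
  set s0 := s 1 with hs0
  have e0 : M * s0 ^ 2 = u * 1 ^ 2 + 2 * M * 1 - c := hs 1 one_ne_zero
  set P : Polynomial (ZMod l) := C u * X ^ 2 + C (2 * M) * X - C c with hP
  have hP0 : P ≠ 0 := by
    intro h0
    have : P.coeff 1 = 0 := by rw [h0]; simp
    rw [hP] at this
    simp [Polynomial.coeff_C, Polynomial.coeff_X_pow] at this
    rcases this with h | h
    · exact h2 h
    · exact hM h
  have hPdeg : P.natDegree ≤ 2 := by rw [hP]; compute_degree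
  set T : Finset (ZMod l) := Finset.univ.filter (fun r => r ≠ 0 ∧ r ≠ 1 ∧ s r ≠ 0) with hT
  have hTc : l ≤ T.card + 4 := by
    have h3 : (Finset.univ : Finset (ZMod l)) ⊆ T ∪ ({0, 1} ∪ P.roots.toFinset) := by
      intro r _
      rw [Finset.mem_union, Finset.mem_union, hT, Finset.mem_filter]
      by_cases a1 : r = 0
      · right; left; simp [a1]
      by_cases a2 : r = 1
      · right; left; simp [a2]
      by_cases a3 : s r = 0
      · right; right
        rw [Multiset.mem_toFinset, Polynomial.mem_roots hP0, Polynomial.IsRoot, hP]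
        have := hs r a1
        rw [a3] at this
        simp only [Polynomial.eval_sub, Polynomial.eval_add, Polynomial.eval_mul,
          Polynomial.eval_C, Polynomial.eval_pow, Polynomial.eval_X]
        rw [← this]; ring
      · left; exact ⟨Finset.mem_univ _, a1, a2, a3⟩
    have h4 := Finset.card_le_card h3
    rw [Finset.card_univ, ZMod.card] at h4
    have h5 := Finset.card_union_le T ({0, 1} ∪ P.roots.toFinset)
    have h6 := Finset.card_union_le ({0, 1} : Finset (ZMod l)) P.roots.toFinset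
    have h7 : ({0, 1} : Finset (ZMod l)).card ≤ 2 := Finset.card_le_two
    have h8 : P.roots.toFinset.card ≤ 2 :=
      (Multiset.toFinset_card_le _).trans ((Polynomial.card_roots' P).trans hPdeg)
    omega
  -- slopes
  let φ : ZMod l × Bool → ZMod l := fun x =>
    ((if x.2 then s x.1 else - s x.1) - s0) / (x.1 - 1)
  have hinj : Set.InjOn φ ((T ×ˢ (Finset.univ : Finset Bool) : Finset _) : Set (ZMod l × Bool)) := by
    rintro ⟨r, b⟩ hr ⟨r', b'⟩ hr' heq
    rw [Finset.mem_coe, Finset.mem_product, hT, Finset.mem_filter] at hr hr'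
    obtain ⟨⟨-, hr0, hr1, hrs⟩, -⟩ := hr
    obtain ⟨⟨-, hr0', hr1', hrs'⟩, -⟩ := hr'
    simp only at hr0 hr1 hrs hr0' hr1' hrs'
    have key : ∀ (r : ZMod l) (b : Bool), r ≠ 0 → r ≠ 1 →
        (r - 1) * (M * (φ (r, b)) ^ 2 - u) = 2 * u + 2 * M - 2 * M * s0 * φ (r, b) := by
      intro r b h0 h1
      have h1' : r - 1 ≠ 0 := sub_ne_zero.mpr h1
      set t : ZMod l := (if b then s r else - s r) with ht
      have ht2 : M * t ^ 2 = u * r ^ 2 + 2 * M * r - c := by
        rw [← hs r h0, ht]; split_ifs <;> ring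
      have hm : φ (r, b) * (r - 1) = t - s0 := by
        show (t - s0) / (r - 1) * (r - 1) = t - s0
        rw [div_mul_cancel₀ _ h1']
      have ht3 : t = s0 + φ (r, b) * (r - 1) := by rw [hm]; ring
      rw [ht3] at ht2
      apply mul_left_cancel₀ h1'
      linear_combination ht2 - e0
    have k1 := key r b hr0 hr1
    have k2 := key r' b' hr0' hr1'
    rw [← heq] at k2
    set m := φ (r, b) with hm
    have hne : M * m ^ 2 - u ≠ 0 := by
      intro h0
      rw [h0, mul_zero] at k1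
      have k3 : u + M = M * s0 * m := by
        apply mul_left_cancel₀ h2
        linear_combination (-1 : ZMod l) * k1
      apply hΔ
      have k4 : u = M * m ^ 2 := by linear_combination -h0
      have k5 : (u + M) ^ 2 = M * s0 ^ 2 * u := by
        rw [k3, k4]; ring
      rw [e0] at k5
      linear_combination k5
    have hrr : r = r' := by
      have : (r - 1) * (M * m ^ 2 - u) = (r' - 1) * (M * m ^ 2 - u) := by rw [k1, k2]
      have := mul_right_cancel₀ hne this
      linear_combination this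
    subst hrr
    have hb : b = b' := by
      by_contra hbb
      have h1' : r - 1 ≠ 0 := sub_ne_zero.mpr hr1
      have k6 : (if b then s r else - s r) = (if b' then s r else - s r) := by
        have k7 : ((if b then s r else - s r) - s0) / (r - 1) =
          ((if b' then s r else - s r) - s0) / (r - 1) := heq
        have := (div_left_inj' h1').mp k7
        linear_combination this
      have k8 : s r = - s r := by
        cases b <;> cases b'
        · exact absurd rfl hbb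
        · simp only [Bool.false_eq_true, if_false, if_true] at k6
          exact k6.symm
        · simp only [Bool.false_eq_true, if_false, if_true] at k6
          exact k6
        · exact absurd rfl hbb
      apply hrs
      have : 2 * s r = 0 := by linear_combination k8
      exact (mul_eq_zero.mp this).resolve_left h2
    rw [hb]
  have hcard := Finset.card_le_card_of_injOn φ (fun x _ => Finset.mem_coe.mpr (Finset.mem_univ (φ x))) hinj
  rw [Finset.card_product, Finset.card_univ, Fintype.card_bool, Finset.card_univ, ZMod.card] at hcard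
  omega

/-! ### One pair of polynomials -/

lemma one_step (A B : ℤ[X]) (hB : B ≠ 0) (N : ℕ) (S : ℕ → ℤ)
    (hS : ∀ p : ℕ, p.Prime → N < p → p % 4 = 3 → |S p| < (p : ℤ))
    (Q a : ℕ) (hQ : 0 < Q) (h4 : 4 ∣ Q) (ha : a % 4 = 3) (hcop : a.Coprime Q) :
    ∃ Q' a' N' : ℕ, 0 < Q' ∧ Q ∣ Q' ∧ a' ≡ a [MOD Q] ∧ a'.Coprime Q' ∧
      ∀ p : ℕ, p.Prime → N' < p → p ≡ a' [MOD Q'] →
        ¬ (B.eval ((p : ℤ) ^ 2) * (2 * (p : ℤ) - S p ^ 2) = A.eval ((p : ℤ) ^ 2)) := by
  classical
  by_cases hfin : ∃ N' : ℕ, ∀ p : ℕ, p.Prime → N' < p → p ≡ a [MOD Q] →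
      ¬ (B.eval ((p : ℤ) ^ 2) * (2 * (p : ℤ) - S p ^ 2) = A.eval ((p : ℤ) ^ 2))
  · obtain ⟨N', hN'⟩ := hfin
    exact ⟨Q, a, N', hQ, dvd_rfl, Nat.ModEq.rfl, hcop, hN'⟩
  push Not at hfin
  have hmod4 : ∀ p : ℕ, p ≡ a [MOD Q] → p % 4 = 3 := by
    intro p hp
    have h1 : p ≡ a [MOD 4] := Nat.ModEq.of_dvd h4 hp
    unfold Nat.ModEq at h1
    omega
  obtain ⟨D, T, N1, hD, hT⟩ := exists_poly A B hB
  have hrel : ∀ p : ℕ, N1 < p →
      B.eval ((p : ℤ) ^ 2) * (2 * (p : ℤ) - S p ^ 2) = A.eval ((p : ℤ) ^ 2) →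
      D * (2 * (p : ℤ) - S p ^ 2) = T.eval ((p : ℤ) ^ 2) := by
    intro p hp h
    have h1 : N1 < p ^ 2 := lt_of_lt_of_le hp (Nat.le_self_pow two_ne_zero p)
    have h2 := hT (p ^ 2) h1 (2 * (p : ℤ) - S p ^ 2)
    push_cast at h2
    exact h2 h
  -- the degree of `T`
  have hdegT : T.natDegree ≤ 1 := by
    refine natDegree_le_one T D fun K => ?_
    obtain ⟨p, hp, hpK, hpa, hpr⟩ := hfin (max (max K N1) (max N 2))
    have b1 : K < p := lt_of_le_of_lt ((le_max_left _ _).trans (le_max_left _ _)) hpK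
    have b2 : N1 < p := lt_of_le_of_lt ((le_max_right _ _).trans (le_max_left _ _)) hpK
    have b3 : N < p := lt_of_le_of_lt ((le_max_left _ _).trans (le_max_right _ _)) hpK
    have b4 : 2 < p := lt_of_le_of_lt ((le_max_right _ _).trans (le_max_right _ _)) hpK
    refine ⟨p ^ 2, lt_of_lt_of_le b1 (Nat.le_self_pow two_ne_zero p), ?_⟩
    have h1 := hrel p b2 hpr
    push_cast
    rw [← h1, abs_mul, abs_of_pos hD]
    refine mul_le_mul_of_nonneg_left ?_ hD.le
    have h2 := abs_lt.mp (hS p hp b3 (hmod4 p hpa))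
    have h3 : (S p) ^ 2 < (p : ℤ) ^ 2 := sq_lt_sq' h2.1 h2.2
    have h5 : (2 : ℤ) < p := by exact_mod_cast b4
    rw [abs_le]
    constructor
    · nlinarith
    · nlinarith [sq_nonneg (S p)]
  obtain ⟨t1, t0, hT1⟩ : ∃ t1 t0 : ℤ, T = C t1 * X + C t0 :=
    ⟨T.coeff 1, T.coeff 0, Polynomial.eq_X_add_C_of_natDegree_le_one hdegT⟩
  have hrel2 : ∀ p : ℕ, N1 < p →
      B.eval ((p : ℤ) ^ 2) * (2 * (p : ℤ) - S p ^ 2) = A.eval ((p : ℤ) ^ 2) →
      D * S p ^ 2 = (-t1) * (p : ℤ) ^ 2 + 2 * D * p - t0 := by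
    intro p hp h
    have h1 := hrel p hp h
    rw [hT1] at h1
    simp only [Polynomial.eval_add, Polynomial.eval_mul, Polynomial.eval_C, Polynomial.eval_X] at h1
    linear_combination (-1 : ℤ) * h1
  by_cases hΔ : D ^ 2 + (-t1) * t0 = 0
  · exfalso
    obtain ⟨p, hp, hpK, hpa, hpr⟩ := hfin (max (max D.toNat N1) N)
    have b1 : D.toNat < p := lt_of_le_of_lt ((le_max_left _ _).trans (le_max_left _ _)) hpK
    have b2 : N1 < p := lt_of_le_of_lt ((le_max_right _ _).trans (le_max_left _ _)) hpK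
    have b3 : N < p := lt_of_le_of_lt (le_max_right _ _) hpK
    exact degenerate D (-t1) t0 (S p) p hD hp (by omega) hΔ (hS p hp b3 (hmod4 p hpa))
      (hrel2 p b2 hpr)
  · -- choose a large prime
    obtain ⟨l, hlb, hlp⟩ := Nat.exists_infinite_primes
      (max (max 11 (D.natAbs + 1)) (max ((D ^ 2 + (-t1) * t0).natAbs + 1) (Q + 1)))
    have c1 : 11 ≤ l := ((le_max_left _ _).trans (le_max_left _ _)).trans hlb
    have c2 : D.natAbs + 1 ≤ l := ((le_max_right _ _).trans (le_max_left _ _)).trans hlb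
    have c3 : (D ^ 2 + (-t1) * t0).natAbs + 1 ≤ l :=
      ((le_max_left _ _).trans (le_max_right _ _)).trans hlb
    have c4 : Q + 1 ≤ l := ((le_max_right _ _).trans (le_max_right _ _)).trans hlb
    have : Fact l.Prime := ⟨hlp⟩
    have hne : ∀ z : ℤ, z ≠ 0 → z.natAbs + 1 ≤ l → (z : ZMod l) ≠ 0 := by
      intro z hz hzl h0
      rw [ZMod.intCast_zmod_eq_zero_iff_dvd] at h0
      have := Int.natAbs_dvd_natAbs.mpr h0
      rw [Int.natAbs_natCast] at this
      have := Nat.le_of_dvd (Int.natAbs_pos.mpr hz) this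
      omega
    have d1 : (D : ZMod l) ≠ 0 := hne D hD.ne' c2
    have d2 : (D : ZMod l) ^ 2 + ((-t1 : ℤ) : ZMod l) * (t0 : ZMod l) ≠ 0 := by
      have := hne _ hΔ c3
      push_cast at this ⊢
      exact this
    obtain ⟨r, hr0, hr⟩ := conic_obstruction l c1 (D : ZMod l) ((-t1 : ℤ) : ZMod l) (t0 : ZMod l)
      d1 d2
    have hQl : Q.Coprime l := by
      rw [Nat.coprime_comm, Nat.Prime.coprime_iff_not_dvd hlp]
      intro h
      have := Nat.le_of_dvd hQ h
      omega
    obtain ⟨a', ha1, ha2⟩ := Nat.chineseRemainder hQl a r.val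
    refine ⟨Q * l, a', N1, Nat.mul_pos hQ hlp.pos, Dvd.intro _ rfl, ha1, ?_, ?_⟩
    · refine Nat.Coprime.mul_right ?_ ?_
      · have := Nat.ModEq.gcd_eq ha1
        rw [Nat.coprime_iff_gcd_eq_one] at hcop ⊢
        rw [this, hcop]
      · have := Nat.ModEq.gcd_eq ha2
        rw [Nat.coprime_iff_gcd_eq_one, this, ← Nat.coprime_iff_gcd_eq_one, Nat.coprime_comm,
          Nat.Prime.coprime_iff_not_dvd hlp]
        intro h
        have h1 : r.val < l := ZMod.val_lt r
        have h2 : r.val ≠ 0 := fun h3 => hr0 ((ZMod.val_eq_zero r).mp h3)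
        have := Nat.le_of_dvd (Nat.pos_of_ne_zero h2) h
        omega
    · intro p hp hpN hpa h
      have h1 := hrel2 p hpN h
      have h2 : p ≡ r.val [MOD l] :=
        (Nat.ModEq.of_dvd (Dvd.intro_left _ rfl) hpa).trans ha2
      have h3 : (p : ZMod l) = r := by
        have := (ZMod.natCast_eq_natCast_iff p r.val l).mpr h2
        rw [this, ZMod.natCast_val, ZMod.cast_id', id]
      apply hr (S p : ZMod l)
      have h4 := congrArg (fun z : ℤ => (z : ZMod l)) h1
      push_cast at h4 ⊢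
      rw [h3] at h4
      exact h4

theorem noFiniteFamily : NoFiniteFamily := by
  classical
  intro m A B hB N S hS hrel
  have key : ∀ s : Finset (Fin m), ∃ Q a N' : ℕ, 0 < Q ∧ 4 ∣ Q ∧ a % 4 = 3 ∧ a.Coprime Q ∧
      ∀ p : ℕ, p.Prime → N' < p → p ≡ a [MOD Q] → ∀ i ∈ s,
        ¬ ((B i).eval ((p : ℤ) ^ 2) * (2 * (p : ℤ) - S p ^ 2) = (A i).eval ((p : ℤ) ^ 2)) := by
    intro s
    induction s using Finset.induction_on with
    | empty => exact ⟨4, 3, 0, by norm_num, dvd_rfl, by norm_num, by norm_num, by simp⟩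
    | insert i s _ ih =>
      obtain ⟨Q, a, N', hQ, h4, ha, hcop, h⟩ := ih
      obtain ⟨Q', a', N'', hQ', hQQ', haa', hcop', h'⟩ :=
        one_step (A i) (B i) (hB i) N S hS Q a hQ h4 ha hcop
      refine ⟨Q', a', max N' N'', hQ', h4.trans hQQ', ?_, hcop', ?_⟩
      · have h1 : a' ≡ a [MOD 4] := Nat.ModEq.of_dvd h4 haa'
        unfold Nat.ModEq at h1
        omega
      · intro p hp hpN hpa j hj
        rcases Finset.mem_insert.mp hj with rfl | hj
        · exact h' p hp (lt_of_le_of_lt (le_max_right _ _) hpN) hpa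
        · exact h p hp (lt_of_le_of_lt (le_max_left _ _) hpN)
            ((Nat.ModEq.of_dvd hQQ' hpa).trans haa') j hj
  obtain ⟨Q, a, N', hQ, h4, ha, hcop, h⟩ := key Finset.univ
  obtain ⟨p, hpN, hp, hpa⟩ := Nat.forall_exists_prime_gt_and_modEq (max N N') hQ.ne' hcop
  have hp4 : p % 4 = 3 := by
    have h1 : p ≡ a [MOD 4] := Nat.ModEq.of_dvd h4 hpa
    unfold Nat.ModEq at h1
    omega
  obtain ⟨i, hi⟩ := hrel p hp (lt_of_le_of_lt (le_max_left _ _) hpN) hp4
  exact h p hp (lt_of_le_of_lt (le_max_right _ _) hpN) hpa i (Finset.mem_univ i) hi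

end Pool.Agent.MP_f418a9_al.NF
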