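import Mathlib
import Pool.Agent.Work.MP_f418a9_al.NF.Interface

/-!
# Block NT3: primes `p ≡ 3 mod 4` are inert in `ℚ(i)`
-/

open scoped BigOperators NumberField
open IsDedekindDomain

namespace Pool.Agent.MP_f418a9_al.NF

theorem inertPrimes : InertPrimes := by
  intro p hp hp4
  have := Fact.mk hp
  have : NeZero (4 : ℕ) := ⟨by norm_num⟩
  have : NeZero ((4 : ℕ) : ℚ) := ⟨by norm_num⟩
  have hcyc : IsCyclotomicExtension {4} ℚ (CyclotomicField 4 ℚ) :=
    CyclotomicField.isCyclotomicExtension 4 ℚ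
  have hpz : (p : ℤ) ≠ 0 := by exact_mod_cast hp.ne_zero
  have hprime : (Ideal.span {(p : ℤ)}).IsPrime :=
    (Ideal.span_singleton_prime hpz).mpr (Nat.prime_iff_prime_int.mp hp)
  have hbot : Ideal.span {(p : ℤ)} ≠ ⊥ := by
    rw [Ne, Ideal.span_singleton_eq_bot]; exact hpz
  have hmax : (Ideal.span {(p : ℤ)}).IsMaximal := hprime.isMaximal hbot
  obtain ⟨⟨P, hP, hlies⟩⟩ := (Ideal.span {(p : ℤ)}).nonempty_primesOver
    (S := 𝓞 (CyclotomicField 4 ℚ))
  have hPmax : P.IsMaximal := Ideal.IsMaximal.of_liesOver_isMaximal P (Ideal.span {(p : ℤ)})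
  have hPbot : P ≠ ⊥ := Ideal.ne_bot_of_liesOver_of_ne_bot hbot P
  refine ⟨⟨P, hP, hPbot⟩, ?_⟩
  have hnd : ¬ p ∣ 4 := by
    intro h
    have h1 := Nat.le_of_dvd (by norm_num) h
    interval_cases p <;> omega
  have h1 := IsCyclotomicExtension.Rat.inertiaDeg_eq_of_not_dvd p (CyclotomicField 4 ℚ) P
    (m := 4) hnd
  have h2 : orderOf (p : ZMod 4) = 2 := by
    have h3 : (p : ZMod 4) = 3 := by
      have : ((p % 4 : ℕ) : ZMod 4) = (p : ZMod 4) := ZMod.natCast_mod p 4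
      rw [← this, hp4]; rfl
    rw [h3]
    refine orderOf_eq_prime ?_ ?_ <;> decide
  have h4 := Ideal.absNorm_pow_inertiaDeg (Ideal.span {(p : ℤ)}) P
  rw [h1, h2, Ideal.absNorm_span_singleton] at h4
  unfold resCard
  change Nat.card (𝓞 (CyclotomicField 4 ℚ) ⧸ P) = p ^ 2
  rw [← Submodule.cardQuot_apply, ← Ideal.absNorm_apply, ← h4]
  simp

end Pool.Agent.MP_f418a9_al.NF
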