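import Mathlib
import Pool.Agent.Work.MP_f418a9_al.NF.Interface

/-!
# Block NT4: the residue field of the completion
-/

open scoped BigOperators NumberField WithZero
open IsDedekindDomain HeightOneSpectrum

namespace Pool.Agent.MP_f418a9_al.NF

variable {K : Type} [Field K] [NumberField K] (v : HeightOneSpectrum (𝓞 K))

lemma residue_eq_zero_iff_lt (x : Loc v) :
    IsLocalRing.residue (Loc v) x = 0 ↔ Valued.v (x : v.adicCompletion K) < 1 := by
  rw [IsLocalRing.residue_eq_zero_iff, IsLocalRing.mem_maximalIdeal, mem_nonunits_iff,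
    adicCompletionIntegers.isUnit_iff_valued_eq_one]
  have h : Valued.v (x : v.adicCompletion K) ≤ 1 := x.2
  constructor
  · intro h1
    exact lt_of_le_of_ne h h1
  · intro h1
    exact h1.ne

/-- The reduction map from `𝓞 K`. -/
noncomputable def resMap : 𝓞 K →+* IsLocalRing.ResidueField (Loc v) :=
  (IsLocalRing.residue (Loc v)).comp (algebraMap (𝓞 K) (Loc v))

lemma ker_resMap : RingHom.ker (resMap v) = v.asIdeal := by
  ext a
  rw [RingHom.mem_ker]
  change IsLocalRing.residue (Loc v) (algebraMap (𝓞 K) (Loc v) a) = 0 ↔ _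
  rw [residue_eq_zero_iff_lt]
  have h1 : Valued.v ((algebraMap (𝓞 K) (Loc v) a : Loc v) : v.adicCompletion K) =
      v.valuation K (algebraMap (𝓞 K) K a) := valuedAdicCompletion_eq_valuation v a
  rw [h1]
  exact valuation_lt_one_iff_mem v a

lemma resMap_surj : Function.Surjective (resMap v) := by
  intro y
  obtain ⟨x, rfl⟩ := IsLocalRing.residue_surjective y
  -- approximate `x` by an element of `K`
  have hopen : {z : v.adicCompletion K | Valued.v (z - (x : v.adicCompletion K)) < 1} ∈
      nhds (x : v.adicCompletion K) := by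
    rw [Valued.mem_nhds]
    exact ⟨1, fun z hz => by simpa using hz⟩
  obtain ⟨k, hk⟩ := (denseRange_algebraMap K v).mem_nhds hopen
  rw [Set.mem_setOf_eq] at hk
  have hkk : Valued.v (algebraMap K (v.adicCompletion K) k) = v.valuation K k :=
    valuedAdicCompletion_eq_valuation' v k
  have hkv : v.valuation K k ≤ 1 := by
    rw [← hkk]
    have h1 : algebraMap K (v.adicCompletion K) k =
        (algebraMap K (v.adicCompletion K) k - (x : v.adicCompletion K)) + x := by ring
    rw [h1]
    exact (Valuation.map_add _ _ _).trans (max_le hk.le x.2)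
  obtain ⟨a, ha⟩ := exists_valuation_sub_lt_of_integer v hkv 1
  refine ⟨a, ?_⟩
  change IsLocalRing.residue (Loc v) (algebraMap (𝓞 K) (Loc v) a) = IsLocalRing.residue (Loc v) x
  rw [← sub_eq_zero, ← map_sub, residue_eq_zero_iff_lt]
  have h2 : ((algebraMap (𝓞 K) (Loc v) a - x : Loc v) : v.adicCompletion K) =
      algebraMap K (v.adicCompletion K) (algebraMap (𝓞 K) K a - k) +
        (algebraMap K (v.adicCompletion K) k - (x : v.adicCompletion K)) := by
    rw [map_sub]
    have h3 : ((algebraMap (𝓞 K) (Loc v) a - x : Loc v) : v.adicCompletion K) =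
      ((algebraMap (𝓞 K) (Loc v) a : Loc v) : v.adicCompletion K) - x := rfl
    have h4 : ((algebraMap (𝓞 K) (Loc v) a : Loc v) : v.adicCompletion K) =
        algebraMap K (v.adicCompletion K) (algebraMap (𝓞 K) K a) := rfl
    rw [h3, h4]
    ring
  rw [h2]
  refine lt_of_le_of_lt (Valuation.map_add _ _ _) (max_lt ?_ hk)
  have h5 : Valued.v (algebraMap K (v.adicCompletion K) (algebraMap (𝓞 K) K a - k)) =
      v.valuation K (algebraMap (𝓞 K) K a - k) :=
    valuedAdicCompletion_eq_valuation' v _
  rw [h5]
  simpa using ha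

theorem residueCard : ResidueCard := by
  intro K _ _ v
  unfold resCard
  have e : (𝓞 K ⧸ v.asIdeal) ≃+* IsLocalRing.ResidueField (Loc v) :=
    (Ideal.quotEquivOfEq (ker_resMap v).symm).trans
      (RingHom.quotientKerEquivOfSurjective (resMap_surj v))
  exact (Nat.card_congr e.toEquiv).symm

end Pool.Agent.MP_f418a9_al.NF
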