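import Mathlib
import Pool.Agent.Work.MP_f418a9_al.NF.Main
import Pool.Agent.Work.MP_f418a9_al.NF.NT1
import Pool.Agent.Work.MP_f418a9_al.NF.NT2
import Pool.Agent.Work.MP_f418a9_al.NF.NT3
import Pool.Agent.Work.MP_f418a9_al.NF.NT4
import Pool.Agent.Work.MP_f418a9_al.NF.HYP

/-!
# The final theorem
-/

open scoped BigOperators NumberField
open IsDedekindDomain

namespace Pool.Agent.MP_f418a9_al.NF

theorem final :
    ∃ (d : ℕ) (c : StructureConstants (CyclotomicField 4 ℚ) d), IsLieAlg c ∧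
      IsUniform (fun v => zetaIdx v (IsIdeal2 v c)) ∧
      IsFinitelyUniform (fun v => zetaIdx v (IsIdeal2 v c)) ∧
      ¬ IsUniform (fun v => zetaCo v (IsIdeal2 v c)) ∧
      ¬ IsFinitelyUniform (fun v => zetaCo v (IsIdeal2 v c)) :=
  main charSumSq noFiniteFamily inertPrimes residueCard hypCount

end Pool.Agent.MP_f418a9_al.NF
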